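import Pool.Agent.J4H59.PD.Fn

/-!
# Functions on a `G`-set, with restrictions on the cells

`FO Ω` is the module of integral functions on the `G`-set `Ω`.  Let `p : Ω → G ⧸ N` be equivariant;
its fibres are the cells.  A structure `Vs N Ω` is a submodule of `FO Ω` consisting of functions
with support in finitely many cells which is closed under the restriction to cells.
-/

set_option autoImplicit false
set_option linter.unusedSectionVars false

open scoped Classical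

namespace Pool.Agent.J4H59.PE

open Pool.Agent.Helper386.PD3 Pool.Agent.J4H59.PD

noncomputable section

variable {G : Type} [Group G]

/-- integral functions on a set -/
def FO (Ω : Type) : Type := Ω → ℤ

instance (Ω : Type) : AddCommGroup (FO Ω) := inferInstanceAs (AddCommGroup (Ω → ℤ))

/-- translation of functions -/
def trO (Ω : Type) [MulAction G Ω] : G →* AddMonoid.End (FO Ω) where
  toFun g := { toFun := fun f x => f (g⁻¹ • x), map_zero' := rfl, map_add' := fun _ _ => rfl }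
  map_one' := by
    refine AddMonoidHom.ext fun f => funext fun x => ?_
    change f ((1 : G)⁻¹ • x) = f x
    rw [inv_one, one_smul]
  map_mul' g h := by
    refine AddMonoidHom.ext fun f => funext fun x => ?_
    change f ((g * h)⁻¹ • x) = f (h⁻¹ • g⁻¹ • x)
    rw [mul_inv_rev, mul_smul]

instance (Ω : Type) [MulAction G Ω] : Module (RR G) (FO Ω) :=
  Module.compHom (FO Ω) (liftR (trO (G := G) Ω))

variable {Ω : Type} [MulAction G Ω]

theorem gofo_apply (g : G) (f : FO Ω) (x : Ω) : (gof g • f) x = f (g⁻¹ • x) := by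
  change ((liftR (trO Ω) (gof g)) f) x = _
  rw [liftR_of]
  rfl

theorem fo_ext {f f' : FO Ω} (h : ∀ x, f x = f' x) : f = f' := funext h

theorem foadd_apply (f f' : FO Ω) (x : Ω) : (f + f') x = f x + f' x := rfl
theorem fosub_apply (f f' : FO Ω) (x : Ω) : (f - f') x = f x - f' x := rfl
theorem foneg_apply (f : FO Ω) (x : Ω) : (-f) x = -f x := rfl
theorem fozero_apply (x : Ω) : (0 : FO Ω) x = 0 := rfl

theorem fosum_apply {ι : Type} (T : Finset ι) (F : ι → FO Ω) (x : Ω) :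
    (∑ i ∈ T, F i) x = ∑ i ∈ T, F i x := by
  induction T using Finset.induction_on with
  | empty => rfl
  | insert a T ha ih => rw [Finset.sum_insert ha, Finset.sum_insert ha, foadd_apply, ih]

/-- the support -/
def spo (f : FO Ω) : Set Ω := {x | f x ≠ 0}

theorem spo_add (f f' : FO Ω) : spo (f + f') ⊆ spo f ∪ spo f' := by
  intro x hx
  by_contra hcon
  rw [Set.mem_union, not_or] at hcon
  have h1 : f x = 0 := not_not.1 hcon.1
  have h2 : f' x = 0 := not_not.1 hcon.2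
  apply hx
  rw [foadd_apply, h1, h2, add_zero]

theorem spo_neg (f : FO Ω) : spo (-f) ⊆ spo f := by
  intro x hx h
  apply hx
  rw [foneg_apply, h, neg_zero]

/-- cutting down the support of a function -/
def cuto (s : Set Ω) : FO Ω →+ FO Ω where
  toFun f x := if x ∈ s then f x else 0
  map_zero' := by
    funext x
    change (if x ∈ s then (0 : ℤ) else 0) = 0
    exact ite_self _
  map_add' f f' := by
    funext x
    change (if x ∈ s then f x + f' x else 0) = (if x ∈ s then f x else 0) +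
      (if x ∈ s then f' x else 0)
    split_ifs
    · rfl
    · rw [add_zero]

theorem cuto_apply (s : Set Ω) (f : FO Ω) (x : Ω) :
    cuto s f x = if x ∈ s then f x else 0 := rfl

theorem cuto_of_mem {s : Set Ω} (f : FO Ω) {x : Ω} (h : x ∈ s) : cuto s f x = f x :=
  if_pos h

theorem cuto_of_notMem {s : Set Ω} (f : FO Ω) {x : Ω} (h : x ∉ s) : cuto s f x = 0 :=
  if_neg h

theorem spo_cuto (s : Set Ω) (f : FO Ω) : spo (cuto s f) ⊆ spo f := by
  intro x hx hx'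
  apply hx
  rw [cuto_apply, hx', ite_self]

theorem gofo_cuto (g : G) (s : Set Ω) (f : FO Ω) :
    gof g • cuto s f = cuto {x | g⁻¹ • x ∈ s} (gof g • f) := by
  refine fo_ext fun x => ?_
  rw [gofo_apply, cuto_apply, cuto_apply, gofo_apply]
  rfl

/-- a submodule from a property -/
def mkSub (P : FO Ω → Prop) (h0 : P 0) (hadd : ∀ f f', P f → P f' → P (f + f'))
    (hneg : ∀ f, P f → P (-f)) (hg : ∀ (g : G) f, P f → P (gof g • f)) :
    Submodule (RR G) (FO Ω) where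
  carrier := {f | P f}
  add_mem' {f f'} hf hf' := hadd f f' hf hf'
  zero_mem' := h0
  smul_mem' r f hf := by
    change P (r • f)
    induction r using rr_ind with
    | h1 g => exact hg g f hf
    | h2 a b ha hb =>
      rw [add_smul]
      exact hadd _ _ ha hb
    | h3 a ha =>
      rw [neg_smul]
      exact hneg _ ha

/-- A submodule of functions with support in finitely many cells, closed under the restriction to
cells. -/
structure Vs (N : Subgroup G) (Ω : Type) [MulAction G Ω] where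
  /-- projection to the cells -/
  p : Ω → G ⧸ N
  /-- the submodule -/
  V : Submodule (RR G) (FO Ω)
  hp : ∀ (g : G) x, p (g • x) = g • p x
  hcut : ∀ f ∈ V, ∀ y, cuto {x | p x = y} f ∈ V
  hfin : ∀ f ∈ V, (p '' spo f).Finite

section Lv

variable {N : Subgroup G} {t : G} {C : Type} [MulAction G C]

namespace Vs

variable (𝒱 : Vs N Ω) (v : Lv N N t C)

theorem cut_gof (g : G) (y : G ⧸ N) (f : FO Ω) :
    cuto {x | 𝒱.p x = y} (gof g • f) = gof g • cuto {x | 𝒱.p x = g⁻¹ • y} f := by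
  rw [gofo_cuto]
  congr 1
  congr 1
  ext x
  rw [Set.mem_ofPred_eq, Set.mem_ofPred_eq, Set.mem_ofPred_eq, 𝒱.hp, smul_left_cancel_iff]

theorem image_gof (g : G) (f : FO Ω) :
    𝒱.p '' spo (gof g • f) ⊆ (fun y => g • y) '' (𝒱.p '' spo f) := by
  rintro _ ⟨x, hx, rfl⟩
  refine ⟨𝒱.p (g⁻¹ • x), ⟨g⁻¹ • x, ?_, rfl⟩, ?_⟩
  · have hx : (gof g • f) x ≠ 0 := hx
    rw [gofo_apply] at hx
    exact hx
  · change g • 𝒱.p (g⁻¹ • x) = 𝒱.p x
    rw [𝒱.hp, smul_inv_smul]

/-- support over finitely many points, with all restrictions to cells in the submodule -/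
def IsM (f : FO Ω) : Prop :=
  (v.π '' (𝒱.p '' spo f)).Finite ∧ ∀ y, cuto {x | 𝒱.p x = y} f ∈ 𝒱.V

variable {𝒱 v}

theorem IsM.zero : 𝒱.IsM v 0 := by
  refine ⟨?_, fun y => ?_⟩
  · have : spo (0 : FO Ω) = ∅ := by
      ext x
      exact ⟨fun h => h rfl, fun h => h.elim⟩
    rw [this]
    simp
  · rw [map_zero]
    exact zero_mem _

theorem IsM.add {f f' : FO Ω} (h : 𝒱.IsM v f) (h' : 𝒱.IsM v f') : 𝒱.IsM v (f + f') := by
  refine ⟨?_, fun y => ?_⟩
  · refine (h.1.union h'.1).subset ?_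
    rw [← Set.image_union, ← Set.image_union]
    exact Set.image_mono (Set.image_mono (spo_add f f'))
  · rw [map_add]
    exact add_mem (h.2 y) (h'.2 y)

theorem IsM.neg {f : FO Ω} (h : 𝒱.IsM v f) : 𝒱.IsM v (-f) := by
  refine ⟨h.1.subset (Set.image_mono (Set.image_mono (spo_neg f))), fun y => ?_⟩
  rw [map_neg]
  exact neg_mem (h.2 y)

theorem IsM.gof (g : G) {f : FO Ω} (h : 𝒱.IsM v f) :
    𝒱.IsM v (Pool.Agent.Helper386.PD3.gof g • f) := by
  refine ⟨?_, fun y => ?_⟩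
  · refine (h.1.image fun c => g • c).subset ?_
    rintro _ ⟨y, hy, rfl⟩
    obtain ⟨y', hy', rfl⟩ := 𝒱.image_gof g f hy
    exact ⟨v.π y', ⟨y', hy', rfl⟩, (v.hπ g y').symm⟩
  · rw [𝒱.cut_gof]
    exact Submodule.smul_mem _ _ (h.2 _)

theorem cut_cut (s s' : Set Ω) (f : FO Ω) : cuto s (cuto s' f) = cuto (s ∩ s') f := by
  refine fo_ext fun x => ?_
  by_cases h : x ∈ s
  · rw [cuto_of_mem _ h]
    by_cases h' : x ∈ s'
    · rw [cuto_of_mem _ h', cuto_of_mem _ (Set.mem_inter h h')]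
    · have h2 : x ∉ s ∩ s' := fun h'' => h' h''.2
      rw [cuto_of_notMem _ h', cuto_of_notMem _ h2]
  · have h2 : x ∉ s ∩ s' := fun h'' => h h''.1
    rw [cuto_of_notMem _ h, cuto_of_notMem _ h2]

/-- restrictions to unions of cells -/
theorem cut_cell_pre (S : Set (G ⧸ N)) (y : G ⧸ N) (f : FO Ω) :
    cuto {x | 𝒱.p x = y} (cuto {x | 𝒱.p x ∈ S} f) =
      if y ∈ S then cuto {x | 𝒱.p x = y} f else 0 := by
  rw [cut_cut]
  split_ifs with h
  · congr 1
    congr 1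
    ext x
    rw [Set.mem_inter_iff, Set.mem_ofPred_eq, Set.mem_ofPred_eq]
    exact ⟨fun hx => hx.1, fun hx => ⟨hx, by rw [hx]; exact h⟩⟩
  · refine fo_ext fun x => ?_
    rw [fozero_apply]
    refine cuto_of_notMem f fun hx => h ?_
    have h1 : 𝒱.p x = y := hx.1
    rw [← h1]
    exact hx.2

theorem IsM.cut {f : FO Ω} (h : 𝒱.IsM v f) (S : Set (G ⧸ N)) :
    𝒱.IsM v (cuto {x | 𝒱.p x ∈ S} f) := by
  refine ⟨h.1.subset (Set.image_mono (Set.image_mono (spo_cuto _ _))), fun y => ?_⟩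
  rw [cut_cell_pre]
  split_ifs
  · exact h.2 y
  · exact zero_mem _

variable (𝒱 v)

/-- functions with support over finitely many points -/
def MM : Submodule (RR G) (FO Ω) :=
  mkSub (𝒱.IsM v) IsM.zero (fun _ _ h h' => h.add h') (fun _ h => h.neg) fun g _ h => h.gof g

theorem mem_MM {f : FO Ω} : f ∈ 𝒱.MM v ↔ 𝒱.IsM v f := Iff.rfl

/-- bounded below -/
def Bb (f : FO Ω) : Prop := ∃ B : ℤ, ∀ x, f x ≠ 0 → B ≤ v.L (𝒱.p x)

variable {𝒱 v}

theorem Bb.add {f f' : FO Ω} (h : 𝒱.Bb v f) (h' : 𝒱.Bb v f') : 𝒱.Bb v (f + f') := by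
  obtain ⟨B, hB⟩ := h
  obtain ⟨B', hB'⟩ := h'
  refine ⟨min B B', fun x hx => ?_⟩
  rcases spo_add f f' hx with h | h
  · exact (min_le_left _ _).trans (hB x h)
  · exact (min_le_right _ _).trans (hB' x h)

theorem Bb.gof (g : G) {f : FO Ω} (hf : 𝒱.IsM v f) (h : 𝒱.Bb v f) :
    𝒱.Bb v (Pool.Agent.Helper386.PD3.gof g • f) := by
  obtain ⟨B, hB⟩ := h
  choose j hj using v.hL g
  obtain ⟨D, hD⟩ := (hf.1.image j).bddBelow
  refine ⟨B + D, fun x hx => ?_⟩
  rw [gofo_apply] at hx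
  have h1 := hB _ hx
  have h2 := hj (v.π (𝒱.p (g⁻¹ • x))) (𝒱.p (g⁻¹ • x)) rfl
  rw [← 𝒱.hp, smul_inv_smul] at h2
  have h3 : D ≤ j (v.π (𝒱.p (g⁻¹ • x))) := hD ⟨_, ⟨_, ⟨_, hx, rfl⟩, rfl⟩, rfl⟩
  linarith

variable (𝒱 v)

/-- functions with support over finitely many points and bounded below -/
def PP : Submodule (RR G) (FO Ω) :=
  mkSub (fun f => 𝒱.IsM v f ∧ 𝒱.Bb v f) ⟨IsM.zero, 0, fun _ h => absurd rfl h⟩
    (fun _ _ h h' => ⟨h.1.add h'.1, h.2.add h'.2⟩)
    (fun f h => ⟨h.1.neg, by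
      obtain ⟨B, hB⟩ := h.2
      exact ⟨B, fun x hx => hB x (spo_neg f hx)⟩⟩)
    fun g _ h => ⟨h.1.gof g, Bb.gof g h.1 h.2⟩

theorem mem_PP {f : FO Ω} : f ∈ 𝒱.PP v ↔ 𝒱.IsM v f ∧ 𝒱.Bb v f := Iff.rfl

theorem PP_cut (S : Set (G ⧸ N)) {f : FO Ω} (h : f ∈ 𝒱.PP v) :
    cuto {x | 𝒱.p x ∈ S} f ∈ 𝒱.PP v := by
  refine ⟨h.1.cut S, ?_⟩
  obtain ⟨B, hB⟩ := h.2
  exact ⟨B, fun x hx => hB x (spo_cuto _ _ hx)⟩

/-- cutting down, as an endomorphism -/
def cutP (S : Set (G ⧸ N)) : 𝒱.PP v →+ 𝒱.PP v where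
  toFun f := ⟨cuto {x | 𝒱.p x ∈ S} f.1, 𝒱.PP_cut v S f.2⟩
  map_zero' := Subtype.ext (map_zero _)
  map_add' _ _ := Subtype.ext (map_add _ _ _)

theorem cutP_coe (S : Set (G ⧸ N)) (f : 𝒱.PP v) :
    ((𝒱.cutP v S f : 𝒱.PP v) : FO Ω) = cuto {x | 𝒱.p x ∈ S} (f : FO Ω) := rfl

/-- a function with support in finitely many cells is the sum of its restrictions -/
theorem mem_of_fin {f : FO Ω} (h : (𝒱.p '' spo f).Finite)
    (h' : ∀ y, cuto {x | 𝒱.p x = y} f ∈ 𝒱.V) : f ∈ 𝒱.V := by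
  have h1 : f = ∑ y ∈ h.toFinset, cuto {x | 𝒱.p x = y} f := by
    refine fo_ext fun x => ?_
    rw [fosum_apply]
    by_cases hx : f x = 0
    · rw [hx, Finset.sum_eq_zero]
      intro y _
      rw [cuto_apply, hx, ite_self]
    · rw [Finset.sum_eq_single (𝒱.p x)]
      · exact (cuto_of_mem (s := {x' | 𝒱.p x' = 𝒱.p x}) f rfl).symm
      · intro y _ hy
        exact cuto_of_notMem (s := {x' | 𝒱.p x' = y}) f (fun h => hy h.symm)
      · intro h2
        exact absurd (h.mem_toFinset.2 ⟨x, hx, rfl⟩) h2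
  rw [h1]
  exact Submodule.sum_mem _ fun y _ => h' y

theorem neg_isM {f : FO Ω} : 𝒱.IsM v.neg f ↔ 𝒱.IsM v f := Iff.rfl

theorem inf_eq (hinj : ∀ y y', v.π y = v.π y' → v.L y = v.L y' → y = y') :
    𝒱.PP v ⊓ 𝒱.PP v.neg = 𝒱.V := by
  refine Submodule.ext fun f => ?_
  rw [Submodule.mem_inf]
  constructor
  · rintro ⟨⟨h1, B, hB⟩, ⟨-, B', hB'⟩⟩
    refine 𝒱.mem_of_fin ?_ h1.2
    have h2 : ((h1.1.toFinset ×ˢ Finset.Icc B (-B') : Finset (C × ℤ)) : Set (C × ℤ)).Finite :=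
      Finset.finite_toSet _
    refine (h2.subset ?_).of_finite_image (f := fun y => (v.π y, v.L y)) ?_
    · rintro _ ⟨y, hy, rfl⟩
      rw [Finset.mem_coe, Finset.mem_product, Finset.mem_Icc]
      refine ⟨?_, ?_, ?_⟩
      · rw [Set.Finite.mem_toFinset]
        exact ⟨y, hy, rfl⟩
      · obtain ⟨x, hx, rfl⟩ := hy
        exact hB x hx
      · obtain ⟨x, hx, rfl⟩ := hy
        have h3 : B' ≤ -v.L (𝒱.p x) := hB' x hx
        change v.L (𝒱.p x) ≤ -B'
        linarith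
    · intro y _ y' _ h
      exact hinj y y' (congrArg Prod.fst h) (congrArg Prod.snd h)
  · intro h
    have h1 := 𝒱.hfin f h
    have h2 : 𝒱.IsM v f := ⟨h1.image _, 𝒱.hcut f h⟩
    obtain ⟨B, hB⟩ := (h1.image v.L).bddBelow
    obtain ⟨D, hD⟩ := (h1.image v.L).bddAbove
    refine ⟨⟨h2, B, fun x hx => hB ⟨_, ⟨x, hx, rfl⟩, rfl⟩⟩, ⟨h2, -D, fun x hx => ?_⟩⟩
    have h3 : v.L (𝒱.p x) ≤ D := hD ⟨_, ⟨x, hx, rfl⟩, rfl⟩
    change -D ≤ -v.L (𝒱.p x)
    linarith

theorem sup_eq : 𝒱.PP v ⊔ 𝒱.PP v.neg = 𝒱.MM v := by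
  apply le_antisymm
  · refine sup_le ?_ ?_
    · intro f hf
      exact hf.1
    · intro f hf
      exact hf.1
  · intro f hf
    have hf : 𝒱.IsM v f := hf
    rw [Submodule.mem_sup]
    refine ⟨cuto {x | 𝒱.p x ∈ {y | 0 ≤ v.L y}} f, ⟨hf.cut _, 0, ?_⟩,
      cuto {x | 𝒱.p x ∈ {y | ¬ 0 ≤ v.L y}} f, ⟨hf.cut _, 0, ?_⟩, ?_⟩
    · intro x hx
      by_contra hcon
      exact hx (cuto_of_notMem f hcon)
    · intro x hx
      change 0 ≤ -v.L (𝒱.p x)
      by_contra hcon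
      apply hx
      apply cuto_of_notMem f
      intro h
      have h : ¬ 0 ≤ v.L (𝒱.p x) := h
      apply hcon
      linarith
    · refine fo_ext fun x => ?_
      rw [foadd_apply, cuto_apply, cuto_apply]
      by_cases h : 0 ≤ v.L (𝒱.p x)
      · have h1 : x ∈ {x | 𝒱.p x ∈ {y | 0 ≤ v.L y}} := h
        have h2 : x ∉ {x | 𝒱.p x ∈ {y | ¬ 0 ≤ v.L y}} := fun h' => h' h
        rw [if_pos h1, if_neg h2, add_zero]
      · have h1 : x ∉ {x | 𝒱.p x ∈ {y | 0 ≤ v.L y}} := h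
        have h2 : x ∈ {x | 𝒱.p x ∈ {y | ¬ 0 ≤ v.L y}} := h
        rw [if_neg h1, if_pos h2, zero_add]

end Vs

end Lv

end

end Pool.Agent.J4H59.PE
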