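import Pool.Agent.J4H59.PD.PartB2
import Pool.Agent.J4H59.PE.Om

/-!
# Derivations with values in the characters of the functions bounded below
-/

set_option autoImplicit false
set_option linter.unusedSectionVars false

open scoped Classical

namespace Pool.Agent.J4H59.PE

open Pool.Agent.Helper386.PD3 Pool.Agent.J4H59.PD

noncomputable section

variable {G : Type} [Group G] {N : Subgroup G} {t : G} {C : Type} [MulAction G C]
variable {Ω : Type} [MulAction G Ω]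

namespace Vs

section

variable (𝒱 : Vs N Ω) (v : Lv N N t C)

/-- support over a point -/
def Over (c : C) (f : FO Ω) : Prop := ∀ x, f x ≠ 0 → v.π (𝒱.p x) = c

variable {𝒱 v}

theorem Over.smul {c : C} {f : FO Ω} (h : 𝒱.Over v c f) (g : G) :
    𝒱.Over v (g • c) (gof g • f) := by
  intro x hx
  rw [gofo_apply] at hx
  rw [← h _ hx, 𝒱.hp, v.hπ, smul_inv_smul]

theorem over_cut (c : C) (f : FO Ω) : 𝒱.Over v c (cuto {x | 𝒱.p x ∈ {y | v.π y = c}} f) := by
  intro x hx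
  by_contra hcon
  exact hx (cuto_of_notMem f hcon)

theorem Over.cut_eq {c : C} {f : FO Ω} (h : 𝒱.Over v c f) :
    cuto {x | 𝒱.p x ∈ {y | v.π y = c}} f = f := by
  refine fo_ext fun x => ?_
  by_cases hx : f x = 0
  · rw [cuto_apply, hx, ite_self]
  · exact cuto_of_mem f (h x hx)

theorem Over.cut_ne {c c' : C} {f : FO Ω} (h : 𝒱.Over v c f) (hc : c' ≠ c) :
    cuto {x | 𝒱.p x ∈ {y | v.π y = c'}} f = 0 := by
  refine fo_ext fun x => ?_
  rw [fozero_apply]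
  by_cases hx : f x = 0
  · rw [cuto_apply, hx, ite_self]
  · refine cuto_of_notMem f fun hx' => hc ?_
    have hx' : v.π (𝒱.p x) = c' := hx'
    rw [← hx', h x hx]

theorem Over.eq_zero_of_ne {c : C} {f : FO Ω} (h : 𝒱.Over v c f) {x : Ω}
    (hx : v.π (𝒱.p x) ≠ c) : f x = 0 := by
  by_contra hcon
  exact hx (h x hcon)

variable (𝒱 v)

/-- functions in the module supported over the base point in levels at least `k` -/
def FF (k : ℤ) : AddSubgroup (𝒱.PP v) where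
  carrier := {f | ∀ x, (f : FO Ω) x ≠ 0 → v.π (𝒱.p x) = v.b ∧ k ≤ v.L (𝒱.p x)}
  zero_mem' := fun x hx => absurd rfl hx
  add_mem' {f f'} hf hf' x hx := by
    by_cases h : (f : FO Ω) x = 0
    · exact hf' x (fun h' => hx (by rw [Submodule.coe_add, foadd_apply, h, h', add_zero]))
    · exact hf x h
  neg_mem' {f} hf x hx := hf x (fun h => hx (by
    rw [Submodule.coe_neg, foneg_apply, h, neg_zero]))

theorem FF_over {k : ℤ} {f : 𝒱.PP v} (h : f ∈ 𝒱.FF v k) : 𝒱.Over v v.b (f : FO Ω) :=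
  fun x hx => (h x hx).1

theorem exists_FF {f : 𝒱.PP v} (h : 𝒱.Over v v.b (f : FO Ω)) : ∃ B, f ∈ 𝒱.FF v B := by
  obtain ⟨B, hB⟩ := f.2.2
  exact ⟨B, fun x hx => ⟨h x hx, hB x hx⟩⟩

theorem FF_mono (k : ℤ) : 𝒱.FF v (k + 1) ≤ 𝒱.FF v k := by
  intro f hf x hx
  exact ⟨(hf x hx).1, by have := (hf x hx).2; linarith⟩

theorem FF_sep (B : ℤ) (f : 𝒱.PP v) (h : ∀ l : ℕ, f ∈ 𝒱.FF v (B + l)) : f = 0 := by
  apply Subtype.ext
  refine fo_ext fun x => ?_
  by_contra hcon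
  have h1 := (h (v.L (𝒱.p x) - B + 1).toNat x hcon).2
  have h2 := Int.self_le_toNat (v.L (𝒱.p x) - B + 1)
  linarith

theorem FF_comp (B : ℤ) (u : ℕ → 𝒱.PP v) (hu : ∀ k : ℕ, u k ∈ 𝒱.FF v (B + k)) :
    ∃ s, ∀ l : ℕ, s - ∑ k ∈ Finset.range l, u k ∈ 𝒱.FF v (B + l) := by
  let s : FO Ω := fun x => ∑ k ∈ Finset.range (v.L (𝒱.p x) - B + 1).toNat, (u k : FO Ω) x
  have hsum : ∀ (T : Finset ℕ) (x : Ω),
      ((∑ k ∈ T, u k : 𝒱.PP v) : FO Ω) x = ∑ k ∈ T, (u k : FO Ω) x := by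
    intro T x
    rw [Submodule.coe_sum, fosum_apply]
  have hsb : 𝒱.Over v v.b s := by
    intro x hx
    obtain ⟨k, _, hk⟩ := Finset.exists_ne_zero_of_sum_ne_zero hx
    exact (hu k x hk).1
  have hsB : ∀ x, s x ≠ 0 → B ≤ v.L (𝒱.p x) := by
    intro x hx
    obtain ⟨k, _, hk⟩ := Finset.exists_ne_zero_of_sum_ne_zero hx
    have h1 := (hu k x hk).2
    have h2 : (0 : ℤ) ≤ k := Int.natCast_nonneg k
    linarith
  have hs : s ∈ 𝒱.PP v := by
    refine ⟨⟨?_, fun y => ?_⟩, B, hsB⟩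
    · refine (Set.finite_singleton v.b).subset ?_
      rintro _ ⟨_, ⟨x, hx, rfl⟩, rfl⟩
      exact hsb x hx
    · have h1 : cuto {x | 𝒱.p x = y} s =
          ∑ k ∈ Finset.range (v.L y - B + 1).toNat, cuto {x | 𝒱.p x = y} (u k : FO Ω) := by
        refine fo_ext fun x => ?_
        rw [fosum_apply]
        by_cases hx : 𝒱.p x = y
        · rw [cuto_of_mem (s := {x | 𝒱.p x = y}) s hx]
          change ∑ k ∈ Finset.range (v.L (𝒱.p x) - B + 1).toNat, (u k : FO Ω) x = _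
          rw [hx]
          exact Finset.sum_congr rfl fun k _ =>
            (cuto_of_mem (s := {x | 𝒱.p x = y}) (u k : FO Ω) hx).symm
        · rw [cuto_of_notMem (s := {x | 𝒱.p x = y}) s hx, Finset.sum_eq_zero]
          intro k _
          exact cuto_of_notMem (s := {x | 𝒱.p x = y}) _ hx
      rw [h1]
      exact Submodule.sum_mem _ fun k _ => (u k).2.1.2 y
  refine ⟨⟨s, hs⟩, fun l x hx => ?_⟩
  have hx1 : s x - ∑ k ∈ Finset.range l, (u k : FO Ω) x ≠ 0 := by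
    rw [← hsum]
    exact hx
  constructor
  · by_contra hcon
    apply hx1
    rw [hsb.eq_zero_of_ne hcon,
      Finset.sum_eq_zero fun k _ => (𝒱.FF_over v (hu k)).eq_zero_of_ne hcon, sub_zero]
  · by_contra hcon
    apply hx1
    rw [sub_eq_zero]
    apply Finset.sum_subset
    · intro k hk
      rw [Finset.mem_range] at hk ⊢
      rw [Int.lt_toNat] at hk
      have : (k : ℤ) < l := by linarith
      exact_mod_cast this
    · intro k hk hk'
      rw [Finset.mem_range, not_lt] at hk'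
      by_contra h0
      have h1 := (hu k x h0).2
      have h2 := Int.self_le_toNat (v.L (𝒱.p x) - B + 1)
      have h3 : (((v.L (𝒱.p x) - B + 1).toNat : ℕ) : ℤ) ≤ k := by exact_mod_cast hk'
      linarith

theorem FF_gof {n : G} (hn : n ∈ N) {k : ℤ} {f : 𝒱.PP v} (hf : f ∈ 𝒱.FF v k) :
    gof n • f ∈ 𝒱.FF v k := by
  intro x hx
  rw [Submodule.coe_smul, gofo_apply] at hx
  obtain ⟨h1, h2⟩ := hf _ hx
  rw [𝒱.hp] at h1 h2
  rw [v.hπ, inv_smul_eq_iff, v.hNb _ hn] at h1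
  rw [v.hNL _ (N.inv_mem hn) _ h1] at h2
  exact ⟨h1, h2⟩

theorem FF_t {k : ℤ} {f : 𝒱.PP v} (hf : f ∈ 𝒱.FF v k) : gof t • f ∈ 𝒱.FF v (k + 1) := by
  intro x hx
  rw [Submodule.coe_smul, gofo_apply] at hx
  obtain ⟨h1, h2⟩ := hf _ hx
  have h3 := v.htL _ h1
  rw [← 𝒱.hp, smul_inv_smul] at h3
  rw [𝒱.hp, v.hπ, inv_smul_eq_iff, v.ht] at h1
  exact ⟨h1, by linarith⟩

/-- the elements of the group ring which preserve the filtration -/
def Pres (β : RR G) : Prop := ∀ (k : ℤ) (m : 𝒱.PP v), m ∈ 𝒱.FF v k → β • m ∈ 𝒱.FF v k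

theorem Pres_zero : 𝒱.Pres v 0 := by
  intro k m _
  rw [zero_smul]
  exact zero_mem _

theorem Pres_one : 𝒱.Pres v 1 := by
  intro k m hm
  rw [one_smul]
  exact hm

theorem Pres_add {a b : RR G} (ha : 𝒱.Pres v a) (hb : 𝒱.Pres v b) : 𝒱.Pres v (a + b) := by
  intro k m hm
  rw [add_smul]
  exact add_mem (ha k m hm) (hb k m hm)

theorem Pres_mul {a b : RR G} (ha : 𝒱.Pres v a) (hb : 𝒱.Pres v b) : 𝒱.Pres v (a * b) := by
  intro k m hm
  rw [mul_smul]
  exact ha k _ (hb k m hm)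

theorem Pres_zsmul {a : RR G} (z : ℤ) (ha : 𝒱.Pres v a) : 𝒱.Pres v (z • a) := by
  intro k m hm
  rw [smul_assoc]
  exact zsmul_mem (ha k m hm) z

theorem Pres_neg {a : RR G} (ha : 𝒱.Pres v a) : 𝒱.Pres v (-a) := by
  intro k m hm
  rw [show (-a) • m = -(a • m) from neg_smul a m]
  exact neg_mem (ha k m hm)

theorem Pres_gof {n : G} (hn : n ∈ N) : 𝒱.Pres v (gof n) := fun _ _ hm => 𝒱.FF_gof v hn hm

variable {w : G →* ℤˣ}

/-- The Fox calculus of derivations with values in characters. -/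
theorem fox {d : ℕ} (x : Fin d → G) (hx : Subgroup.closure (Set.range x) = N)
    (δ : G → Du w (𝒱.PP v)) (hδ : ∀ g h, δ (g * h) = δ g + gof g • δ h) (n : G) (hn : n ∈ N) :
    ∃ β : Fin d → RR G, (∀ j, 𝒱.Pres v (β j)) ∧
      ∀ m, (δ n).ev m = ∑ j, (δ (x j)).ev (β j • m) := by
  rw [← hx] at hn
  induction hn using Subgroup.closure_induction with
  | mem n hn =>
    obtain ⟨i, rfl⟩ := hn
    refine ⟨Pi.single i 1, fun j => ?_, fun m => ?_⟩
    · by_cases hj : j = i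
      · rw [hj, Pi.single_eq_same]
        exact 𝒱.Pres_one v
      · rw [Pi.single_eq_of_ne hj]
        exact 𝒱.Pres_zero v
    · rw [Finset.sum_eq_single i]
      · rw [Pi.single_eq_same, one_smul]
      · intro j _ hj
        rw [Pi.single_eq_of_ne hj, zero_smul, map_zero]
      · intro h
        exact absurd (Finset.mem_univ i) h
  | one =>
    refine ⟨0, fun j => 𝒱.Pres_zero v, fun m => ?_⟩
    rw [der_one hδ, Du.ev_zero, Finset.sum_eq_zero]
    intro j _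
    rw [Pi.zero_apply, zero_smul, map_zero]
  | mul n n' hn hn' h h' =>
    rw [hx] at hn hn'
    obtain ⟨β, hβ, hβ'⟩ := h
    obtain ⟨β', hb, hb'⟩ := h'
    refine ⟨fun j => β j + β' j * (((w n : ℤˣ) : ℤ) • gof n⁻¹), fun j => ?_, fun m => ?_⟩
    · exact 𝒱.Pres_add v (hβ j)
        (𝒱.Pres_mul v (hb j) (𝒱.Pres_zsmul v _ (𝒱.Pres_gof v (N.inv_mem hn))))
    · rw [hδ, Du.ev_add, Du.ev_gof, hβ', hb', Finset.smul_sum, ← Finset.sum_add_distrib]
      refine Finset.sum_congr rfl fun j _ => ?_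
      rw [add_smul, map_add, mul_smul, smul_assoc, ← ev_zsmul']
      congr 2
      exact (smul_comm _ _ _)
  | inv n hn h =>
    rw [hx] at hn
    obtain ⟨β, hβ, hβ'⟩ := h
    refine ⟨fun j => -(β j * (((w n : ℤˣ) : ℤ) • gof n)), fun j => ?_, fun m => ?_⟩
    · exact 𝒱.Pres_neg v (𝒱.Pres_mul v (hβ j) (𝒱.Pres_zsmul v _ (𝒱.Pres_gof v hn)))
    · rw [der_inv hδ, Du.ev_neg, Du.ev_gof, hβ', Finset.smul_sum, ← Finset.sum_neg_distrib]
      refine Finset.sum_congr rfl fun j _ => ?_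
      have h1 : (-(β j * (((w n : ℤˣ) : ℤ) • gof n))) • m =
        -((β j * (((w n : ℤˣ) : ℤ) • gof n)) • m) := neg_smul (β j * (((w n : ℤˣ) : ℤ) • gof n)) m
      change _ = (δ (x j)).ev ((-(β j * (((w n : ℤˣ) : ℤ) • gof n))) • m)
      rw [h1, map_neg, mul_smul, smul_assoc, ← ev_zsmul', inv_inv, map_inv, Int.units_inv_eq_self]
      congr 2
      exact (smul_comm _ _ _)

/-- vanishing on functions over the base point -/
def Van (ψ : Du w (𝒱.PP v)) : Prop :=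
  ∀ m : 𝒱.PP v, 𝒱.Over v v.b (m : FO Ω) → ψ.ev m = 0

variable {𝒱 v}

theorem Van.add {ψ ψ' : Du w (𝒱.PP v)} (h : 𝒱.Van v ψ) (h' : 𝒱.Van v ψ') : 𝒱.Van v (ψ + ψ') := by
  intro m hm
  rw [Du.ev_add, h m hm, h' m hm, add_zero]

theorem Van.neg {ψ : Du w (𝒱.PP v)} (h : 𝒱.Van v ψ) : 𝒱.Van v (-ψ) := by
  intro m hm
  rw [Du.ev_neg, h m hm, neg_zero]

theorem Van.gof {ψ : Du w (𝒱.PP v)} (h : 𝒱.Van v ψ) {g : G} (hg : g • v.b = v.b) :
    𝒱.Van v (Pool.Agent.Helper386.PD3.gof g • ψ) := by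
  intro m hm
  rw [Du.ev_gof, h, smul_zero]
  rw [Submodule.coe_smul]
  have h1 := hm.smul g⁻¹
  rwa [inv_smul_eq_iff.2 hg.symm] at h1

variable (𝒱 v)

theorem descent (m : 𝒱.PP v) (hm : 𝒱.Over v v.b (m : FO Ω)) (e : ℤ) (he : e ≠ 0)
    (h : ∀ x, e * (m : FO Ω) (t • x) = (m : FO Ω) x) : m = 0 := by
  obtain ⟨B, hB⟩ := 𝒱.exists_FF v hm
  refine 𝒱.FF_sep v B m fun l => ?_
  induction l with
  | zero => simpa using hB
  | succ l ih =>
    intro x hx
    refine ⟨hm x hx, ?_⟩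
    have h1 := h (t⁻¹ • x)
    rw [smul_inv_smul] at h1
    have h2 : (m : FO Ω) (t⁻¹ • x) ≠ 0 := by
      rw [← h1]
      exact mul_ne_zero he hx
    obtain ⟨h3, h4⟩ := ih _ h2
    have h5 := v.htL _ h3
    rw [← 𝒱.hp, smul_inv_smul] at h5
    push_cast
    linarith

/-- The restriction of a derivation to the stabilizer of the base point. -/
theorem base (hNt : ∀ n ∈ N, t * n * t⁻¹ ∈ N) {d : ℕ} (x : Fin d → G)
    (hx : Subgroup.closure (Set.range x) = N) (δ : G → Du w (𝒱.PP v))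
    (hδ : ∀ g h, δ (g * h) = δ g + gof g • δ h) :
    ∃ μ : Du w (𝒱.PP v), ∀ g : G, g • v.b = v.b → 𝒱.Van v (δ g - (gof g • μ - μ)) := by
  have hxN : ∀ i, x i ∈ N := fun i => by
    rw [← hx]
    exact Subgroup.subset_closure ⟨i, rfl⟩
  have ht' : t⁻¹ • v.b = v.b := inv_smul_eq_iff.2 v.ht.symm
  let Pb : 𝒱.PP v →+ 𝒱.PP v := 𝒱.cutP v {y | v.π y = v.b}
  have hPb : ∀ m : 𝒱.PP v, 𝒱.Over v v.b (m : FO Ω) → Pb m = m :=
    fun m hm => Subtype.ext hm.cut_eq
  have hPo : ∀ m : 𝒱.PP v, 𝒱.Over v v.b (Pb m : FO Ω) := fun m => over_cut v.b _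
  let J : 𝒱.PP v →+ 𝒱.PP v := AddMonoidHom.mk'
    (fun m => ((w t : ℤˣ) : ℤ) • gof t⁻¹ • Pb m - Pb m) (by
      intro m m'
      rw [map_add, smul_add, smul_add]
      abel)
  have hJ : ∀ m, J m = ((w t : ℤˣ) : ℤ) • gof t⁻¹ • Pb m - Pb m := fun m => rfl
  obtain ⟨μ₁', hμ₁⟩ := exists_extension J ((δ t).ev.comp Pb) (by
    intro m hm
    have h1 : Pb m = 0 := by
      refine 𝒱.descent v (Pb m) (hPo m) ((w t : ℤˣ) : ℤ) (Units.ne_zero _) fun y => ?_
      rw [hJ, sub_eq_zero] at hm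
      have h2 := congrArg (fun f : 𝒱.PP v => (f : FO Ω) y) hm
      have h3 : ((((w t : ℤˣ) : ℤ) • gof t⁻¹ • Pb m : 𝒱.PP v) : FO Ω) y =
          ((w t : ℤˣ) : ℤ) * (Pb m : FO Ω) (t • y) := by
        have h4 : ∀ (z : ℤ) (f : 𝒱.PP v), ((z • f : 𝒱.PP v) : FO Ω) y =
          z * (f : FO Ω) y := fun z f => rfl
        rw [h4, Submodule.coe_smul, gofo_apply, inv_inv]
      rw [← h3]
      exact h2
    change (δ t).ev (Pb m) = 0
    rw [h1, map_zero])
  let μ₁ : Du w (𝒱.PP v) := μ₁'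
  have hμ₁ : ∀ m, μ₁.ev (J m) = (δ t).ev (Pb m) := hμ₁
  refine ⟨μ₁, ?_⟩
  let δ' : G → Du w (𝒱.PP v) := fun g => δ g - (gof g • μ₁ - μ₁)
  have hδ' : ∀ g h, δ' (g * h) = δ' g + gof g • δ' h := der_sub hδ μ₁
  have hδ't : 𝒱.Van v (δ' t) := by
    intro m hm
    change (δ t - (gof t • μ₁ - μ₁)).ev m = 0
    rw [Du.ev_sub, Du.ev_sub, Du.ev_gof, ← ev_zsmul']
    have h1 := hμ₁ m
    rw [hJ, hPb m hm, sub_eq_add_neg, ev_add', map_neg] at h1
    rw [← h1]
    abel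
  have hvan_inv : ∀ g : G, g • v.b = v.b → 𝒱.Van v (δ' g) → 𝒱.Van v (δ' g⁻¹) := by
    intro g hg h
    rw [der_inv hδ']
    exact (h.gof (inv_smul_eq_iff.2 hg.symm)).neg
  have hvan_mul : ∀ g h : G, g • v.b = v.b → 𝒱.Van v (δ' g) → 𝒱.Van v (δ' h) →
      𝒱.Van v (δ' (g * h)) := by
    intro g h hg h1 h2
    rw [hδ']
    exact h1.add (h2.gof hg)
  -- conjugation by `t`
  have hnN : ∀ i, t * x i * t⁻¹ ∈ N := fun i => hNt _ (hxN i)
  have hrel : ∀ i (m : 𝒱.PP v), 𝒱.Over v v.b (m : FO Ω) →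
      (δ' (t * x i * t⁻¹)).ev m = (δ' (x i)).ev (((w t : ℤˣ) : ℤ) • gof t⁻¹ • m) := by
    intro i m hm
    have h1 : 𝒱.Van v (gof (t * x i) • δ' t⁻¹) := by
      refine (hvan_inv t v.ht hδ't).gof ?_
      rw [mul_smul, v.hNb _ (hxN i), v.ht]
    rw [hδ', hδ', Du.ev_add, Du.ev_add, h1 m hm, hδ't m hm, add_zero, zero_add, Du.ev_gof,
      ← ev_zsmul']
  have hfox := fun i => 𝒱.fox v x hx δ' hδ' (t * x i * t⁻¹) (hnN i)
  choose β hβ hβ' using hfox
  let F : ℤ → AddSubgroup (Fin d → 𝒱.PP v) := fun k =>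
    { carrier := {u | ∀ j, u j ∈ 𝒱.FF v k}
      zero_mem' := fun j => zero_mem _
      add_mem' := fun ha hb j => add_mem (ha j) (hb j)
      neg_mem' := fun ha j => neg_mem (ha j) }
  let Z : (Fin d → 𝒱.PP v) →+ (Fin d → 𝒱.PP v) := AddMonoidHom.mk'
    (fun u j => ((w t : ℤˣ) : ℤ) • gof t • ∑ i, β i j • u i) (by
      intro u u'
      funext j
      rw [Pi.add_apply, ← smul_add, ← smul_add, ← Finset.sum_add_distrib]
      congr 2
      exact Finset.sum_congr rfl fun i _ => smul_add _ _ _)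
  have hZ : ∀ u j, Z u j = ((w t : ℤˣ) : ℤ) • gof t • ∑ i, β i j • u i := fun u j => rfl
  have hvanx : ∀ j, 𝒱.Van v (δ' (x j)) := by
    intro j₀ m₀ hm₀
    obtain ⟨B, hB⟩ := 𝒱.exists_FF v hm₀
    let c : Fin d → 𝒱.PP v := Pi.single j₀ m₀
    have hc : ∀ j, c j ∈ 𝒱.FF v B := by
      intro j
      by_cases hj : j = j₀
      · rw [hj]
        change (Pi.single j₀ m₀ : Fin d → 𝒱.PP v) j₀ ∈ 𝒱.FF v B
        rw [Pi.single_eq_same]
        exact hB
      · change (Pi.single j₀ m₀ : Fin d → 𝒱.PP v) j ∈ 𝒱.FF v B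
        rw [Pi.single_eq_of_ne hj]
        exact zero_mem _
    obtain ⟨s, hs, hs'⟩ := exists_fix F (fun k u hu j => 𝒱.FF_mono v k (hu j))
      (fun B u hu => funext fun j => 𝒱.FF_sep v B (u j) fun l => hu l j)
      (by
        intro B u hu
        choose s hs using fun j => 𝒱.FF_comp v B (fun k => u k j) (fun k => hu k j)
        refine ⟨s, fun l j => ?_⟩
        have h1 := hs j l
        rw [Pi.sub_apply, Finset.sum_apply]
        exact h1) Z
      (by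
        intro k u hu j
        rw [hZ]
        refine zsmul_mem (𝒱.FF_t v ?_) _
        exact sum_mem fun i _ => hβ i j k _ (hu i))
      (B + 1) (fun j => ((w t : ℤˣ) : ℤ) • gof t • c j)
      (fun j => zsmul_mem (𝒱.FF_t v (hc j)) _)
    have hs2 : ∀ j, c j = ((w t : ℤˣ) : ℤ) • gof t⁻¹ • s j - ∑ i, β i j • s i := by
      intro j
      have h1 := congrFun hs' j
      rw [Pi.sub_apply, hZ] at h1
      have h2 : ∀ m : 𝒱.PP v, ((w t : ℤˣ) : ℤ) • gof t⁻¹ • ((w t : ℤˣ) : ℤ) • gof t • m = m := by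
        intro m
        rw [smul_comm (gof t⁻¹), unit_smul_unit_smul, smul_smul, ← gof_mul, inv_mul_cancel, gof_one,
          one_smul]
      have h3 := congrArg (fun m => ((w t : ℤˣ) : ℤ) • gof t⁻¹ • m) h1
      simp only [smul_sub, h2] at h3
      exact h3.symm
    have h4 : ∑ j, (δ' (x j)).ev (c j) = (δ' (x j₀)).ev m₀ := by
      rw [Finset.sum_eq_single j₀]
      · change (δ' (x j₀)).ev ((Pi.single j₀ m₀ : Fin d → 𝒱.PP v) j₀) = _
        rw [Pi.single_eq_same]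
      · intro j _ hj
        change (δ' (x j)).ev ((Pi.single j₀ m₀ : Fin d → 𝒱.PP v) j) = _
        rw [Pi.single_eq_of_ne hj, map_zero]
      · intro h
        exact absurd (Finset.mem_univ _) h
    rw [← h4]
    have h5 : ∀ j, (δ' (x j)).ev (c j) = (δ' (t * x j * t⁻¹)).ev (s j) -
        ∑ i, (δ' (x j)).ev (β i j • s i) := by
      intro j
      rw [hs2 j, hrel j (s j) (𝒱.FF_over v (hs j)), map_sub, map_sum]
    simp only [h5]
    rw [Finset.sum_sub_distrib, Finset.sum_comm (f := fun j i => (δ' (x j)).ev (β i j • s i)),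
      sub_eq_zero]
    exact Finset.sum_congr rfl fun i _ => hβ' i (s i)
  have hvanN : ∀ n ∈ N, 𝒱.Van v (δ' n) := by
    intro n hn m hm
    obtain ⟨β, hβ, hβ'⟩ := 𝒱.fox v x hx δ' hδ' n hn
    obtain ⟨B, hB⟩ := 𝒱.exists_FF v hm
    rw [hβ']
    exact Finset.sum_eq_zero fun j _ => hvanx j _ (𝒱.FF_over v (hβ j B m hB))
  intro g hg
  have hg' := v.hst g hg
  have hkey : g • v.b = v.b ∧ 𝒱.Van v (δ' g) := by
    clear hg
    induction hg' using Subgroup.closure_induction with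
    | mem g hg =>
      rcases hg with hg | hg
      · exact ⟨v.hNb g hg, hvanN g hg⟩
      · rw [Set.mem_singleton_iff] at hg
        rw [hg]
        exact ⟨v.ht, hδ't⟩
    | one =>
      refine ⟨one_smul _ _, ?_⟩
      rw [der_one hδ']
      intro m _
      exact Du.ev_zero m
    | mul g h _ _ hg hh =>
      exact ⟨by rw [mul_smul, hh.1, hg.1], hvan_mul g h hg.1 hg.2 hh.2⟩
    | inv g _ hg => exact ⟨inv_smul_eq_iff.2 hg.1.symm, hvan_inv g hg.1 hg.2⟩
  exact hkey.2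

/-- additive maps are determined by the functions supported over one point -/
theorem ind_over (E : 𝒱.PP v →+ EE)
    (hE : ∀ (c : C) (f : 𝒱.PP v), 𝒱.Over v c (f : FO Ω) → E f = 0) (f : 𝒱.PP v) : E f = 0 := by
  have hkey : ∀ (T : Finset C) (f : 𝒱.PP v), (∀ x, (f : FO Ω) x ≠ 0 → v.π (𝒱.p x) ∈ T) →
      E f = 0 := by
    intro T
    induction T using Finset.induction_on with
    | empty =>
      intro f hf
      have : f = 0 := by
        apply Subtype.ext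
        refine fo_ext fun x => ?_
        by_contra hcon
        exact absurd (hf x hcon) (Finset.notMem_empty _)
      rw [this, map_zero]
    | insert c T hc ih =>
      intro f hf
      have h1 : f = 𝒱.cutP v {y | v.π y = c} f + (f - 𝒱.cutP v {y | v.π y = c} f) := by abel
      rw [h1, map_add, hE c _ (over_cut c _), zero_add]
      apply ih
      intro x hx
      have hx : (f : FO Ω) x - cuto {x | 𝒱.p x ∈ {y | v.π y = c}} (f : FO Ω) x ≠ 0 := hx
      by_cases hxc : v.π (𝒱.p x) = c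
      · exact absurd (by rw [cuto_of_mem (s := {x | 𝒱.p x ∈ {y | v.π y = c}}) (f : FO Ω) hxc,
          sub_self]) hx
      · rw [cuto_of_notMem (s := {x | 𝒱.p x ∈ {y | v.π y = c}}) (f : FO Ω) hxc, sub_zero] at hx
        rcases Finset.mem_insert.1 (hf x hx) with h | h
        · exact absurd h hxc
        · exact h
  refine hkey f.2.1.1.toFinset f fun x hx => ?_
  rw [Set.Finite.mem_toFinset]
  exact ⟨_, ⟨x, hx, rfl⟩, rfl⟩

/-- Every derivation with values in the characters of the functions bounded below is inner. -/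
theorem allDer_PP (hNt : ∀ n ∈ N, t * n * t⁻¹ ∈ N) {d : ℕ} (x : Fin d → G)
    (hx : Subgroup.closure (Set.range x) = N) : AllDer (G := G) (Du w (𝒱.PP v)) := by
  intro δ hδ
  obtain ⟨μ₁, hμ₁⟩ := 𝒱.base v hNt x hx δ hδ
  let δ' : G → Du w (𝒱.PP v) := fun g => δ g - (gof g • μ₁ - μ₁)
  have hδ' : ∀ g h, δ' (g * h) = δ' g + gof g • δ' h := der_sub hδ μ₁
  have hvan : ∀ g : G, g • v.b = v.b → 𝒱.Van v (δ' g) := hμ₁
  let P : C → 𝒱.PP v →+ 𝒱.PP v := fun c => 𝒱.cutP v {y | v.π y = c}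
  have hfin : ∀ f : 𝒱.PP v, (Function.support fun c => (δ' (v.r c)).ev (P c f)).Finite := by
    intro f
    refine f.2.1.1.subset ?_
    intro c hc
    by_contra hcon
    apply hc
    have h1 : P c f = 0 := by
      apply Subtype.ext
      refine fo_ext fun x => ?_
      by_cases hx : (f : FO Ω) x = 0
      · change cuto {x | 𝒱.p x ∈ {y | v.π y = c}} (f : FO Ω) x = 0
        rw [cuto_apply, hx, ite_self]
      · refine cuto_of_notMem _ fun hxc => hcon ⟨_, ⟨x, hx, rfl⟩, hxc⟩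
    change (δ' (v.r c)).ev (P c f) = 0
    rw [h1, map_zero]
  let μ₂' : 𝒱.PP v →+ EE := AddMonoidHom.mk'
    (fun f => -∑ᶠ c, (δ' (v.r c)).ev (P c f)) (by
      intro f f'
      rw [← neg_add, ← finsum_add_distrib (hfin f) (hfin f')]
      congr 1
      exact finsum_congr fun c => by rw [map_add, map_add])
  let μ₂ : Du w (𝒱.PP v) := μ₂'
  have hμ₂ : ∀ (c : C) (f : 𝒱.PP v), 𝒱.Over v c (f : FO Ω) →
      μ₂.ev f = -(δ' (v.r c)).ev f := by
    intro c f hf
    change -∑ᶠ c, (δ' (v.r c)).ev (P c f) = _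
    rw [finsum_eq_single _ c]
    · have h1 : P c f = f := Subtype.ext hf.cut_eq
      rw [h1]
    · intro c' hc'
      have h1 : P c' f = 0 := Subtype.ext (hf.cut_ne hc')
      rw [h1, map_zero]
  have hfinal : ∀ g, δ' g = gof g • μ₂ - μ₂ := by
    intro g
    rw [← sub_eq_zero]
    refine Du.ext fun f => ?_
    rw [Du.ev_zero]
    refine 𝒱.ind_over v _ (fun c f hf => ?_) f
    have h0 : (δ' g - (gof g • μ₂ - μ₂)).ev f =
      (δ' g).ev f - ((gof g • μ₂).ev f - μ₂.ev f) := rfl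
    rw [h0, Du.ev_gof, hμ₂ c f hf]
    have h1 : 𝒱.Over v (g⁻¹ • c) ((gof g⁻¹ • f : 𝒱.PP v) : FO Ω) := hf.smul g⁻¹
    rw [hμ₂ _ _ h1]
    set r := v.r c with hr
    set r' := v.r (g⁻¹ • c) with hr'
    have h2 : ((w g : ℤˣ) : ℤ) • (δ' r').ev (gof g⁻¹ • f) = (δ' (g * r')).ev f - (δ' g).ev f := by
      rw [← Du.ev_gof, hδ', Du.ev_add]
      abel
    have h3 : (δ' (g * r')).ev f = (δ' r).ev f := by
      have h4 : g * r' = r * (r⁻¹ * g * r') := by group
      have h5 : (r⁻¹ * g * r') • v.b = v.b := by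
        rw [mul_smul, mul_smul, hr', v.hr, smul_inv_smul, hr]
        rw [inv_smul_eq_iff, v.hr]
      rw [h4, hδ', Du.ev_add, Du.ev_gof, hvan _ h5, smul_zero, add_zero]
      have h6 : 𝒱.Over v (r⁻¹ • c) ((gof r⁻¹ • f : 𝒱.PP v) : FO Ω) := hf.smul r⁻¹
      have h7 : r⁻¹ • c = v.b := by
        rw [inv_smul_eq_iff, hr, v.hr]
      rw [← h7]
      exact h6
    rw [smul_neg, h2, h3]
    abel
  refine ⟨μ₁ + μ₂, fun g => ?_⟩
  have h1 := hfinal g
  have h2 : δ g = δ' g + (gof g • μ₁ - μ₁) := by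
    change _ = (δ g - (gof g • μ₁ - μ₁)) + _
    abel
  rw [h2, h1, smul_add]
  abel

end

end Vs

end

end Pool.Agent.J4H59.PE
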