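import Pool.Agent.J4H59.PD.Main4
import Pool.Agent.J4H59.PE.Contra
import Pool.Agent.J4H59.PE.Push

/-!
# Normalisers of finitely generated subgroups with one end in `PD_3`-groups
-/

set_option autoImplicit false
set_option linter.unusedSectionVars false

open scoped Classical

namespace Pool.Agent.J4H59.PE

open Pool.Agent.Helper386.PD3 Pool.Agent.J4H59.PD Pool.Agent.Helper158

noncomputable section

variable {G : Type} [Group G]

/-- a subgroup of a cyclic extension which meets the kernel trivially is cyclic -/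
theorem cyc_of_inf {N : Subgroup G} {t : G} (hn : t ∈ Subgroup.normalizer (N : Set G))
    (ht : ∀ k : ℤ, k ≠ 0 → t ^ k ∉ N) {B : Subgroup G} (hB : B ≤ N ⊔ Subgroup.zpowers t)
    (hBN : B ⊓ N = ⊥) : ∃ z : G, B = Subgroup.zpowers z := by
  choose l hl using fun b : B => exists_isLev hn (hB b.2)
  let f : B →* Multiplicative ℤ :=
    { toFun := fun b => Multiplicative.ofAdd (l b)
      map_one' := by
        have h1 : l 1 = 0 := (hl 1).uniq ht (IsLev.of_mem N.one_mem)
        rw [h1]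
        rfl
      map_mul' := fun a b => by
        have h1 : l (a * b) = l a + l b := (hl (a * b)).uniq ht ((hl a).mul hn (hl b))
        rw [h1]
        rfl }
  have hf : Function.Injective f := by
    rw [injective_iff_map_eq_one]
    intro b hb
    have h1 : l b = 0 := hb
    have h2 := hl b
    rw [h1] at h2
    unfold IsLev at h2
    rw [neg_zero, zpow_zero, mul_one] at h2
    have h3 : (b : G) ∈ B ⊓ N := ⟨b.2, h2⟩
    rw [hBN, Subgroup.mem_bot] at h3
    exact Subtype.ext h3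
  have hcyc : IsCyclic B := isCyclic_of_injective f hf
  obtain ⟨z, hz⟩ := hcyc.exists_generator
  refine ⟨(z : G), le_antisymm ?_ ?_⟩
  · intro b hb
    obtain ⟨k, hk⟩ := hz ⟨b, hb⟩
    exact ⟨k, congrArg Subtype.val hk⟩
  · rw [Subgroup.zpowers_le]
    exact z.2

theorem mkLv_inj {N : Subgroup G} {t : G} (hn : t ∈ Subgroup.normalizer (N : Set G))
    (ht : ∀ k : ℤ, k ≠ 0 → t ^ k ∉ N) (y y' : G ⧸ N)
    (h1 : (mkLv hn (le_refl N) ht).π y = (mkLv hn (le_refl N) ht).π y')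
    (h2 : (mkLv hn (le_refl N) ht).L y = (mkLv hn (le_refl N) ht).L y') : y = y' := by
  obtain ⟨g, rfl⟩ := QuotientGroup.mk_surjective y
  obtain ⟨g', rfl⟩ := QuotientGroup.mk_surjective y'
  have h1 : pj N t N (g : G ⧸ N) = pj N t N (g' : G ⧸ N) := h1
  rw [pj_mk le_rfl, pj_mk le_rfl] at h1
  have h2 : lv hn N (g : G ⧸ N) = lv hn N (g' : G ⧸ N) := h2
  have h3 := lv_spec (t := t) hn (le_refl N) g
  have h4 := lv_spec (t := t) hn (le_refl N) g'
  rw [← h1, ← h2] at h4
  have h5 := (h3.inv hn).mul hn h4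
  rw [neg_add_cancel] at h5
  unfold IsLev at h5
  rw [neg_zero, zpow_zero, mul_one] at h5
  rw [QuotientGroup.eq]
  have h6 : ((rp (g : G ⧸ (N ⊔ Subgroup.zpowers t)))⁻¹ * g)⁻¹ *
      ((rp (g : G ⧸ (N ⊔ Subgroup.zpowers t)))⁻¹ * g') = g⁻¹ * g' := by group
  rwa [h6] at h5

/-- generators of a finitely generated subgroup -/
theorem exists_gens {N : Subgroup G} (hfg : N.FG) :
    ∃ (d : ℕ) (x : Fin d → N), Subgroup.closure (Set.range x) = ⊤ := by
  have h1 : Group.FG N := (Group.fg_iff_subgroup_fg N).2 hfg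
  obtain ⟨S, hS⟩ := Group.fg_def.1 h1
  refine ⟨S.card, fun i => (S.equivFin.symm i : N), ?_⟩
  have h1 : Set.range (fun i => (S.equivFin.symm i : N)) = (S : Set N) := by
    ext g
    constructor
    · rintro ⟨i, rfl⟩
      exact (S.equivFin.symm i).2
    · intro hg
      refine ⟨S.equivFin ⟨g, hg⟩, ?_⟩
      change ((S.equivFin.symm (S.equivFin ⟨g, hg⟩) : S) : N) = g
      rw [Equiv.symm_apply_apply]
  rw [h1, hS]

/-- The case of an element of infinite order. -/
theorem index_ne_zero_t {n : ℕ} {w : G →* ℤˣ} {e0 e1 e2 e3 d0 d1 d2 : MR G n}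
    (h : Full w e0 e1 e2 e3 d0 d1 d2) (hfgG : Group.FG G) (hG : AllDer (G := G) (RR G))
    (htf : ∀ (x : G) (k : ℤ), k ≠ 0 → x ^ k = 1 → x = 1)
    {N : Subgroup G} (hfg : N.FG) (hNinf : Infinite N) (hN : AllDer (G := N) (RR N)) {t : G}
    (hn : t ∈ Subgroup.normalizer (N : Set G)) (ht : ∀ k : ℤ, k ≠ 0 → t ^ k ∉ N) :
    (N ⊔ Subgroup.zpowers t).index ≠ 0 := by
  intro hH
  obtain ⟨d, x, hcl⟩ := exists_gens hfg
  have hxG : Subgroup.closure (Set.range fun i => (x i : G)) = N := by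
    have h1 : (Set.range fun i => (x i : G)) = N.subtype '' (Set.range x) := by
      rw [← Set.range_comp]
      rfl
    rw [h1, ← MonoidHom.map_closure, hcl, ← MonoidHom.range_eq_map, Subgroup.range_subtype]
  obtain ⟨S, hS⟩ := Group.fg_def.1 hfgG
  let v := mkLv (t := t) hn (le_refl N) ht
  let 𝒱 := VV1 x w
  have hinf : Infinite (G ⧸ (N ⊔ Subgroup.zpowers t)) := by
    by_contra hfin
    rw [not_infinite_iff_finite] at hfin
    exact Subgroup.index_ne_zero_of_finite hH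
  have hM : AllDer (G := G) (𝒱.MM v) := by
    refine allDer_MM 𝒱 (fun _ => rfl) (VV1_fin x w) v le_sup_left (fun g => pj_mk le_rfl g) hS hinf
      hN hNinf htf fun E y hbot => ?_
    obtain ⟨z, hz⟩ := cyc_of_inf hn ht (BY_le y) hbot
    rw [hz]
    exact allDer_cyc h hG htf z
  have hn1 : ∀ n ∈ N, t * n * t⁻¹ ∈ N := fun n hnN => (Subgroup.mem_normalizer_iff.1 hn n).1 hnN
  have hn2 : ∀ n ∈ N, t⁻¹ * n * t⁻¹⁻¹ ∈ N := fun n hnN =>
    (Subgroup.mem_normalizer_iff.1 (Subgroup.inv_mem _ hn) n).1 hnN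
  have hP : AllDer (G := G) (Du w (𝒱.PP v)) := 𝒱.allDer_PP v hn1 _ hxG
  have hQ : AllDer (G := G) (Du w (𝒱.PP v.neg)) := 𝒱.allDer_PP v.neg hn2 _ hxG
  rw [← 𝒱.sup_eq v] at hM
  have hI := glue h (𝒱.PP v) (𝒱.PP v.neg) hP hQ hM
  rw [𝒱.inf_eq v (mkLv_inj hn ht)] at hI
  refine contra x w hcl hI hN ?_ ?_
  · intro z k hk hz
    apply Subtype.ext
    exact htf z k hk (congrArg Subtype.val hz)
  · obtain ⟨z, hz⟩ := exists_ne (1 : N)
    exact ⟨z, hz⟩

end

end Pool.Agent.J4H59.PE
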