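import Pool.Agent.J4H59.PE.Om
import Pool.Agent.J4H59.PD.LineB

/-!
# Functions with support over finitely many translates of a set of cells
-/

set_option autoImplicit false
set_option linter.unusedSectionVars false

open scoped Classical

namespace Pool.Agent.J4H59.PE

open Pool.Agent.Helper386.PD3 Pool.Agent.J4H59.PD

noncomputable section

variable {G : Type} [Group G] {N : Subgroup G} {Ω : Type} [MulAction G Ω]

namespace Vs

variable (𝒱 : Vs N Ω)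

/-- restrictions to cells in the module and support over finitely many translates of `R` -/
def IsL (R : Set (G ⧸ N)) (f : FO Ω) : Prop :=
  (∀ y, cuto {x | 𝒱.p x = y} f ∈ 𝒱.V) ∧
    ∃ T : Finset G, ∀ x, f x ≠ 0 → ∃ g ∈ T, g⁻¹ • 𝒱.p x ∈ R

variable {𝒱} {R R' : Set (G ⧸ N)}

theorem IsL.zero : 𝒱.IsL R 0 := by
  refine ⟨fun y => ?_, ∅, fun x hx => absurd rfl hx⟩
  rw [map_zero]
  exact zero_mem _

theorem IsL.add {f f' : FO Ω} (h : 𝒱.IsL R f) (h' : 𝒱.IsL R f') : 𝒱.IsL R (f + f') := by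
  obtain ⟨h1, T, hT⟩ := h
  obtain ⟨h1', T', hT'⟩ := h'
  refine ⟨fun y => ?_, T ∪ T', fun x hx => ?_⟩
  · rw [map_add]
    exact add_mem (h1 y) (h1' y)
  · rcases spo_add f f' hx with h | h
    · obtain ⟨g, hg, h2⟩ := hT x h
      exact ⟨g, Finset.mem_union_left _ hg, h2⟩
    · obtain ⟨g, hg, h2⟩ := hT' x h
      exact ⟨g, Finset.mem_union_right _ hg, h2⟩

theorem IsL.neg {f : FO Ω} (h : 𝒱.IsL R f) : 𝒱.IsL R (-f) := by
  obtain ⟨h1, T, hT⟩ := h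
  refine ⟨fun y => ?_, T, fun x hx => hT x (spo_neg f hx)⟩
  rw [map_neg]
  exact neg_mem (h1 y)

theorem IsL.gof (g : G) {f : FO Ω} (h : 𝒱.IsL R f) :
    𝒱.IsL R (Pool.Agent.Helper386.PD3.gof g • f) := by
  obtain ⟨h1, T, hT⟩ := h
  refine ⟨fun y => ?_, T.image (fun g' => g * g'), fun x hx => ?_⟩
  · rw [𝒱.cut_gof]
    exact Submodule.smul_mem _ _ (h1 _)
  · rw [gofo_apply] at hx
    obtain ⟨g', hg', h2⟩ := hT _ hx
    refine ⟨g * g', Finset.mem_image_of_mem _ hg', ?_⟩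
    rw [𝒱.hp] at h2
    rw [mul_inv_rev, mul_smul]
    exact h2

theorem IsL.cut {f : FO Ω} (h : 𝒱.IsL R f) (S : Set (G ⧸ N)) :
    𝒱.IsL R (cuto {x | 𝒱.p x ∈ S} f) := by
  obtain ⟨h1, T, hT⟩ := h
  refine ⟨fun y => ?_, T, fun x hx => hT x (spo_cuto _ _ hx)⟩
  rw [cut_cell_pre]
  split_ifs
  · exact h1 y
  · exact zero_mem _

variable (𝒱) (R R')

/-- functions with support over finitely many translates of `R` -/
def LL : Submodule (RR G) (FO Ω) :=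
  mkSub (𝒱.IsL R) IsL.zero (fun _ _ h h' => h.add h') (fun _ h => h.neg) fun g _ h => h.gof g

theorem mem_LL {f : FO Ω} : f ∈ 𝒱.LL R ↔ 𝒱.IsL R f := Iff.rfl

variable {R R'} in
theorem LL_mono (h : R ⊆ R') : 𝒱.LL R ≤ 𝒱.LL R' := by
  rintro f ⟨h1, T, hT⟩
  refine ⟨h1, T, fun y hy => ?_⟩
  obtain ⟨g, hg, h'⟩ := hT y hy
  exact ⟨g, hg, h h'⟩

/-- cutting down, as an endomorphism -/
def cutL (S : Set (G ⧸ N)) : 𝒱.LL R →+ 𝒱.LL R where
  toFun f := ⟨cuto {x | 𝒱.p x ∈ S} f.1, IsL.cut (𝒱 := 𝒱) f.2 S⟩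
  map_zero' := Subtype.ext (map_zero _)
  map_add' _ _ := Subtype.ext (map_add _ _ _)

theorem cutL_coe (S : Set (G ⧸ N)) (f : 𝒱.LL R) :
    ((𝒱.cutL R S f : 𝒱.LL R) : FO Ω) = cuto {x | 𝒱.p x ∈ S} (f : FO Ω) := rfl

theorem LL_sup : 𝒱.LL R ⊔ 𝒱.LL R' = 𝒱.LL (R ∪ R') := by
  apply le_antisymm
  · exact sup_le (𝒱.LL_mono Set.subset_union_left) (𝒱.LL_mono Set.subset_union_right)
  · intro f hf
    have hf' : 𝒱.IsL (R ∪ R') f := hf
    obtain ⟨h1, T, hT⟩ := hf'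
    rw [Submodule.mem_sup]
    let K : Set (G ⧸ N) := {c | ∃ g ∈ T, g⁻¹ • c ∈ R}
    have hc1 := (IsL.cut (𝒱 := 𝒱) hf K).1
    have hc2 := (IsL.cut (𝒱 := 𝒱) hf Kᶜ).1
    refine ⟨cuto {x | 𝒱.p x ∈ K} f, ⟨hc1, T, ?_⟩, cuto {x | 𝒱.p x ∈ Kᶜ} f, ⟨hc2, T, ?_⟩, ?_⟩
    · intro x hx
      by_contra hcon
      exact hx (cuto_of_notMem f hcon)
    · intro x hx
      obtain ⟨g, hg, h⟩ := hT x (spo_cuto _ _ hx)
      refine ⟨g, hg, ?_⟩
      rcases h with h | h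
      · exfalso
        apply hx
        apply cuto_of_notMem f
        intro hx'
        exact hx' ⟨g, hg, h⟩
      · exact h
    · refine fo_ext fun x => ?_
      rw [foadd_apply]
      by_cases h : 𝒱.p x ∈ K
      · rw [cuto_of_mem (s := {x | 𝒱.p x ∈ K}) f h,
          cuto_of_notMem (s := {x | 𝒱.p x ∈ Kᶜ}) f (fun h' => h' h), add_zero]
      · rw [cuto_of_notMem (s := {x | 𝒱.p x ∈ K}) f h,
          cuto_of_mem (s := {x | 𝒱.p x ∈ Kᶜ}) f h, zero_add]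

theorem LL_inf (hR : R.Nonempty) (hR' : R'.Nonempty)
    (h : ∀ g : G, {c | c ∈ R ∧ g • c ∈ R'}.Finite) :
    𝒱.LL R ⊓ 𝒱.LL R' = 𝒱.V := by
  refine Submodule.ext fun f => ?_
  rw [Submodule.mem_inf]
  constructor
  · rintro ⟨⟨h1, T, hT⟩, ⟨-, T', hT'⟩⟩
    refine 𝒱.mem_of_fin ?_ h1
    have h2 : (⋃ g ∈ T, ⋃ g' ∈ T', (fun c : G ⧸ N => g • c) ''
        {c | c ∈ R ∧ (g'⁻¹ * g) • c ∈ R'}).Finite :=
      Set.Finite.biUnion (Finset.finite_toSet T) fun g _ =>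
        Set.Finite.biUnion (Finset.finite_toSet T') fun g' _ => (h _).image _
    refine h2.subset ?_
    rintro _ ⟨x, hx, rfl⟩
    obtain ⟨g, hg, hg1⟩ := hT x hx
    obtain ⟨g', hg', hg1'⟩ := hT' x hx
    refine Set.mem_iUnion₂.2 ⟨g, hg, Set.mem_iUnion₂.2
      ⟨g', hg', g⁻¹ • 𝒱.p x, ⟨hg1, ?_⟩, smul_inv_smul _ _⟩⟩
    rw [mul_smul, smul_inv_smul]
    exact hg1'
  · intro hf
    have hfin := 𝒱.hfin f hf
    have key : ∀ Q : Set (G ⧸ N), Q.Nonempty → f ∈ 𝒱.LL Q := by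
      rintro Q ⟨c, hc⟩
      have h1 : ∀ y : G ⧸ N, ∃ g : G, g⁻¹ • y ∈ Q := by
        intro y
        obtain ⟨g, hg⟩ := MulAction.exists_smul_eq G y c
        refine ⟨g⁻¹, ?_⟩
        rw [inv_inv, hg]
        exact hc
      choose g hg using h1
      refine ⟨𝒱.hcut f hf, hfin.toFinset.image g, fun x hx => ?_⟩
      exact ⟨g (𝒱.p x), Finset.mem_image_of_mem _ (hfin.mem_toFinset.2 ⟨x, hx, rfl⟩), hg _⟩
    exact ⟨key R hR, key R' hR'⟩

end Vs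

end

end Pool.Agent.J4H59.PE
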