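import Pool.Agent.J4H59.PE.Coh
import Pool.Agent.J4H59.PE.LL

/-!
# Derivations with values in the functions supported over finitely many translates of a set
-/

set_option autoImplicit false
set_option linter.unusedSectionVars false

open scoped Classical

namespace Pool.Agent.J4H59.PE

open Pool.Agent.Helper386.PD3 Pool.Agent.J4H59.PD

noncomputable section

variable {G : Type} [Group G] {N K : Subgroup G} {I : Type}

theorem cell_finite' (𝒱 : Vs N (OmI I G)) (hp : ∀ x : OmI I G, 𝒱.p x = (x.2 : G ⧸ N))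
    (hfin : ∀ f ∈ 𝒱.V, ∀ i, {g : G | f (omk i g) ≠ 0}.Finite)
    {f : FO (OmI I G)} (hf : ∀ y, cuto {x | 𝒱.p x = y} f ∈ 𝒱.V) (i : I) (y : G) :
    {n : N | f (omk i (y * n)) ≠ 0}.Finite := by
  have h1 := hfin _ (hf (y : G ⧸ N)) i
  refine Set.Finite.of_finite_image (f := fun n : N => y * (n : G)) (h1.subset ?_) ?_
  · rintro _ ⟨n, hn, rfl⟩
    have hn : f (omk i (y * n)) ≠ 0 := hn
    change cuto {x | 𝒱.p x = (y : G ⧸ N)} f (omk i (y * n)) ≠ 0
    rw [cuto_of_mem]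
    · exact hn
    · change 𝒱.p (omk i (y * n)) = _
      rw [hp]
      exact mk_mulK y n.2
  · intro n _ n' _ h
    exact Subtype.ext (mul_left_cancel h)

/-- the potential of a derivation, almost constant on the cells -/
theorem exists_pot (𝒱 : Vs N (OmI I G)) (hp : ∀ x : OmI I G, 𝒱.p x = (x.2 : G ⧸ N))
    (hfin : ∀ f ∈ 𝒱.V, ∀ i, {g : G | f (omk i g) ≠ 0}.Finite) (R : Set (G ⧸ N))
    (hN : AllDer (G := N) (RR N)) (hNinf : Infinite N) (δ : G → 𝒱.LL R)
    (hδ : ∀ g h, δ (g * h) = δ g + gof g • δ h) :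
    ∃ φ c : I → G → ℤ,
      (∀ (g : G) i x, φ i (g⁻¹ * x) - φ i x = (δ g : FO (OmI I G)) (omk i x)) ∧
      (∀ i y, {n : N | φ i (y * n) ≠ c i y}.Finite) ∧
      ∀ (g : G) i x, (φ i (g⁻¹ * x) - c i (g⁻¹ * x)) - (φ i x - c i x) =
        (δ g : FO (OmI I G)) (omk i x) := by
  let φ : I → G → ℤ := fun i x => -(δ x : FO (OmI I G)) (omk i x)
  have hφ : ∀ (g : G) i x, φ i (g⁻¹ * x) - φ i x = (δ g : FO (OmI I G)) (omk i x) := by
    intro g i x
    have h1 := congrArg (fun m : 𝒱.LL R => (m : FO (OmI I G)) (omk i x)) (hδ g (g⁻¹ * x))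
    have h2 : (δ (g * (g⁻¹ * x)) : FO (OmI I G)) (omk i x) =
      (δ g : FO (OmI I G)) (omk i x) + (gof g • (δ (g⁻¹ * x) : FO (OmI I G))) (omk i x) := h1
    rw [mul_inv_cancel_left, gofo_apply, omI_smul] at h2
    change -(δ (g⁻¹ * x) : FO (OmI I G)) (omk i (g⁻¹ * x)) -
      -(δ x : FO (OmI I G)) (omk i x) = _
    rw [h2]
    ring
  have hcf : ∀ (g : G) i y, {n : N | (δ g : FO (OmI I G)) (omk i (y * n)) ≠ 0}.Finite :=
    fun g i y => cell_finite' 𝒱 hp hfin (δ g).2.1 i y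
  have hex : ∀ i y, ∃ c : ℤ, {n : N | φ i (y * n) ≠ c}.Finite := by
    intro i y
    refine almost_const hN (fun n : N => φ i (y * n)) fun n' => ?_
    refine (hcf (y * n' * y⁻¹) i y).subset ?_
    intro n hn h0
    apply hn
    have h1 := hφ (y * n' * y⁻¹) i (y * n)
    rw [h0] at h1
    have h2 : (y * (n' : G) * y⁻¹)⁻¹ * (y * n) = y * ((n'⁻¹ * n : N) : G) := by
      rw [Subgroup.coe_mul, Subgroup.coe_inv]
      group
    rw [h2] at h1
    change φ i (y * ((n'⁻¹ * n : N) : G)) = φ i (y * n)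
    linarith
  choose c hc using hex
  refine ⟨φ, c, hφ, hc, fun g i x => ?_⟩
  have h1 := hcf g i x
  have h2 := hc i x
  have h3 := hc i (g⁻¹ * x)
  obtain ⟨n, hn⟩ := ((h1.union h2).union h3).exists_notMem
  rw [Set.mem_union, Set.mem_union, not_or, not_or] at hn
  have h4 : (δ g : FO (OmI I G)) (omk i (x * n)) = 0 := not_not.1 hn.1.1
  have h5 : φ i (x * n) = c i x := not_not.1 hn.1.2
  have h6 : φ i (g⁻¹ * x * n) = c i (g⁻¹ * x) := not_not.1 hn.2
  have h7 := hφ g i (x * n)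
  rw [h4, ← mul_assoc, h5, h6] at h7
  have h8 := hφ g i x
  rw [← h8]
  linarith

/-- A potential which vanishes off a set of cells no translate of which covers everything, and
off finitely many translates of `R` -/
theorem inner_of_pot (𝒱 : Vs N (OmI I G)) (hp : ∀ x : OmI I G, 𝒱.p x = (x.2 : G ⧸ N))
    (R : Set (G ⧸ N)) (δ : G → 𝒱.LL R) (m : FO (OmI I G))
    (hm : ∀ (g : G) x, m (g⁻¹ • x) - m x = (δ g : FO (OmI I G)) x)
    (E : Set (G ⧸ N)) (hE : ∃ y, y ∉ E) (hm0 : ∀ x, 𝒱.p x ∉ E → m x = 0)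
    (hsup : ∃ T : Finset G, ∀ x, m x ≠ 0 → ∃ g ∈ T, g⁻¹ • 𝒱.p x ∈ R) :
    ∃ μ : 𝒱.LL R, ∀ g, δ g = gof g • μ - μ := by
  have hmM : m ∈ 𝒱.LL R := by
    refine ⟨fun y => ?_, hsup⟩
    obtain ⟨y', hy'⟩ := hE
    obtain ⟨g, hg⟩ := MulAction.exists_smul_eq G y' y
    have h1 : cuto {x | 𝒱.p x = y} m =
        -cuto {x | 𝒱.p x = y} (δ g : FO (OmI I G)) := by
      refine fo_ext fun x => ?_
      rw [foneg_apply]
      by_cases hx : 𝒱.p x = y
      · have h3 : m (g⁻¹ • x) = 0 := by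
          apply hm0
          rw [𝒱.hp, hx, ← hg, inv_smul_smul]
          exact hy'
        rw [cuto_of_mem (s := {x | 𝒱.p x = y}) m hx,
          cuto_of_mem (s := {x | 𝒱.p x = y}) _ hx, ← hm g x, h3]
        ring
      · rw [cuto_of_notMem (s := {x | 𝒱.p x = y}) m hx,
          cuto_of_notMem (s := {x | 𝒱.p x = y}) _ hx, neg_zero]
    rw [h1]
    exact neg_mem ((δ g).2.1 _)
  refine ⟨⟨m, hmM⟩, fun g => ?_⟩
  apply Subtype.ext
  refine fo_ext fun x => ?_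
  rw [← hm g x]
  change _ = (gof g • m) x - m x
  rw [gofo_apply]

/-- The main cohomological vanishing result, for a set in `K ⧸ N` with `K` of infinite index. -/
theorem allDer_LL (𝒱 : Vs N (OmI I G)) (hp : ∀ x : OmI I G, 𝒱.p x = (x.2 : G ⧸ N))
    (hfin : ∀ f ∈ 𝒱.V, ∀ i, {g : G | f (omk i g) ≠ 0}.Finite) (hNK : N ≤ K)
    (R : Set (G ⧸ N)) (hR : ∀ c ∈ R, pu K c = ((1 : G) : G ⧸ K)) {S : Finset G}
    (hS : Subgroup.closure (S : Set G) = ⊤) (hinf : Infinite (G ⧸ K))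
    (hN : AllDer (G := N) (RR N)) (hNinf : Infinite N)
    (htf : ∀ (x : G) (k : ℤ), k ≠ 0 → x ^ k = 1 → x = 1)
    (hB : ∀ (E : Set (G ⧸ K)) (y : G), BY S K E y ⊓ N = ⊥ →
      AllDer (G := G) (famF (BY S K E y)).sub) :
    AllDer (G := G) (𝒱.LL R) := by
  intro δ hδ
  obtain ⟨φ, c, hφ, hc, hm⟩ := exists_pot 𝒱 hp hfin R hN hNinf δ hδ
  let E : Set (G ⧸ K) := (⋃ s ∈ S, pu K '' (𝒱.p '' spo (δ s : FO (OmI I G)))) ∪
    {((1 : G) : G ⧸ K)}
  have hfinE : ∀ f : 𝒱.LL R, (pu K '' (𝒱.p '' spo (f : FO (OmI I G)))).Finite := by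
    intro f
    obtain ⟨T, hT⟩ := f.2.2
    refine (T.finite_toSet.image fun g : G => (g : G ⧸ K)).subset ?_
    rintro _ ⟨_, ⟨x, hx, rfl⟩, rfl⟩
    obtain ⟨g, hg, h⟩ := hT x hx
    refine ⟨g, hg, ?_⟩
    have h1 := hR _ h
    rw [pu_smul hNK, inv_smul_eq_iff] at h1
    rw [h1]
    change (g : G ⧸ K) = ((g * 1 : G) : G ⧸ K)
    rw [mul_one]
  have hE : E.Finite := by
    refine Set.Finite.union ?_ (Set.finite_singleton _)
    exact Set.Finite.biUnion S.finite_toSet fun s _ => hfinE (δ s)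
  have hEq : ∀ a b : G, EqG S K E a b → ∀ i, φ i a = φ i b := by
    intro a b hab i
    induction hab with
    | rel a b h =>
      obtain ⟨s, hs, rfl, h1, h2⟩ := h
      have h3 := hφ s i (s * a)
      rw [inv_mul_cancel_left] at h3
      have h4 : (δ s : FO (OmI I G)) (omk i (s * a)) = 0 := by
        by_contra hcon
        apply h2
        refine Or.inl (Set.mem_iUnion₂.2 ⟨s, hs, ⟨_, ⟨omk i (s * a), hcon, rfl⟩, ?_⟩⟩)
        rw [hp]
        exact pu_mk hNK _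
      rw [h4] at h3
      linarith
    | refl a => rfl
    | symm a b _ ih => exact ih.symm
    | trans a b c _ _ ih ih' => exact ih.trans ih'
  let E' : Set (G ⧸ K) := E ∪ {c | c ∉ E ∧ {c' | EqX S K E c' c}.Finite}
  have hE' : E'.Finite := hE.union (fin_comps hS hE hinf)
  have hout : ∀ y : G, (y : G ⧸ K) ∉ E' → ∀ i, φ i y = c i y := by
    intro y hy i
    rw [Set.mem_union, not_or] at hy
    obtain ⟨hy1, hy2⟩ := hy
    have hne : BY S K E y ⊓ N ≠ ⊥ := by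
      intro hbot
      have hK : (BY S K E y).relIndex K = 0 := by
        by_contra hcon
        have h1 : (BY S K E y).relIndex N ≠ 0 :=
          mt (Subgroup.relIndex_eq_zero_of_le_right hNK) hcon
        rw [← Subgroup.inf_relIndex_right, hbot, Subgroup.relIndex_bot_left] at h1
        exact h1 (Nat.card_eq_zero_of_infinite)
      exact hy2 ⟨hy1, comp_finite hS hE ⟨_, Or.inr rfl⟩ y hy1 (hB E y hbot) hK⟩
    obtain ⟨⟨b, hb⟩, hb1⟩ := (Subgroup.ne_bot_iff_exists_ne_one.1 hne)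
    have hb1 : b ≠ 1 := fun h => hb1 (Subtype.ext h)
    have hord : ∀ k : ℤ, k ≠ 0 → b ^ k ≠ 1 := fun k hk h1 => hb1 (htf b k hk h1)
    have hinj : Function.Injective fun k : ℤ => (⟨b, hb.2⟩ : N) ^ k := by
      intro k l hkl
      have h1 : b ^ k = b ^ l := congrArg Subtype.val hkl
      exact infinite_order hord 1 (by simpa using h1)
    obtain ⟨_, ⟨k, rfl⟩, hk⟩ := (Set.infinite_range_of_injective hinj).exists_notMem_finite (hc i y)
    have hk : φ i (y * (((⟨b, hb.2⟩ : N) ^ k : N) : G)) = c i y := not_not.1 hk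
    rw [← hk]
    refine (hEq _ _ ?_ i).symm
    exact ((BY S K E y).zpow_mem hb.1 k).2
  let m : FO (OmI I G) := fun x => φ x.1 x.2 - c x.1 x.2
  have hm' : ∀ (g : G) (x : OmI I G), m (g⁻¹ • x) - m x = (δ g : FO (OmI I G)) x := by
    rintro g ⟨i, x⟩
    exact hm g i x
  have hm0 : ∀ x : OmI I G, pu K (𝒱.p x) ∉ E' → m x = 0 := by
    intro x hx
    rw [hp, pu_mk hNK] at hx
    change φ x.1 x.2 - c x.1 x.2 = 0
    rw [hout x.2 hx, sub_self]
  obtain ⟨c0, hc0⟩ := hE'.exists_notMem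
  refine inner_of_pot 𝒱 hp R δ m hm' {y | pu K y ∈ E'} ?_ hm0 ?_
  · obtain ⟨b, rfl⟩ := QuotientGroup.mk_surjective c0
    refine ⟨(b : G ⧸ N), ?_⟩
    change pu K (b : G ⧸ N) ∉ E'
    rw [pu_mk hNK]
    exact hc0
  · have h1 : ∀ c' : G ⧸ K, ∃ g : G, g⁻¹ • c' = c0 := by
      intro c'
      obtain ⟨g, hg⟩ := MulAction.exists_smul_eq G c' c0
      exact ⟨g⁻¹, by rw [inv_inv]; exact hg⟩
    choose γ hγ using h1
    choose T hT using fun g => (δ g).2.2
    refine ⟨hE'.toFinset.biUnion fun c' => T (γ c'), fun x hx => ?_⟩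
    have h2 : pu K (𝒱.p x) ∈ E' := by
      by_contra hcon
      exact hx (hm0 x hcon)
    have h3 : m ((γ (pu K (𝒱.p x)))⁻¹ • x) = 0 := by
      apply hm0
      rw [𝒱.hp, pu_smul hNK, hγ]
      exact hc0
    have h4 := hm' (γ (pu K (𝒱.p x))) x
    rw [h3, zero_sub] at h4
    obtain ⟨g, hg, h5⟩ := hT (γ (pu K (𝒱.p x))) x (by
      rw [← h4]
      exact neg_ne_zero.2 hx)
    exact ⟨g, Finset.mem_biUnion.2 ⟨_, hE'.mem_toFinset.2 h2, hg⟩, h5⟩

/-- The main cohomological vanishing result, for normal subgroups of subgroups of finite index. -/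
theorem allDer_LL_fin (𝒱 : Vs N (OmI I G)) (hp : ∀ x : OmI I G, 𝒱.p x = (x.2 : G ⧸ N))
    (hfin : ∀ f ∈ 𝒱.V, ∀ i, {g : G | f (omk i g) ≠ 0}.Finite)
    (hK : K ≤ Subgroup.normalizer (N : Set G)) (hKi : Finite (G ⧸ K))
    {d : ℕ} (x : Fin d → G) (hx : Subgroup.closure (Set.range x) = N)
    (R : Set (G ⧸ N)) (hC : ∀ T : Finset G, ∃ z : G ⧸ N, ∀ g ∈ T, g⁻¹ • z ∉ R)
    (hN : AllDer (G := N) (RR N)) (hNinf : Infinite N) :
    AllDer (G := G) (𝒱.LL R) := by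
  intro δ hδ
  obtain ⟨φ, c, hφ, hc, hm⟩ := exists_pot 𝒱 hp hfin R hN hNinf δ hδ
  choose T hT using fun g => (δ g).2.2
  have := Fintype.ofFinite (G ⧸ K)
  let T0 : Finset G := (Finset.univ : Finset (G ⧸ K)).biUnion fun a =>
    (Finset.univ : Finset (Fin d)).biUnion fun j => T (rp a * x j * (rp a)⁻¹)⁻¹ ∪
      T (rp a * x j * (rp a)⁻¹)
  let E : Set (G ⧸ N) := {y | ∃ g ∈ T0, g⁻¹ • y ∈ R}
  have hvan : ∀ (a : G ⧸ K) (j : Fin d) (i : I) (z : G), (z : G ⧸ N) ∉ E →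
      φ i ((rp a * x j * (rp a)⁻¹) * z) = φ i z ∧
      φ i ((rp a * x j * (rp a)⁻¹)⁻¹ * z) = φ i z := by
    intro a j i z hz
    constructor
    · have h1 := hφ (rp a * x j * (rp a)⁻¹)⁻¹ i z
      have h2 : (δ (rp a * x j * (rp a)⁻¹)⁻¹ : FO (OmI I G)) (omk i z) = 0 := by
        by_contra hcon
        apply hz
        obtain ⟨g, hg, h⟩ := hT _ _ hcon
        rw [hp] at h
        refine ⟨g, ?_, h⟩
        exact Finset.mem_biUnion.2 ⟨a, Finset.mem_univ _, Finset.mem_biUnion.2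
          ⟨j, Finset.mem_univ _, Finset.mem_union_left _ hg⟩⟩
      rw [h2, inv_inv] at h1
      linarith
    · have h1 := hφ (rp a * x j * (rp a)⁻¹) i z
      have h2 : (δ (rp a * x j * (rp a)⁻¹) : FO (OmI I G)) (omk i z) = 0 := by
        by_contra hcon
        apply hz
        obtain ⟨g, hg, h⟩ := hT _ _ hcon
        rw [hp] at h
        refine ⟨g, ?_, h⟩
        exact Finset.mem_biUnion.2 ⟨a, Finset.mem_univ _, Finset.mem_biUnion.2
          ⟨j, Finset.mem_univ _, Finset.mem_union_right _ hg⟩⟩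
      rw [h2] at h1
      linarith
  have hxN : ∀ j, x j ∈ N := fun j => by
    rw [← hx]
    exact Subgroup.subset_closure ⟨j, rfl⟩
  have hconst : ∀ y : G, (y : G ⧸ N) ∉ E → ∀ i, ∀ n ∈ N, φ i (y * n) = φ i y := by
    intro y hy i n hn
    let a : G ⧸ K := (y : G ⧸ K)
    have hk : (rp a)⁻¹ * y ∈ K := by
      rw [← QuotientGroup.eq, mk_rp]
    -- the elements which fix the coset and the potential
    have key : ∀ n' ∈ N, ∀ z : G, (z : G ⧸ N) = (y : G ⧸ N) →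
        ((rp a * n' * (rp a)⁻¹ * z : G) : G ⧸ N) = (y : G ⧸ N) := by
      intro n' hn' z hz
      rw [← hz, eq_comm, QuotientGroup.eq]
      have h1 : (rp a)⁻¹ * z ∈ Subgroup.normalizer (N : Set G) := by
        have h2 : y⁻¹ * z ∈ N := by rw [← QuotientGroup.eq, hz]
        have h3 : (rp a)⁻¹ * z = ((rp a)⁻¹ * y) * (y⁻¹ * z) := by group
        rw [h3]
        exact Subgroup.mul_mem _ (hK hk) (Subgroup.le_normalizer h2)
      have h2 := (Subgroup.mem_normalizer_iff.1 (Subgroup.inv_mem _ h1) n').1 hn'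
      have h3 : ((rp a)⁻¹ * z)⁻¹ * n' * ((rp a)⁻¹ * z)⁻¹⁻¹ =
        z⁻¹ * (rp a * n' * (rp a)⁻¹ * z) := by group
      rwa [h3] at h2
    have key2 : ∀ n' ∈ N, ∀ z : G, (z : G ⧸ N) = (y : G ⧸ N) →
        φ i (rp a * n' * (rp a)⁻¹ * z) = φ i z := by
      intro n' hn'
      rw [← hx] at hn'
      induction hn' using Subgroup.closure_induction with
      | mem n' h =>
        obtain ⟨j, rfl⟩ := h
        intro z hz
        exact (hvan a j i z (by rw [hz]; exact hy)).1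
      | one =>
        intro z _
        have h1 : rp a * 1 * (rp a)⁻¹ * z = z := by group
        rw [h1]
      | mul n' n'' h1 h2 ih1 ih2 =>
        intro z hz
        have h3 : rp a * (n' * n'') * (rp a)⁻¹ * z =
            rp a * n' * (rp a)⁻¹ * (rp a * n'' * (rp a)⁻¹ * z) := by group
        rw [h3, ih1 _ (key n'' (hx ▸ h2) z hz), ih2 z hz]
      | inv n' h1 ih =>
        intro z hz
        have h2 := ih (rp a * n'⁻¹ * (rp a)⁻¹ * z) (key _ (N.inv_mem (hx ▸ h1)) z hz)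
        have h3 : rp a * n' * (rp a)⁻¹ * (rp a * n'⁻¹ * (rp a)⁻¹ * z) = z := by group
        rw [h3] at h2
        exact h2.symm
    have h1 : (rp a)⁻¹ * y * n * ((rp a)⁻¹ * y)⁻¹ ∈ N :=
      (Subgroup.mem_normalizer_iff.1 (hK hk) n).1 hn
    have h2 := key2 _ h1 y rfl
    have h3 : rp a * ((rp a)⁻¹ * y * n * ((rp a)⁻¹ * y)⁻¹) * (rp a)⁻¹ * y = y * n := by group
    rw [h3] at h2
    exact h2
  let m : FO (OmI I G) := fun x => φ x.1 x.2 - c x.1 x.2
  have hm' : ∀ (g : G) (x : OmI I G), m (g⁻¹ • x) - m x = (δ g : FO (OmI I G)) x := by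
    rintro g ⟨i, x⟩
    exact hm g i x
  have hm0 : ∀ x : OmI I G, 𝒱.p x ∉ E → m x = 0 := by
    intro x hx
    rw [hp] at hx
    obtain ⟨n, hn⟩ := (hc x.1 x.2).exists_notMem
    have hn : φ x.1 (x.2 * n) = c x.1 x.2 := not_not.1 hn
    change φ x.1 x.2 - c x.1 x.2 = 0
    rw [← hn, hconst x.2 hx x.1 n n.2, sub_self]
  refine inner_of_pot 𝒱 hp R δ m hm' E ?_ hm0 ⟨T0, fun x hx => ?_⟩
  · obtain ⟨z, hz⟩ := hC T0
    exact ⟨z, fun ⟨g, hg, h⟩ => hz g hg h⟩
  · by_contra hcon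
    exact hx (hm0 x hcon)

end

end Pool.Agent.J4H59.PE
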