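import Pool.Agent.J4H59.PE.Asm
import Pool.Agent.J4H59.PE.CohL
import Pool.Agent.J4H59.PE.RayC
import Pool.Agent.J4H59.PD.Main3

/-!
# Torsion quotients
-/

set_option autoImplicit false
set_option linter.unusedSectionVars false

open scoped Classical

namespace Pool.Agent.J4H59.PE

open Pool.Agent.Helper386.PD3 Pool.Agent.J4H59.PD Pool.Agent.Helper158

noncomputable section

variable {G : Type} [Group G]

section

variable {U : Subgroup G}

/-- Lines from torsion quotients. -/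
theorem exists_LnH {H : Subgroup G} (hUH : U ≤ H) (hHN : H ≤ Subgroup.normalizer (U : Set G))
    (hH : H.FG) (hinf : U.relIndex H = 0) (htor : ∀ h ∈ H, ∃ n : ℕ, 0 < n ∧ h ^ n ∈ U) :
    ∃ v : Ln U, (∀ k, v.h k ∈ H) ∧ ∀ T : Finset G, ∃ z ∈ Subgroup.normalizer (U : Set G), ∀ g ∈ T, ∀ k : ℤ,
      g⁻¹ • (z : G ⧸ U) ≠ (v.h k : G ⧸ U) := by
  have hnorm : (U.subgroupOf H).Normal := ⟨fun n hn g => by
    rw [Subgroup.mem_subgroupOf] at hn ⊢
    exact (Subgroup.mem_normalizer_iff.1 (hHN g.2) _).1 hn⟩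
  let Q := H ⧸ U.subgroupOf H
  have hQi : Infinite Q := by
    by_contra hfin
    rw [not_infinite_iff_finite] at hfin
    exact Subgroup.index_ne_zero_of_finite (H := U.subgroupOf H) hinf
  have hQfg : Group.FG Q := by
    have h1 : Group.FG H := (Group.fg_iff_subgroup_fg H).2 hH
    exact Group.fg_of_surjective (f := QuotientGroup.mk' (U.subgroupOf H))
      (QuotientGroup.mk'_surjective _)
  have hQtor : ∀ g : Q, ∃ n : ℕ, 0 < n ∧ g ^ n = 1 := by
    intro g
    induction g using QuotientGroup.induction_on with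
    | H a =>
      obtain ⟨n, hn, hn'⟩ := htor a a.2
      refine ⟨n, hn, ?_⟩
      rw [← QuotientGroup.mk_pow, QuotientGroup.eq_one_iff, Subgroup.mem_subgroupOf]
      exact hn'
  obtain ⟨S, q, st, hst, hq, hj, hinj, hT⟩ := exists_line hQfg hQtor
  obtain ⟨h, h0, hh⟩ := exists_rec (H := H) (fun k => Quotient.out (st k)) (Quotient.out (q 0))
  have hmk : ∀ k, (QuotientGroup.mk (h k) : Q) = q k := by
    have hout : ∀ y : Q, (QuotientGroup.mk (Quotient.out y : H) : Q) = y :=
      fun y => Quotient.out_eq' y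
    intro k
    induction k using Int.induction_on with
    | zero => rw [h0]; exact hout _
    | succ k ih =>
      rw [hh, QuotientGroup.mk_mul, ih, hout, hq]
    | pred k ih =>
      have h1 := hh (-(k : ℤ) - 1)
      have h2 := hq (-(k : ℤ) - 1)
      rw [sub_add_cancel] at h1 h2
      rw [h1, QuotientGroup.mk_mul, hout, h2] at ih
      exact mul_left_cancel ih
  -- comparison of cosets
  have hcos : ∀ (g : G) (a b : H), g • ((a : G) : G ⧸ U) = ((b : G) : G ⧸ U) →
      ∃ hg : g ∈ H, (QuotientGroup.mk (⟨g, hg⟩ * a : H) : Q) = QuotientGroup.mk b := by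
    intro g a b hab
    have hab : ((g * a : G) : G ⧸ U) = ((b : G) : G ⧸ U) := hab
    rw [QuotientGroup.eq] at hab
    have hg : g ∈ H := by
      have h1 : g = b * ((g * a)⁻¹ * b)⁻¹ * (a : G)⁻¹ := by group
      rw [h1]
      exact H.mul_mem (H.mul_mem b.2 (H.inv_mem (hUH hab))) (H.inv_mem a.2)
    refine ⟨hg, ?_⟩
    rw [QuotientGroup.eq, Subgroup.mem_subgroupOf]
    exact hab
  let v : Ln U :=
    { h := fun k => (h k : G)
      st := fun k => ((Quotient.out (st k) : H) : G)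
      S := S.image fun s => ((Quotient.out s : H) : G)
      hst := fun k => Finset.mem_image_of_mem _ (hst k)
      hS := by
        intro s hs
        obtain ⟨t, -, rfl⟩ := Finset.mem_image.1 hs
        exact hHN (Quotient.out t : H).2
      hh := fun k => congrArg Subtype.val (hh k)
      hn := fun k => hHN (h k).2
      hj := by
        intro g
        by_cases hg : g ∈ H
        · obtain ⟨J, hJ⟩ := hj (QuotientGroup.mk ⟨g, hg⟩)
          refine ⟨J, fun k l hkl => hJ k l ?_⟩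
          obtain ⟨hg', h1⟩ := hcos g (h k) (h l) hkl
          rw [QuotientGroup.mk_mul, hmk, hmk] at h1
          exact h1
        · exact ⟨0, fun k l hkl => absurd (hcos g (h k) (h l) hkl).choose hg⟩
      hinj := by
        intro k l hkl
        obtain ⟨hg', h1⟩ := hcos 1 (h k) (h l) (by rw [one_smul]; exact hkl)
        rw [QuotientGroup.mk_mul, hmk, hmk] at h1
        have h2 : (QuotientGroup.mk (⟨1, hg'⟩ : H) : Q) = 1 := rfl
        rw [h2, one_mul] at h1
        exact hinj k l h1 }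
  refine ⟨v, fun k => (h k).2, fun T => ?_⟩
  let T' : Finset Q := T.image fun g => if hg : g ∈ H then (QuotientGroup.mk ⟨g, hg⟩ : Q) else 1
  obtain ⟨z, hz⟩ := hT T'
  refine ⟨((Quotient.out z : H) : G), hHN (Quotient.out z : H).2, fun g hg k hk => ?_⟩
  obtain ⟨hg', h1⟩ := hcos g⁻¹ (Quotient.out z : H) (h k) hk
  have hgH : g ∈ H := by
    have := H.inv_mem hg'
    rwa [inv_inv] at this
  have h2 : (if hg : g ∈ H then (QuotientGroup.mk ⟨g, hg⟩ : Q) else 1) ∈ T' :=
    Finset.mem_image_of_mem _ hg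
  rw [dif_pos hgH] at h2
  refine hz _ h2 k ?_
  rw [QuotientGroup.mk_mul, hmk] at h1
  have h3 : (QuotientGroup.mk (Quotient.out z : H) : Q) = z := Quotient.out_eq' z
  have h4 : (QuotientGroup.mk (⟨g⁻¹, hg'⟩ : H) : Q) = (QuotientGroup.mk (⟨g, hgH⟩ : H) : Q)⁻¹ := rfl
  rw [h3, h4] at h1
  exact h1

end

/-- The case of a torsion quotient. -/
theorem no_torsion {n : ℕ} {w : G →* ℤˣ} {e0 e1 e2 e3 d0 d1 d2 : MR G n}
    (h : Full w e0 e1 e2 e3 d0 d1 d2) (hfgG : Group.FG G) (hG : AllDer (G := G) (RR G))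
    (htf : ∀ (x : G) (k : ℤ), k ≠ 0 → x ^ k = 1 → x = 1)
    {N : Subgroup G} (hfg : N.FG) (hNinf : Infinite N) (hN : AllDer (G := N) (RR N))
    {H : Subgroup G} (hNH : N ≤ H) (hHN : H ≤ Subgroup.normalizer (N : Set G)) (hH : H.FG)
    (hinf : N.relIndex H = 0) (htor : ∀ h ∈ H, ∃ n : ℕ, 0 < n ∧ h ^ n ∈ N) : False := by
  obtain ⟨d, x, hcl⟩ := exists_gens hfg
  have hxG : Subgroup.closure (Set.range fun i => (x i : G)) = N := by
    have h1 : (Set.range fun i => (x i : G)) = N.subtype '' (Set.range x) := by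
      rw [← Set.range_comp]
      rfl
    rw [h1, ← MonoidHom.map_closure, hcl, ← MonoidHom.range_eq_map, Subgroup.range_subtype]
  obtain ⟨S, hS⟩ := Group.fg_def.1 hfgG
  obtain ⟨v, hvH, hv⟩ := exists_LnH hNH hHN hH hinf htor
  let 𝒱 := VV1 x w
  have hP : AllDer (G := G) (Du w (𝒱.LL v.pos.R)) := v.pos.allDero 𝒱 _ hxG
  have hQ : AllDer (G := G) (Du w (𝒱.LL v.neg.R)) := v.neg.allDero 𝒱 _ hxG
  have hM : AllDer (G := G) (𝒱.LL (v.pos.R ∪ v.neg.R)) := by
    by_cases hinfH : Infinite (G ⧸ H)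
    · refine allDer_LL (K := H) 𝒱 (fun _ => rfl) (VV1_fin x w) hNH _ ?_ hS hinfH hN hNinf htf
        fun E y hbot => ?_
      · rintro c (⟨k, rfl⟩ | ⟨k, rfl⟩)
        · change pu H ((v.h k : G) : G ⧸ N) = _
          rw [pu_mk hNH, eq_comm, QuotientGroup.eq, inv_one, one_mul]
          exact hvH _
        · change pu H ((v.h (-(k : ℤ)) : G) : G ⧸ N) = _
          rw [pu_mk hNH, eq_comm, QuotientGroup.eq, inv_one, one_mul]
          exact hvH _
      · have hz : BY S H E y = Subgroup.zpowers 1 := by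
          rw [Subgroup.zpowers_one_eq_bot, eq_bot_iff]
          intro b hb
          obtain ⟨k, hk, hkN⟩ := htor b (BY_le y hb)
          have h1 : b ^ k ∈ BY S H E y ⊓ N := ⟨Subgroup.pow_mem _ hb k, hkN⟩
          rw [hbot, Subgroup.mem_bot] at h1
          rw [Subgroup.mem_bot]
          refine htf b k (by exact_mod_cast hk.ne') ?_
          rw [zpow_natCast]
          exact h1
        rw [hz]
        exact allDer_cyc h hG htf 1
    · rw [not_infinite_iff_finite] at hinfH
      refine allDer_LL_fin (K := H) 𝒱 (fun _ => rfl) (VV1_fin x w) hHN hinfH _ hxG _ ?_ hN hNinf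
      intro T
      obtain ⟨z, -, hz⟩ := hv T
      refine ⟨(z : G ⧸ N), fun g hg hcon => ?_⟩
      rcases hcon with ⟨k, hk⟩ | ⟨k, hk⟩
      · exact hz g hg k hk.symm
      · exact hz g hg (-(k : ℤ)) hk.symm
  rw [← 𝒱.LL_sup] at hM
  have hI := glue h (𝒱.LL v.pos.R) (𝒱.LL v.neg.R) hP hQ hM
  have hposne : v.pos.R.Nonempty := ⟨_, 0, rfl⟩
  have hnegne : v.neg.R.Nonempty := ⟨_, 0, rfl⟩
  have hfin : ∀ g : G, {c | c ∈ v.pos.R ∧ g • c ∈ v.neg.R}.Finite := by
    intro g
    obtain ⟨J, hJ⟩ := v.hj g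
    refine ((Finset.finite_toSet (Finset.range (J + 1))).image
      fun k : ℕ => (v.h k : G ⧸ N)).subset ?_
    rintro _ ⟨⟨k, rfl⟩, ⟨l, hl⟩⟩
    refine ⟨k, ?_, rfl⟩
    have h1 := hJ k (-(l : ℤ)) hl.symm
    rw [Finset.mem_coe, Finset.mem_range]
    omega
  rw [𝒱.LL_inf _ _ hposne hnegne hfin] at hI
  refine contra x w hcl hI hN ?_ ?_
  · intro z k hk hz
    apply Subtype.ext
    exact htf z k hk (congrArg Subtype.val hz)
  · obtain ⟨z, hz⟩ := exists_ne (1 : N)
    exact ⟨z, hz⟩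

end

end Pool.Agent.J4H59.PE
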