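import Pool.Agent.J4H59.PE.Comp

/-!
# Derivations with values in the functions supported over finitely many cosets
-/

set_option autoImplicit false
set_option linter.unusedSectionVars false

open scoped Classical

namespace Pool.Agent.J4H59.PE

open Pool.Agent.Helper386.PD3 Pool.Agent.J4H59.PD

noncomputable section

variable {G : Type} [Group G]

/-- the product of a set and a group, with the left multiplication -/
def OmI (I G : Type) : Type := I × G

/-- elements of the product -/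
def omk {I : Type} (i : I) (g : G) : OmI I G := (i, g)

instance (I : Type) : MulAction G (OmI I G) where
  smul g x := omk x.1 (g * x.2)
  one_smul x := by
    change omk x.1 (1 * x.2) = x
    rw [one_mul]
    rfl
  mul_smul g h x := by
    change omk x.1 (g * h * x.2) = omk x.1 (g * (h * x.2))
    rw [mul_assoc]

theorem omI_smul {I : Type} (g : G) (i : I) (x : G) : g • omk i x = omk i (g * x) := rfl

variable {N K : Subgroup G} {t : G} {I : Type}

theorem cell_finite (𝒱 : Vs N (OmI I G)) (hp : ∀ x : OmI I G, 𝒱.p x = (x.2 : G ⧸ N))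
    (hfin : ∀ f ∈ 𝒱.V, ∀ i, {g : G | f (omk i g) ≠ 0}.Finite) (v : Lv N N t (G ⧸ K))
    {f : FO (OmI I G)} (hf : f ∈ 𝒱.MM v) (i : I) (y : G) :
    {n : N | f (omk i (y * n)) ≠ 0}.Finite := by
  have h1 := hfin _ (hf.2 (y : G ⧸ N)) i
  refine Set.Finite.of_finite_image (f := fun n : N => y * (n : G)) (h1.subset ?_) ?_
  · rintro _ ⟨n, hn, rfl⟩
    have hn : f (omk i (y * n)) ≠ 0 := hn
    change cuto {x | 𝒱.p x = (y : G ⧸ N)} f (omk i (y * n)) ≠ 0
    rw [cuto_of_mem]
    · exact hn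
    · change 𝒱.p (omk i (y * n)) = _
      rw [hp]
      exact mk_mulK y n.2
  · intro n _ n' _ h
    exact Subtype.ext (mul_left_cancel h)

/-- The main cohomological vanishing result. -/
theorem allDer_MM (𝒱 : Vs N (OmI I G)) (hp : ∀ x : OmI I G, 𝒱.p x = (x.2 : G ⧸ N))
    (hfin : ∀ f ∈ 𝒱.V, ∀ i, {g : G | f (omk i g) ≠ 0}.Finite) (v : Lv N N t (G ⧸ K)) (hNK : N ≤ K)
    (hπ : ∀ g : G, v.π (g : G ⧸ N) = (g : G ⧸ K)) {S : Finset G}
    (hS : Subgroup.closure (S : Set G) = ⊤) (hinf : Infinite (G ⧸ K))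
    (hN : AllDer (G := N) (RR N)) (hNinf : Infinite N)
    (htf : ∀ (x : G) (k : ℤ), k ≠ 0 → x ^ k = 1 → x = 1)
    (hB : ∀ (E : Set (G ⧸ K)) (y : G), BY S K E y ⊓ N = ⊥ →
      AllDer (G := G) (famF (BY S K E y)).sub) :
    AllDer (G := G) (𝒱.MM v) := by
  intro δ hδ
  let φ : I → G → ℤ := fun i x => -(δ x : FO (OmI I G)) (omk i x)
  have hφ : ∀ (g : G) i x, φ i (g⁻¹ * x) - φ i x = (δ g : FO (OmI I G)) (omk i x) := by
    intro g i x
    have h1 := congrArg (fun m : 𝒱.MM v => (m : FO (OmI I G)) (omk i x)) (hδ g (g⁻¹ * x))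
    have h2 : (δ (g * (g⁻¹ * x)) : FO (OmI I G)) (omk i x) =
      (δ g : FO (OmI I G)) (omk i x) + (gof g • (δ (g⁻¹ * x) : FO (OmI I G))) (omk i x) := h1
    rw [mul_inv_cancel_left, gofo_apply, omI_smul] at h2
    change -(δ (g⁻¹ * x) : FO (OmI I G)) (omk i (g⁻¹ * x)) -
      -(δ x : FO (OmI I G)) (omk i x) = _
    rw [h2]
    ring
  let E : Set (G ⧸ K) := (⋃ s ∈ S, v.π '' (𝒱.p '' spo (δ s : FO (OmI I G)))) ∪
    {((1 : G) : G ⧸ K)}
  have hE : E.Finite := by
    refine Set.Finite.union ?_ (Set.finite_singleton _)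
    exact Set.Finite.biUnion S.finite_toSet fun s _ => (δ s).2.1
  have hEq : ∀ a b : G, EqG S K E a b → ∀ i, φ i a = φ i b := by
    intro a b hab i
    induction hab with
    | rel a b h =>
      obtain ⟨s, hs, rfl, h1, h2⟩ := h
      have h3 := hφ s i (s * a)
      rw [inv_mul_cancel_left] at h3
      have h4 : (δ s : FO (OmI I G)) (omk i (s * a)) = 0 := by
        by_contra hcon
        apply h2
        refine Or.inl (Set.mem_iUnion₂.2 ⟨s, hs, ⟨_, ⟨omk i (s * a), hcon, rfl⟩, ?_⟩⟩)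
        rw [hp]
        exact hπ _
      rw [h4] at h3
      linarith
    | refl a => rfl
    | symm a b _ ih => exact ih.symm
    | trans a b c _ _ ih ih' => exact ih.trans ih'
  have hcf : ∀ (g : G) i y, {n : N | (δ g : FO (OmI I G)) (omk i (y * n)) ≠ 0}.Finite :=
    fun g i y => cell_finite 𝒱 hp hfin v (δ g).2 i y
  have hex : ∀ i y, ∃ c : ℤ, {n : N | φ i (y * n) ≠ c}.Finite := by
    intro i y
    refine almost_const hN (fun n : N => φ i (y * n)) fun n' => ?_
    refine (hcf (y * n' * y⁻¹) i y).subset ?_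
    intro n hn h0
    apply hn
    have h1 := hφ (y * n' * y⁻¹) i (y * n)
    rw [h0] at h1
    have h2 : (y * (n' : G) * y⁻¹)⁻¹ * (y * n) = y * ((n'⁻¹ * n : N) : G) := by
      rw [Subgroup.coe_mul, Subgroup.coe_inv]
      group
    rw [h2] at h1
    change φ i (y * ((n'⁻¹ * n : N) : G)) = φ i (y * n)
    linarith
  choose c hc using hex
  let E' : Set (G ⧸ K) := E ∪ {c | c ∉ E ∧ {c' | EqX S K E c' c}.Finite}
  have hE' : E'.Finite := hE.union (fin_comps hS hE hinf)
  have hout : ∀ y : G, (y : G ⧸ K) ∉ E' → ∀ i, φ i y = c i y := by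
    intro y hy i
    rw [Set.mem_union, not_or] at hy
    obtain ⟨hy1, hy2⟩ := hy
    have hne : BY S K E y ⊓ N ≠ ⊥ := by
      intro hbot
      have hK : (BY S K E y).relIndex K = 0 := by
        by_contra hcon
        have h1 : (BY S K E y).relIndex N ≠ 0 :=
          mt (Subgroup.relIndex_eq_zero_of_le_right hNK) hcon
        rw [← Subgroup.inf_relIndex_right, hbot, Subgroup.relIndex_bot_left] at h1
        exact h1 (Nat.card_eq_zero_of_infinite)
      exact hy2 ⟨hy1, comp_finite hS hE ⟨_, Or.inr rfl⟩ y hy1 (hB E y hbot) hK⟩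
    obtain ⟨⟨b, hb⟩, hb1⟩ := (Subgroup.ne_bot_iff_exists_ne_one.1 hne)
    have hb1 : b ≠ 1 := fun h => hb1 (Subtype.ext h)
    have hord : ∀ k : ℤ, k ≠ 0 → b ^ k ≠ 1 := fun k hk h1 => hb1 (htf b k hk h1)
    have hinj : Function.Injective fun k : ℤ => (⟨b, hb.2⟩ : N) ^ k := by
      intro k l hkl
      have h1 : b ^ k = b ^ l := congrArg Subtype.val hkl
      exact infinite_order hord 1 (by simpa using h1)
    obtain ⟨_, ⟨k, rfl⟩, hk⟩ := (Set.infinite_range_of_injective hinj).exists_notMem_finite (hc i y)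
    have hk : φ i (y * (((⟨b, hb.2⟩ : N) ^ k : N) : G)) = c i y := not_not.1 hk
    rw [← hk]
    refine (hEq _ _ ?_ i).symm
    exact ((BY S K E y).zpow_mem hb.1 k).2
  let m : FO (OmI I G) := fun x => φ x.1 x.2 - c x.1 x.2
  have hm0 : ∀ x : OmI I G, (x.2 : G ⧸ K) ∉ E' → m x = 0 := by
    intro x hx
    change φ x.1 x.2 - c x.1 x.2 = 0
    rw [hout x.2 hx, sub_self]
  have hm : ∀ (g : G) (x : OmI I G), m (g⁻¹ • x) - m x = (δ g : FO (OmI I G)) x := by
    rintro g ⟨i, x⟩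
    have h1 := hcf g i x
    have h2 := hc i x
    have h3 := hc i (g⁻¹ * x)
    obtain ⟨n, hn⟩ := ((h1.union h2).union h3).exists_notMem
    rw [Set.mem_union, Set.mem_union, not_or, not_or] at hn
    have h4 : (δ g : FO (OmI I G)) (omk i (x * n)) = 0 := not_not.1 hn.1.1
    have h5 : φ i (x * n) = c i x := not_not.1 hn.1.2
    have h6 : φ i (g⁻¹ * x * n) = c i (g⁻¹ * x) := not_not.1 hn.2
    have h7 := hφ g i (x * n)
    rw [h4, ← mul_assoc, h5, h6] at h7
    have h8 := hφ g i x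
    change (φ i (g⁻¹ * x) - c i (g⁻¹ * x)) - (φ i x - c i x) = (δ g : FO (OmI I G)) (omk i x)
    rw [← h8]
    linarith
  have hmM : m ∈ 𝒱.MM v := by
    refine ⟨hE'.subset ?_, fun y => ?_⟩
    · rintro _ ⟨_, ⟨x, hx, rfl⟩, rfl⟩
      by_contra hcon
      rw [hp, hπ] at hcon
      exact hx (hm0 x hcon)
    · obtain ⟨a, rfl⟩ := QuotientGroup.mk_surjective y
      obtain ⟨c', hc'⟩ := hE'.exists_notMem
      obtain ⟨b, rfl⟩ := QuotientGroup.mk_surjective c'
      have h1 : cuto {x | 𝒱.p x = (a : G ⧸ N)} m =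
          -cuto {x | 𝒱.p x = (a : G ⧸ N)} (δ (a * b⁻¹) : FO (OmI I G)) := by
        refine fo_ext fun x => ?_
        rw [foneg_apply]
        by_cases hx : 𝒱.p x = (a : G ⧸ N)
        · have h3 : m ((a * b⁻¹)⁻¹ • x) = 0 := by
            apply hm0
            rw [hp, eq_comm, QuotientGroup.eq] at hx
            change (((a * b⁻¹)⁻¹ * x.2 : G) : G ⧸ K) ∉ E'
            have h2 : (a * b⁻¹)⁻¹ * x.2 = b * (a⁻¹ * x.2) := by group
            rw [h2, mk_mulK b (hNK hx)]
            exact hc'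
          rw [cuto_of_mem (s := {x | 𝒱.p x = (a : G ⧸ N)}) m hx,
            cuto_of_mem (s := {x | 𝒱.p x = (a : G ⧸ N)}) _ hx, ← hm (a * b⁻¹) x, h3]
          ring
        · rw [cuto_of_notMem (s := {x | 𝒱.p x = (a : G ⧸ N)}) m hx,
            cuto_of_notMem (s := {x | 𝒱.p x = (a : G ⧸ N)}) _ hx, neg_zero]
      rw [h1]
      exact neg_mem ((δ (a * b⁻¹)).2.2 _)
  refine ⟨⟨m, hmM⟩, fun g => ?_⟩
  apply Subtype.ext
  refine fo_ext fun x => ?_
  rw [← hm g x]
  change _ = (gof g • m) x - m x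
  rw [gofo_apply]

end

end Pool.Agent.J4H59.PE
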