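import Pool.Agent.J4H59.PE.Om

/-!
# Derivations with values in the group ring
-/

set_option autoImplicit false
set_option linter.unusedSectionVars false

open scoped Classical

namespace Pool.Agent.J4H59.PE

open Pool.Agent.Helper386.PD3 Pool.Agent.J4H59.PD

noncomputable section

variable {G : Type} [Group G]

theorem leftRegular_ρ (g : G) (x : RR G) : (Rep.leftRegular ℤ G).ρ g x = gof g * x := by
  induction x using rr_ind with
  | h1 h =>
    rw [← gof_mul]
    change (Representation.ofMulAction ℤ G G) g (MonoidAlgebra.single h 1) = _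
    rw [Representation.ofMulAction_single]
    rfl
  | h2 a b ha hb => rw [map_add, ha, hb, mul_add]
  | h3 a ha => rw [map_neg, ha, mul_neg]

theorem allDer_RR (h : Subsingleton (groupCohomology (Rep.leftRegular ℤ G) 1)) :
    AllDer (G := G) (RR G) := by
  intro δ hδ
  have h1 : δ ∈ groupCohomology.cocycles₁ (Rep.leftRegular ℤ G) := by
    rw [groupCohomology.mem_cocycles₁_iff]
    intro g k
    rw [leftRegular_ρ, hδ, add_comm]
    rfl
  have h2 : groupCohomology.H1π (Rep.leftRegular ℤ G) ⟨δ, h1⟩ = 0 := h.elim _ _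
  rw [groupCohomology.H1π_eq_zero_iff] at h2
  obtain ⟨μ, hμ⟩ := h2
  refine ⟨μ, fun g => ?_⟩
  have h3 := congrFun hμ g
  have h4 : δ g = (Rep.leftRegular ℤ G).ρ g μ - μ := h3.symm
  rw [h4, leftRegular_ρ]
  rfl

end

end Pool.Agent.J4H59.PE
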