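import Pool.Agent.J4H59.PD.PartC
import Pool.Agent.J4H59.PE.H1

/-!
# Derivations with values in the functions on the cosets of a cyclic subgroup
-/

set_option autoImplicit false
set_option linter.unusedSectionVars false

open scoped Classical Matrix

namespace Pool.Agent.J4H59.PE

open Pool.Agent.Helper386.PD3 Pool.Agent.J4H59.PD

noncomputable section

variable {G : Type} [Group G]

theorem coeff_gof_mul (g : G) (x : RR G) (h : G) : (gof g * x).coeff h = x.coeff (g⁻¹ * h) := by
  have h1 := MonoidAlgebra.coeff_single_mul_eq_mul_coeff (R := ℤ) (m := g) (r := 1) (m₁ := h)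
    (x := x) (g⁻¹ * h) (by
      intro a _
      rw [eq_inv_mul_iff_mul_eq])
  rw [one_mul] at h1
  exact h1

theorem coeff_mul_gof (g : G) (x : RR G) (h : G) : (x * gof g).coeff h = x.coeff (h * g⁻¹) := by
  have h1 := MonoidAlgebra.coeff_mul_single_eq_coeff_mul (R := ℤ) (m := g) (r := 1) (m₁ := h)
    (x := x) (h * g⁻¹) (by
      intro a _
      rw [eq_mul_inv_iff_mul_eq])
  rw [mul_one] at h1
  exact h1

/-- the element of the group ring with given coefficients -/
def toRR (f : G → ℤ) (hf : {x | f x ≠ 0}.Finite) : RR G :=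
  MonoidAlgebra.ofCoeff (Finsupp.ofSupportFinite f hf)

theorem toRR_coeff (f : G → ℤ) (hf : {x | f x ≠ 0}.Finite) (x : G) : (toRR f hf).coeff x = f x :=
  rfl

theorem rr_ext {x y : RR G} (h : ∀ g, x.coeff g = y.coeff g) : x = y :=
  MonoidAlgebra.coeff_injective (Finsupp.ext h)

theorem rr_add_coeff (x y : RR G) (g : G) : (x + y).coeff g = x.coeff g + y.coeff g := rfl
theorem rr_sub_coeff (x y : RR G) (g : G) : (x - y).coeff g = x.coeff g - y.coeff g := by
  rw [sub_eq_add_neg, rr_add_coeff]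
  rfl

theorem rr_supp_finite (x : RR G) : {g | x.coeff g ≠ 0}.Finite := x.coeff.hasFiniteSupport

/-- groups with one end: almost invariant functions are almost constant -/
theorem almost_const (h : AllDer (G := G) (RR G)) (f : G → ℤ)
    (hf : ∀ g, {x | f (g⁻¹ * x) ≠ f x}.Finite) : ∃ c : ℤ, {x | f x ≠ c}.Finite := by
  have hf' : ∀ g, {x | f (g⁻¹ * x) - f x ≠ 0}.Finite := by
    intro g
    refine (hf g).subset ?_
    intro x hx hx'
    exact hx (by rw [hx', sub_self])
  obtain ⟨μ, hμ⟩ := h (fun g => toRR (fun x => f (g⁻¹ * x) - f x) (hf' g)) (by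
    intro g k
    refine rr_ext fun x => ?_
    rw [rr_add_coeff, smul_eq_mul, coeff_gof_mul, toRR_coeff, toRR_coeff, toRR_coeff, mul_inv_rev,
      mul_assoc]
    ring)
  have h1 : ∀ g x, f (g⁻¹ * x) - f x = μ.coeff (g⁻¹ * x) - μ.coeff x := by
    intro g x
    have h2 := congrArg (fun r : RR G => r.coeff x) (hμ g)
    simp only [rr_sub_coeff, smul_eq_mul, coeff_gof_mul, toRR_coeff] at h2
    exact h2
  refine ⟨f 1 - μ.coeff 1, (rr_supp_finite μ).subset ?_⟩
  intro x hx hx'
  apply hx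
  have h3 := h1 x x
  rw [inv_mul_cancel] at h3
  have hx' : μ.coeff x = 0 := hx'
  rw [hx'] at h3
  linarith

theorem infinite_order {z : G} (hz : ∀ k : ℤ, k ≠ 0 → z ^ k ≠ 1) (x : G) :
    Function.Injective fun k : ℤ => x * z ^ k := by
  intro k l hkl
  by_contra hne
  have h1 : z ^ k = z ^ l := mul_left_cancel hkl
  refine hz (k - l) (sub_ne_zero.2 hne) ?_
  rw [zpow_sub, h1, mul_inv_cancel]

theorem nzd_right {z : G} (hz : ∀ k : ℤ, k ≠ 0 → z ^ k ≠ 1) {r : RR G}
    (h : r * (gof z - 1) = 0) : r = 0 := by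
  have h1 : ∀ x, r.coeff (x * z⁻¹) = r.coeff x := by
    intro x
    have h2 : (r * (gof z - 1)).coeff x = 0 := by rw [h]; rfl
    rw [mul_sub, mul_one, rr_sub_coeff, coeff_mul_gof] at h2
    linarith
  have h1' : ∀ x, r.coeff (x * z) = r.coeff x := by
    intro x
    have := h1 (x * z)
    rw [mul_inv_cancel_right] at this
    exact this.symm
  have h2 : ∀ (k : ℕ) x, r.coeff (x * z ^ (k : ℤ)) = r.coeff x := by
    intro k
    induction k with
    | zero => intro x; simp
    | succ k ih =>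
      intro x
      rw [Nat.cast_succ, zpow_add, zpow_one, ← mul_assoc, h1', ih]
  refine rr_ext fun x => ?_
  by_contra hcon
  have hcon : r.coeff x ≠ 0 := hcon
  have h3 : (Set.range fun k : ℕ => x * z ^ (k : ℤ)).Infinite := by
    refine Set.infinite_range_of_injective fun k l hkl => ?_
    have := infinite_order hz x hkl
    exact_mod_cast this
  refine h3 ((rr_supp_finite r).subset ?_)
  rintro _ ⟨k, rfl⟩
  change r.coeff (x * z ^ (k : ℤ)) ≠ 0
  rw [h2]
  exact hcon

theorem nzd_left {z : G} (hz : ∀ k : ℤ, k ≠ 0 → z ^ k ≠ 1) {r : RR G}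
    (h : (gof z - 1) * r = 0) : r = 0 := by
  have h1 : (dg 1 r) * (gof z⁻¹ - 1) = 0 := by
    have h2 : dg 1 ((gof z - 1) * r) = 0 := by rw [h, dg_zero]
    rw [dg_mul, dg_sub, dg_of, dg_one, MonoidHom.one_apply, Units.val_one, one_smul] at h2
    exact h2
  have h3 : dg 1 r = 0 := by
    refine nzd_right (z := z⁻¹) (fun k hk h4 => hz k hk ?_) h1
    rw [inv_zpow, inv_eq_one] at h4
    exact h4
  rw [← dg_dg 1 r, h3, dg_zero]

section lift

variable {n : ℕ} {w : G →* ℤˣ}

/-- derivations with values in a quotient -/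
theorem lift_allDer {e0 e1 e2 e3 d0 d1 d2 : MR G n} (h : Full w e0 e1 e2 e3 d0 d1 d2)
    {M' M'' : Type} [AddCommGroup M'] [Module (RR G) M'] [AddCommGroup M''] [Module (RR G) M'']
    (q : M' →ₗ[RR G] M'') (hq : Function.Surjective q) (hM' : AllDer (G := G) M')
    (hker : ∀ ψ : Fin n → M', (∀ i, q (ψ i) = 0) → col e2 ψ = ψ → col d2 ψ = 0 →
      ∃ θ : Fin n → M', (∀ i, q (θ i) = 0) ∧ col d1 θ = ψ) : AllDer (G := G) M'' := by
  intro δ hδ
  have hqc : ∀ (D : MR G n) (φ : Fin n → M') i, q (col D φ i) = col D (fun j => q (φ j)) i := by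
    intro D φ i
    change q (∑ j, D i j • φ j) = ∑ j, D i j • q (φ j)
    rw [map_sum]
    exact Finset.sum_congr rfl fun j _ => map_smul q _ _
  have hdd : d2 * d1 = 0 := by
    have h1 := h.colow.dd
    rw [← dgM_mul, ← dgM_zero w] at h1
    exact dgM_inj w h1
  have he2 : e2 * d1 = d1 := h.low.e2d1
  obtain ⟨φ, hφ1, hφ2, hφ3⟩ := exists_column h.low δ hδ
  choose φ' hφ' using fun i => hq (φ i)
  have hφ'' : (fun i => q (φ' i)) = φ := funext hφ'
  obtain ⟨θ, hθ1, hθ2⟩ := hker (col d1 φ') (by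
      intro i
      rw [hqc, hφ'', hφ2]
      rfl) (by rw [← col_mul, he2]) (by rw [← col_mul, hdd, col_zero])
  obtain ⟨η, hη⟩ := exact_of_allDer h.low hM' (col e1 (φ' - θ)) (by rw [← col_mul, h.low.ee1])
    (by rw [← col_mul, h.low.d1e1, col_sub, hθ2, sub_self])
  refine hφ3 ⟨fun i => q (η i), ?_⟩
  funext i
  rw [← hqc, hη, hqc]
  have h1 : (fun j => q ((φ' - θ) j)) = φ := by
    funext j
    rw [Pi.sub_apply, map_sub, hθ1, sub_zero, hφ']
  rw [h1, hφ1]

theorem exact2_RR {e0 e1 e2 e3 d0 d1 d2 : MR G n} (h : Full w e0 e1 e2 e3 d0 d1 d2)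
    (ψ : Fin n → RR G) (h1 : col e2 ψ = ψ) (h2 : col d2 ψ = 0) : ∃ θ, col d1 θ = ψ := by
  have hv : ∀ (D : MR G n) (φ : Fin n → RR G),
      (fun i => dg w (φ i)) ᵥ* dgM w D = fun j => dg w (col D φ j) := by
    intro D φ
    funext j
    change ∑ i, dg w (φ i) * dg w (D j i) = dg w (∑ i, D j i • φ i)
    rw [dg_sum]
    exact Finset.sum_congr rfl fun i _ => by rw [smul_eq_mul, dg_mul]
  obtain ⟨u, hu⟩ := h.colow.ex1 (fun i => dg w (ψ i)) (by rw [hv, h1]) (by
    rw [hv, h2]
    funext j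
    exact dg_zero w)
  refine ⟨fun i => dg w (u i), ?_⟩
  have h3 : u = fun i => dg w (dg w (u i)) := funext fun i => (dg_dg w _).symm
  rw [h3, hv] at hu
  funext j
  have h4 := congrArg (dg w) (congrFun hu j)
  simp only [dg_dg] at h4
  exact h4

end lift

section cyc

variable (A : Subgroup G)

/-- the indicator of the base coset -/
def ind0 : Fn A := fun y => if y = ((1 : G) : G ⧸ A) then 1 else 0

theorem gof_ind0 (g : G) (y : G ⧸ A) :
    (gof g • ind0 A) y = if y = (g : G ⧸ A) then 1 else 0 := by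
  rw [gof_apply]
  change (if g⁻¹ • y = ((1 : G) : G ⧸ A) then (1 : ℤ) else 0) = _
  have h1 : g⁻¹ • y = ((1 : G) : G ⧸ A) ↔ y = (g : G ⧸ A) := by
    rw [inv_smul_eq_iff]
    have h2 : g • ((1 : G) : G ⧸ A) = (g : G ⧸ A) := by
      change ((g * 1 : G) : G ⧸ A) = _
      rw [mul_one]
    rw [h2]
  exact if_congr h1 rfl rfl

theorem ind0_mem : ind0 A ∈ (famF A).sub := by
  refine (Set.finite_singleton ((1 : G) : G ⧸ A)).subset ?_
  intro y hy
  by_contra hcon
  exact hy (if_neg hcon)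

/-- the surjection from the group ring -/
def qq : RR G →ₗ[RR G] (famF A).sub :=
  LinearMap.toSpanSingleton (RR G) (famF A).sub ⟨ind0 A, ind0_mem A⟩

theorem qq_coe (r : RR G) : ((qq A r : (famF A).sub) : Fn A) = r • ind0 A := rfl

theorem zsmul_fn (z : ℤ) (f : Fn A) (y : G ⧸ A) : (z • f) y = z * f y := rfl

/-- the section -/
def sec (m : (famF A).sub) : RR G := ∑ᶠ y, (m : Fn A) y • gof (rp y)

theorem sec_fin (m : (famF A).sub) :
    (Function.support fun y => (m : Fn A) y • (gof (rp y) : RR G)).Finite := by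
  refine (show (supp (m : Fn A)).Finite from m.2).subset ?_
  intro y hy h
  apply hy
  change (m : Fn A) y • _ = 0
  rw [h, zero_smul]

theorem sec_add (m m' : (famF A).sub) : sec A (m + m') = sec A m + sec A m' := by
  unfold sec
  rw [← finsum_add_distrib (sec_fin A m) (sec_fin A m')]
  exact finsum_congr fun y => by rw [Submodule.coe_add, PD.add_apply, add_smul]

/-- the section, as a homomorphism -/
def secH : (famF A).sub →+ RR G := AddMonoidHom.mk' (sec A) (sec_add A)

theorem sec_qq_gof (g : G) : secH A (qq A (gof g)) = gof (rp (g : G ⧸ A)) := by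
  change ∑ᶠ y, (gof g • ind0 A) y • gof (rp y) = _
  rw [finsum_eq_single _ (g : G ⧸ A)]
  · rw [gof_ind0, if_pos rfl, one_smul]
  · intro y hy
    rw [gof_ind0, if_neg hy, zero_smul]

theorem qq_sec (m : (famF A).sub) : qq A (secH A m) = m := by
  apply Subtype.ext
  refine fn_ext fun x => ?_
  rw [qq_coe]
  change ((∑ᶠ y, (m : Fn A) y • (gof (rp y) : RR G)) • ind0 A) x = _
  rw [finsum_eq_sum _ (sec_fin A m), Finset.sum_smul]
  have hs : ∀ (T : Finset (G ⧸ A)) (F : G ⧸ A → Fn A),
      (∑ y ∈ T, F y) x = ∑ y ∈ T, F y x := by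
    intro T F
    induction T using Finset.induction_on with
    | empty => rfl
    | insert a T ha ih => rw [Finset.sum_insert ha, Finset.sum_insert ha, PD.add_apply, ih]
  rw [hs]
  have h1 : ∀ y, (((m : Fn A) y • (gof (rp y) : RR G)) • ind0 A) x =
      if x = y then (m : Fn A) y else 0 := by
    intro y
    rw [smul_assoc, zsmul_fn, gof_ind0, mk_rp, mul_ite, mul_one, mul_zero]
  rw [Finset.sum_congr rfl fun y _ => h1 y, Finset.sum_ite_eq]
  split_ifs with h2
  · rfl
  · by_contra hcon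
    apply h2
    rw [Set.Finite.mem_toFinset]
    intro h3
    apply hcon
    have h4 : (m : Fn A) x • (gof (rp x) : RR G) = 0 := h3
    have h5 := congrArg (fun r : RR G => r.coeff (rp x)) h4
    have h6 : ((m : Fn A) x • (gof (rp x) : RR G)).coeff (rp x) = (m : Fn A) x := by
      rw [MonoidAlgebra.coeff_smul_apply]
      have h7 : (gof (rp x) : RR G).coeff (rp x) = 1 := by
        change (Finsupp.single (rp x) (1 : ℤ)) (rp x) = 1
        rw [Finsupp.single_eq_same]
      rw [h7, smul_eq_mul, mul_one]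
    have h7 : (m : Fn A) x = 0 := by
      rw [← h6]
      exact h5
    exact h7.symm

theorem qq_surj : Function.Surjective (qq A) := fun m => ⟨secH A m, qq_sec A m⟩

theorem zpow_ideal (z : G) (k : ℤ) : ∃ s : RR G, gof (z ^ k) - 1 = s * (gof z - 1) := by
  have hn : ∀ k : ℕ, ∃ s : RR G, gof (z ^ (k : ℤ)) - 1 = s * (gof z - 1) := by
    intro k
    induction k with
    | zero => exact ⟨0, by rw [Nat.cast_zero, zpow_zero, gof_one, sub_self, zero_mul]⟩
    | succ k ih =>
      obtain ⟨s, hs⟩ := ih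
      refine ⟨gof (z ^ (k : ℤ)) + s, ?_⟩
      rw [Nat.cast_succ, zpow_add, zpow_one, gof_mul, add_mul, ← hs, mul_sub, mul_one]
      abel
  obtain ⟨m, rfl | rfl⟩ := k.eq_nat_or_neg
  · exact hn m
  · obtain ⟨s, hs⟩ := hn m
    refine ⟨-(gof (z ^ (-(m : ℤ))) * s), ?_⟩
    rw [neg_mul, mul_assoc, ← hs, mul_sub, ← gof_mul, ← zpow_add, neg_add_cancel, zpow_zero,
      gof_one, mul_one, neg_sub]

theorem ker_qq (z : G) {r : RR G} (h : qq (Subgroup.zpowers z) r = 0) :
    ∃ s : RR G, r = s * (gof z - 1) := by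
  have hkey : ∀ r : RR G, ∃ s : RR G,
      r - secH (Subgroup.zpowers z) (qq (Subgroup.zpowers z) r) = s * (gof z - 1) := by
    intro r
    induction r using rr_ind with
    | h1 g =>
      rw [sec_qq_gof]
      have h1 : (rp (g : G ⧸ Subgroup.zpowers z))⁻¹ * g ∈ Subgroup.zpowers z := by
        rw [← QuotientGroup.eq, mk_rp]
      obtain ⟨k, hk⟩ := h1
      have hk : z ^ k = (rp (g : G ⧸ Subgroup.zpowers z))⁻¹ * g := hk
      obtain ⟨s, hs⟩ := zpow_ideal z k
      refine ⟨gof (rp (g : G ⧸ Subgroup.zpowers z)) * s, ?_⟩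
      rw [mul_assoc, ← hs, hk, mul_sub, ← gof_mul, mul_inv_cancel_left, mul_one]
    | h2 a b ha hb =>
      obtain ⟨s, hs⟩ := ha
      obtain ⟨s', hs'⟩ := hb
      refine ⟨s + s', ?_⟩
      rw [add_mul, ← hs, ← hs', map_add, map_add]
      abel
    | h3 a ha =>
      obtain ⟨s, hs⟩ := ha
      refine ⟨-s, ?_⟩
      rw [neg_mul, ← hs, map_neg, map_neg]
      abel
  obtain ⟨s, hs⟩ := hkey r
  rw [h, map_zero, sub_zero] at hs
  exact ⟨s, hs⟩

variable {n : ℕ} {w : G →* ℤˣ}

/-- Derivations with values in the finitely supported functions on the cosets of a cyclic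
subgroup. -/
theorem allDer_cyc {e0 e1 e2 e3 d0 d1 d2 : MR G n} (h : Full w e0 e1 e2 e3 d0 d1 d2)
    (hG : AllDer (G := G) (RR G)) (htf : ∀ (x : G) (k : ℤ), k ≠ 0 → x ^ k = 1 → x = 1) (z : G) :
    AllDer (G := G) (famF (Subgroup.zpowers z)).sub := by
  refine lift_allDer h (qq _) (qq_surj _) hG fun ψ hψ0 hψ1 hψ2 => ?_
  by_cases hz : z = 1
  · refine ⟨0, fun i => map_zero _, ?_⟩
    rw [col_zero']
    funext i
    obtain ⟨s, hs⟩ := ker_qq z (hψ0 i)
    rw [hs, hz, gof_one, sub_self, mul_zero]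
    rfl
  · have hz' : ∀ k : ℤ, k ≠ 0 → z ^ k ≠ 1 := fun k hk h1 => hz (htf z k hk h1)
    choose s hs using fun i => ker_qq z (hψ0 i)
    have hs' : ∀ (D : MR G n) i, col D ψ i = col D s i * (gof z - 1) := by
      intro D i
      change ∑ j, D i j • ψ j = (∑ j, D i j • s j) * (gof z - 1)
      rw [Finset.sum_mul]
      exact Finset.sum_congr rfl fun j _ => by rw [hs j, smul_eq_mul, smul_eq_mul, mul_assoc]
    have h1 : col e2 s = s := by
      funext i
      rw [← sub_eq_zero]
      apply nzd_right hz'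
      rw [sub_mul, ← hs', hψ1, ← hs, sub_self]
    have h2 : col d2 s = 0 := by
      funext i
      apply nzd_right hz'
      rw [← hs', hψ2]
      rfl
    obtain ⟨θ, hθ⟩ := exact2_RR h s h1 h2
    refine ⟨fun i => θ i * (gof z - 1), fun i => ?_, ?_⟩
    · apply Subtype.ext
      rw [qq_coe, mul_smul]
      have h3 : (gof z - 1 : RR G) • ind0 (Subgroup.zpowers z) = 0 := by
        rw [sub_smul, one_smul, sub_eq_zero]
        refine fn_ext fun y => ?_
        rw [gof_ind0]
        have h4 : (z : G ⧸ Subgroup.zpowers z) = ((1 : G) : G ⧸ Subgroup.zpowers z) := by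
          rw [eq_comm, QuotientGroup.eq, inv_one, one_mul]
          exact Subgroup.mem_zpowers z
        rw [h4]
        rfl
      rw [h3, smul_zero]
      rfl
    · funext i
      change ∑ j, d1 i j • (θ j * (gof z - 1)) = ψ i
      rw [hs i, ← hθ]
      change _ = (∑ j, d1 i j • θ j) * (gof z - 1)
      rw [Finset.sum_mul]
      exact Finset.sum_congr rfl fun j _ => by rw [smul_eq_mul, smul_eq_mul, mul_assoc]

end cyc

end

end Pool.Agent.J4H59.PE
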