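import Pool.Agent.J4H59.PD.Main1
import Pool.Agent.J4H59.PE.S1

/-!
# Components of the complement of finitely many cosets
-/

set_option autoImplicit false
set_option linter.unusedSectionVars false

open scoped Classical

namespace Pool.Agent.J4H59.PE

open Pool.Agent.Helper386.PD3 Pool.Agent.J4H59.PD

noncomputable section

variable {G : Type} [Group G] (S : Finset G) (K : Subgroup G) (E : Set (G ⧸ K))

/-- steps between cosets outside of `E` -/
def StX (c c' : G ⧸ K) : Prop := ∃ s ∈ S, c' = s • c ∧ c ∉ E ∧ c' ∉ E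

/-- steps in the group outside of the preimage of `E` -/
def StG (a b : G) : Prop := ∃ s ∈ S, b = s * a ∧ (a : G ⧸ K) ∉ E ∧ (b : G ⧸ K) ∉ E

/-- being in one component, for cosets -/
def EqX : G ⧸ K → G ⧸ K → Prop := Relation.EqvGen (StX S K E)

/-- being in one component, for group elements -/
def EqG : G → G → Prop := Relation.EqvGen (StG S K E)

variable {S K E}

theorem mk_mulK (a : G) {k : G} (hk : k ∈ K) : ((a * k : G) : G ⧸ K) = (a : G ⧸ K) := by
  rw [eq_comm, QuotientGroup.eq, inv_mul_cancel_left]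
  exact hk

theorem EqG.symm {a b : G} (h : EqG S K E a b) : EqG S K E b a := Relation.EqvGen.symm _ _ h

theorem EqG.trans {a b c : G} (h : EqG S K E a b) (h' : EqG S K E b c) : EqG S K E a c :=
  Relation.EqvGen.trans _ _ _ h h'

theorem EqX.symm {a b : G ⧸ K} (h : EqX S K E a b) : EqX S K E b a :=
  Relation.EqvGen.symm _ _ h

theorem EqX.trans {a b c : G ⧸ K} (h : EqX S K E a b) (h' : EqX S K E b c) : EqX S K E a c :=
  Relation.EqvGen.trans _ _ _ h h'

theorem EqG.mul_right {a b : G} (h : EqG S K E a b) {k : G} (hk : k ∈ K) :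
    EqG S K E (a * k) (b * k) := by
  induction h with
  | rel a b h =>
    obtain ⟨s, hs, rfl, h1, h2⟩ := h
    refine Relation.EqvGen.rel _ _ ⟨s, hs, mul_assoc _ _ _, ?_, ?_⟩
    · rwa [mk_mulK a hk]
    · rwa [mk_mulK _ hk]
  | refl a => exact Relation.EqvGen.refl _
  | symm a b _ ih => exact ih.symm
  | trans a b c _ _ ih ih' => exact ih.trans ih'

theorem lift_path {c c' : G ⧸ K} (h : EqX S K E c c') :
    ∀ a : G, (a : G ⧸ K) = c → ∃ b, EqG S K E a b ∧ (b : G ⧸ K) = c' := by
  induction h with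
  | rel c c' h =>
    rintro a rfl
    obtain ⟨s, hs, rfl, h1, h2⟩ := h
    exact ⟨s * a, Relation.EqvGen.rel _ _ ⟨s, hs, rfl, h1, h2⟩, rfl⟩
  | refl c =>
    rintro a rfl
    exact ⟨a, Relation.EqvGen.refl _, rfl⟩
  | symm c c' _ ih =>
    intro a ha
    obtain ⟨a', rfl⟩ := QuotientGroup.mk_surjective c
    obtain ⟨b', hb', hb''⟩ := ih a' rfl
    have h1 : b'⁻¹ * a ∈ K := by
      rw [← QuotientGroup.eq, hb'', ha]
    refine ⟨a' * (b'⁻¹ * a), ?_, mk_mulK a' h1⟩
    have h2 := hb'.mul_right h1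
    rw [mul_inv_cancel_left] at h2
    exact h2.symm
  | trans c c' c'' _ _ ih ih' =>
    intro a ha
    obtain ⟨b, hb, hb'⟩ := ih a ha
    obtain ⟨b', hb'', hb'''⟩ := ih' b hb'
    exact ⟨b', hb.trans hb'', hb'''⟩

theorem EqG.out {a b : G} (h : EqG S K E a b) :
    a = b ∨ ((a : G ⧸ K) ∉ E ∧ (b : G ⧸ K) ∉ E) := by
  induction h with
  | rel a b h =>
    obtain ⟨s, hs, h0, h1, h2⟩ := h
    exact Or.inr ⟨h1, h2⟩
  | refl a => exact Or.inl rfl
  | symm a b _ ih =>
    rcases ih with rfl | ih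
    · exact Or.inl rfl
    · exact Or.inr ih.symm
  | trans a b c _ _ ih ih' =>
    rcases ih with rfl | ih
    · exact ih'
    · rcases ih' with rfl | ih'
      · exact Or.inr ih
      · exact Or.inr ⟨ih.1, ih'.2⟩

theorem EqG.notMem {a b : G} (h : EqG S K E a b) (hb : (b : G ⧸ K) ∉ E) : (a : G ⧸ K) ∉ E := by
  rcases h.out with rfl | h'
  · exact hb
  · exact h'.1

variable (S K E) in
/-- the stabilizer of a component -/
def BY (y : G) : Subgroup G where
  carrier := {k | k ∈ K ∧ EqG S K E (y * k) y}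
  one_mem' := ⟨K.one_mem, by rw [mul_one]; exact Relation.EqvGen.refl _⟩
  mul_mem' := by
    rintro k l ⟨hk, hk'⟩ ⟨hl, hl'⟩
    refine ⟨K.mul_mem hk hl, ?_⟩
    rw [← mul_assoc]
    exact (hk'.mul_right hl).trans hl'
  inv_mem' := by
    rintro k ⟨hk, hk'⟩
    refine ⟨K.inv_mem hk, ?_⟩
    have h1 := hk'.mul_right (K.inv_mem hk)
    rw [mul_inv_cancel_right] at h1
    exact h1.symm

theorem BY_le (y : G) : BY S K E y ≤ K := fun _ h => h.1

theorem mul_iff {y b : G} (hb : b ∈ BY S K E y) (g : G) :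
    EqG S K E (g * b) y ↔ EqG S K E g y := by
  constructor
  · intro h
    have h1 := h.mul_right (K.inv_mem hb.1)
    rw [mul_inv_cancel_right] at h1
    exact h1.trans ((BY S K E y).inv_mem hb).2
  · intro h
    exact (h.mul_right hb.1).trans hb.2

theorem fibre {y z z' : G} (hz : EqG S K E z y) (hz' : EqG S K E z' y)
    (h : (z : G ⧸ K) = (z' : G ⧸ K)) : z⁻¹ * z' ∈ BY S K E y := by
  have h1 : z⁻¹ * z' ∈ K := by rwa [← QuotientGroup.eq]
  refine ⟨h1, ?_⟩
  have h2 := hz.mul_right h1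
  rw [mul_inv_cancel_left] at h2
  exact h2.symm.trans hz'

variable (S K E) in
/-- the indicator of a component -/
def fY (y : G) : Fn (BY S K E y) := fun c => if EqG S K E (rp c) y then 1 else 0

theorem fY_mk (y g : G) : fY S K E y (g : G ⧸ BY S K E y) = if EqG S K E g y then 1 else 0 := by
  have h1 : g⁻¹ * rp (g : G ⧸ BY S K E y) ∈ BY S K E y := by
    rw [← QuotientGroup.eq, mk_rp]
  have h2 := mul_iff h1 g
  rw [mul_inv_cancel_left] at h2
  exact if_congr h2 rfl rfl

theorem Ymod_finite (y : G) {F : Set (G ⧸ K)} (hF : F.Finite) :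
    {c : G ⧸ BY S K E y | EqG S K E (rp c) y ∧ ((rp c : G) : G ⧸ K) ∈ F}.Finite := by
  refine Set.Finite.of_finite_image (f := fun c => ((rp c : G) : G ⧸ K)) (hF.subset ?_) ?_
  · rintro _ ⟨c, hc, rfl⟩
    exact hc.2
  · rintro c ⟨hc, _⟩ c' ⟨hc', _⟩ h
    have h1 := fibre hc hc' h
    rw [← QuotientGroup.eq, mk_rp, mk_rp] at h1
    exact h1

theorem all_of_gen {F : Type} [AddCommGroup F] [Module (RR G) F] (M : Submodule (RR G) F) (f : F)
    (hS : Subgroup.closure (S : Set G) = ⊤) (h : ∀ s ∈ S, gof s • f - f ∈ M) (g : G) :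
    gof g • f - f ∈ M := by
  have hg : g ∈ Subgroup.closure (S : Set G) := by rw [hS]; trivial
  induction hg using Subgroup.closure_induction with
  | mem g hg => exact h g hg
  | one =>
    rw [gof_one, one_smul, sub_self]
    exact zero_mem _
  | mul a b _ _ ha hb =>
    have h1 : gof (a * b) • f - f = (gof a • f - f) + gof a • (gof b • f - f) := by
      rw [gof_mul, mul_smul, smul_sub]
      abel
    rw [h1]
    exact add_mem ha (Submodule.smul_mem _ _ hb)
  | inv a _ ha =>
    have h1 : gof a⁻¹ • f - f = -(gof a⁻¹ • (gof a • f - f)) := by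
      rw [smul_sub, smul_smul, ← gof_mul, inv_mul_cancel, gof_one, one_smul]
      abel
    rw [h1]
    exact neg_mem (Submodule.smul_mem _ _ ha)

theorem fY_step (hE : E.Finite) (y : G) (hy : (y : G ⧸ K) ∉ E) {s : G} (hs : s ∈ S) :
    gof s • fY S K E y - fY S K E y ∈ (famF (BY S K E y)).sub := by
  have hA : {c : G ⧸ BY S K E y |
      EqG S K E (rp c) y ∧ ((rp c : G) : G ⧸ K) ∈ (fun c' => s⁻¹ • c') '' E}.Finite :=
    Ymod_finite y (hE.image _)
  have hB : {c : G ⧸ BY S K E y |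
      EqG S K E (rp c) y ∧ ((rp c : G) : G ⧸ K) ∈ (fun c' => s • c') '' E}.Finite :=
    Ymod_finite y (hE.image _)
  refine ((hA.image fun c => s • c).union hB).subset ?_
  intro c hc
  have hc : (gof s • fY S K E y) c - fY S K E y c ≠ 0 := hc
  rw [gof_apply] at hc
  have hsc : s⁻¹ • c = ((s⁻¹ * rp c : G) : G ⧸ BY S K E y) := by
    conv_lhs => rw [← mk_rp c]
    rfl
  rw [hsc, fY_mk] at hc
  change (if EqG S K E (s⁻¹ * rp c) y then (1 : ℤ) else 0) -
    (if EqG S K E (rp c) y then 1 else 0) ≠ 0 at hc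
  by_cases h1 : EqG S K E (s⁻¹ * rp c) y
  · by_cases h2 : EqG S K E (rp c) y
    · rw [if_pos h1, if_pos h2, sub_self] at hc
      exact absurd rfl hc
    · left
      refine ⟨s⁻¹ • c, ⟨?_, ?_⟩, smul_inv_smul _ _⟩
      · have h3 := fY_mk (S := S) (K := K) (E := E) y (s⁻¹ * rp c)
        rw [if_pos h1] at h3
        rw [hsc]
        by_contra hcon
        have h4 : fY S K E y ((s⁻¹ * rp c : G) : G ⧸ BY S K E y) = 0 := if_neg hcon
        rw [h4] at h3
        exact absurd h3 (by norm_num)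
      · have h5 : (((rp (s⁻¹ • c) : G)) : G ⧸ K) = s⁻¹ • ((rp c : G) : G ⧸ K) := by
          have h6 : (rp (s⁻¹ • c))⁻¹ * (s⁻¹ * rp c) ∈ BY S K E y := by
            rw [← QuotientGroup.eq, mk_rp, hsc]
          have h7 := BY_le y h6
          rw [← QuotientGroup.eq] at h7
          rw [h7]
          rfl
        rw [h5]
        refine ⟨((rp c : G) : G ⧸ K), ?_, rfl⟩
        by_contra hcon
        apply h2
        have h8 : StG S K E (s⁻¹ * rp c) (rp c) :=
          ⟨s, hs, (mul_inv_cancel_left _ _).symm, h1.notMem hy, hcon⟩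
        exact (EqG.symm (Relation.EqvGen.rel _ _ h8)).trans h1
  · by_cases h2 : EqG S K E (rp c) y
    · right
      refine ⟨h2, ⟨((s⁻¹ * rp c : G) : G ⧸ K), ?_, ?_⟩⟩
      · by_contra hcon
        apply h1
        have h8 : StG S K E (s⁻¹ * rp c) (rp c) :=
          ⟨s, hs, (mul_inv_cancel_left _ _).symm, hcon, h2.notMem hy⟩
        exact EqG.trans (Relation.EqvGen.rel _ _ h8) h2
      · change ((s * (s⁻¹ * rp c) : G) : G ⧸ K) = _
        rw [mul_inv_cancel_left]
    · rw [if_neg h1, if_neg h2, sub_self] at hc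
      exact absurd rfl hc

/-- components whose stabilizer is small are finite -/
theorem comp_finite (hS : Subgroup.closure (S : Set G) = ⊤) (hE : E.Finite) (hne : E.Nonempty)
    (y : G) (hy : (y : G ⧸ K) ∉ E) (hB : AllDer (G := G) (famF (BY S K E y)).sub)
    (hK : (BY S K E y).relIndex K = 0) : {c | EqX S K E c (y : G ⧸ K)}.Finite := by
  set B := BY S K E y with hBdef
  set f := fY S K E y with hf
  have hmem : ∀ g : G, gof g • f - f ∈ (famF B).sub :=
    all_of_gen (famF B).sub f hS fun s hs => fY_step hE y hy hs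
  obtain ⟨μ, hμ⟩ := hB (fun g => ⟨gof g • f - f, hmem g⟩) (by
    intro g h
    apply Subtype.ext
    change gof (g * h) • f - f = (gof g • f - f) + gof g • (gof h • f - f)
    rw [gof_mul, mul_smul, smul_sub]
    abel)
  have hF : ∀ (g : G) (c : G ⧸ B), f (g⁻¹ • c) - (μ : Fn B) (g⁻¹ • c) = f c - (μ : Fn B) c := by
    intro g c
    have h1 := congrArg (fun m : (famF B).sub => (m : Fn B) c) (hμ g)
    have h2 : (gof g • f) c - f c = (gof g • (μ : Fn B)) c - (μ : Fn B) c := h1
    rw [gof_apply, gof_apply] at h2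
    linarith
  have hconst : ∀ c c' : G ⧸ B, f c - (μ : Fn B) c = f c' - (μ : Fn B) c' := by
    intro c c'
    obtain ⟨a, rfl⟩ := QuotientGroup.mk_surjective c
    obtain ⟨a', rfl⟩ := QuotientGroup.mk_surjective c'
    have h1 := hF (a' * a⁻¹)⁻¹ (a : G ⧸ B)
    have h2 : (a' * a⁻¹)⁻¹⁻¹ • (a : G ⧸ B) = (a' : G ⧸ B) := by
      change ((a' * a⁻¹)⁻¹⁻¹ * a : G) = (a' : G ⧸ B)
      rw [inv_inv, inv_mul_cancel_right]
    rw [h2] at h1
    exact h1.symm
  by_cases hfin : {c : G ⧸ B | f c = 1}.Finite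
  · refine (hfin.image fun c => ((rp c : G) : G ⧸ K)).subset ?_
    intro c' hc'
    obtain ⟨b, hb, rfl⟩ := lift_path (EqX.symm hc') y rfl
    refine ⟨(b : G ⧸ B), ?_, ?_⟩
    · change f (b : G ⧸ B) = 1
      rw [hf, fY_mk, if_pos hb.symm]
    · have h6 : (rp (b : G ⧸ B))⁻¹ * b ∈ B := by
        rw [← QuotientGroup.eq, mk_rp]
      have h7 := BY_le y h6
      rw [← QuotientGroup.eq] at h7
      exact h7
  · exfalso
    have hμf : {c : G ⧸ B | (μ : Fn B) c ≠ 0}.Finite := μ.2
    obtain ⟨c, hc, hc'⟩ := Set.Infinite.exists_notMem_finite hfin hμf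
    have hc' : (μ : Fn B) c = 0 := not_not.1 hc'
    have hc : f c = 1 := hc
    obtain ⟨e, he⟩ := hne
    obtain ⟨z, rfl⟩ := QuotientGroup.mk_surjective e
    refine infinite_cosets (V := K) hK (by rw [Subgroup.relIndex_self]; exact one_ne_zero)
      (Set.Finite.subset (hμf.image fun c => z⁻¹ • c) ?_)
    rintro _ ⟨k, ⟨hk, -⟩, rfl⟩
    refine ⟨((z * k : G) : G ⧸ B), ?_, ?_⟩
    · change (μ : Fn B) ((z * k : G) : G ⧸ B) ≠ 0
      intro h0
      have h1 := hconst c ((z * k : G) : G ⧸ B)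
      rw [hc, hc', h0, hf, fY_mk, if_neg] at h1
      · norm_num at h1
      · intro h2
        apply h2.notMem hy
        rw [mk_mulK z hk]
        exact he
    · change ((z⁻¹ * (z * k) : G) : G ⧸ B) = _
      rw [inv_mul_cancel_left]

/-- there are only finitely many finite components -/
theorem fin_comps (hS : Subgroup.closure (S : Set G) = ⊤) (hE : E.Finite)
    (hinf : Infinite (G ⧸ K)) : {c | c ∉ E ∧ {c' | EqX S K E c' c}.Finite}.Finite := by
  let F : Set (G ⧸ K) := ⋃ s ∈ S, ((fun c' => s⁻¹ • c') '' E ∪ (fun c' => s • c') '' E)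
  have hF : F.Finite := by
    refine Set.Finite.biUnion S.finite_toSet fun s _ => (hE.image _).union (hE.image _)
  have hF' : {c' ∈ F | {c'' | EqX S K E c'' c'}.Finite}.Finite := hF.subset fun c hc => hc.1
  refine (hF'.biUnion fun c' hc' => hc'.2).subset ?_
  rintro c ⟨hc, hcf⟩
  by_contra hcon
  rw [Set.mem_iUnion₂] at hcon
  push Not at hcon
  -- the component of `c` does not meet `F`
  have hnF : ∀ c', EqX S K E c' c → c' ∉ F := by
    intro c' hc' hF'
    refine hcon c' ⟨hF', ?_⟩ hc'.symm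
    refine hcf.subset ?_
    intro c'' hc''
    exact EqX.trans hc'' hc'
  have hout : ∀ c', EqX S K E c' c → c' ∉ E := by
    intro c' hc' hE'
    obtain ⟨a, rfl⟩ := QuotientGroup.mk_surjective c
    obtain ⟨b, hb, rfl⟩ := lift_path hc'.symm a rfl
    exact hb.symm.notMem hc hE'
  have hcl : ∀ s ∈ S, ∀ c', EqX S K E c' c → EqX S K E (s • c') c ∧ EqX S K E (s⁻¹ • c') c := by
    intro s hs c' hc'
    have h1 := hnF c' hc'
    constructor
    · have h2 : s • c' ∉ E := by
        intro h3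
        apply h1
        refine Set.mem_iUnion₂.2 ⟨s, hs, Or.inl ⟨s • c', h3, inv_smul_smul _ _⟩⟩
      have h3 : StX S K E c' (s • c') := ⟨s, hs, rfl, hout c' hc', h2⟩
      exact EqX.trans (EqX.symm (Relation.EqvGen.rel _ _ h3)) hc'
    · have h2 : s⁻¹ • c' ∉ E := by
        intro h3
        apply h1
        refine Set.mem_iUnion₂.2 ⟨s, hs, Or.inr ⟨s⁻¹ • c', h3, smul_inv_smul _ _⟩⟩
      have h3 : StX S K E (s⁻¹ • c') c' := ⟨s, hs, (smul_inv_smul _ _).symm, h2, hout c' hc'⟩
      exact EqX.trans (Relation.EqvGen.rel _ _ h3) hc'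
  have hall : ∀ g : G, ∀ c', EqX S K E c' c → EqX S K E (g • c') c := by
    intro g
    have hg : g ∈ Subgroup.closure (S : Set G) := by rw [hS]; trivial
    induction hg using Subgroup.closure_induction'' with
    | mem g hg => exact fun c' hc' => (hcl g hg c' hc').1
    | inv_mem g hg => exact fun c' hc' => (hcl g hg c' hc').2
    | one =>
      intro c' hc'
      rwa [one_smul]
    | mul a b _ _ ha hb =>
      intro c' hc'
      rw [mul_smul]
      exact ha _ (hb _ hc')
  have huniv : {c' | EqX S K E c' c} = Set.univ := by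
    rw [Set.eq_univ_iff_forall]
    intro c'
    obtain ⟨a, rfl⟩ := QuotientGroup.mk_surjective c
    obtain ⟨a', rfl⟩ := QuotientGroup.mk_surjective c'
    have h1 := hall (a' * a⁻¹) (a : G ⧸ K) (Relation.EqvGen.refl _)
    have h2 : (a' * a⁻¹) • (a : G ⧸ K) = (a' : G ⧸ K) := by
      change ((a' * a⁻¹ * a : G) : G ⧸ K) = _
      rw [inv_mul_cancel_right]
    rw [h2] at h1
    exact h1
  rw [huniv] at hcf
  exact Set.infinite_univ hcf

end

end Pool.Agent.J4H59.PE
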