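import Pool.Agent.J4H59.PE.Asm

/-!
# Normalisers of finitely generated subgroups with one end in `PD_3`-groups: the statement
-/

set_option autoImplicit false
set_option linter.unusedSectionVars false

open scoped Classical

namespace Pool.Agent.J4H59.PE

open Pool.Agent.Helper386.PD3 Pool.Agent.J4H59.PD Pool.Agent.Helper158

noncomputable section

variable {G : Type} [Group G]

variable {P : ℕ → Type} [∀ i, AddCommGroup (P i)]
  [∀ i, Module (MonoidAlgebra ℤ G) (P i)] {d : ∀ i, P (i + 1) →ₗ[MonoidAlgebra ℤ G] P i}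
  {ε : P 0 →+ ℤ}

theorem tf_int (hR : Reso P d ε) (m : ℕ) (hm : ∀ i, m < i → Subsingleton (P i))
    [∀ i, Module.Finite (MonoidAlgebra ℤ G) (P i)]
    [∀ i, Module.Projective (MonoidAlgebra ℤ G) (P i)] :
    ∀ (x : G) (k : ℤ), k ≠ 0 → x ^ k = 1 → x = 1 := by
  have htf : ∀ (x : G) (k : ℕ), k ≠ 0 → x ^ k = 1 → x = 1 := by
    intro x k hk hx
    refine torsionfree hR m hm x ?_
    rw [orderOf_pos_iff]
    exact isOfFinOrder_iff_pow_eq_one.2 ⟨k, Nat.pos_of_ne_zero hk, hx⟩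
  intro x k hk hx
  rcases Int.natAbs_eq k with h | h
  · rw [h, zpow_natCast] at hx
    exact htf x _ (by omega) hx
  · rw [h, zpow_neg, zpow_natCast, inv_eq_one] at hx
    exact htf x _ (by omega) hx

theorem inf_of_ne_bot (htf : ∀ (x : G) (k : ℤ), k ≠ 0 → x ^ k = 1 → x = 1) {N : Subgroup G}
    (hN : N ≠ ⊥) : Infinite N := by
  obtain ⟨⟨u, huU⟩, hu'⟩ := Subgroup.ne_bot_iff_exists_ne_one.1 hN
  have hu : u ≠ 1 := fun h => hu' (Subtype.ext h)
  refine Infinite.of_injective (fun k : ℤ => (⟨u, huU⟩ : N) ^ k) ?_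
  intro k l hkl
  by_contra hne
  have h1 : u ^ k = u ^ l := congrArg Subtype.val hkl
  exact hu (htf u (k - l) (sub_ne_zero.2 hne) (by rw [zpow_sub, h1, mul_inv_cancel]))

theorem main_t (hR : Reso P d ε) (m : ℕ) (hm : ∀ i, m < i → Subsingleton (P i))
    [∀ i, Module.Finite (MonoidAlgebra ℤ G) (P i)]
    [∀ i, Module.Projective (MonoidAlgebra ℤ G) (P i)]
    (hcoh : ∀ i, i ≠ 3 → Subsingleton (groupCohomology (Rep.leftRegular ℤ G) i))
    (htop : Nonempty (groupCohomology (Rep.leftRegular ℤ G) 3 ≃+ ℤ))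
    (N : Subgroup G) (hfg : N.FG) (hN : N ≠ ⊥)
    (hone : Subsingleton (groupCohomology (Rep.leftRegular ℤ N) 1))
    (t : G) (hn : t ∈ Subgroup.normalizer (N : Set G)) (ht : ∀ k : ℤ, k ≠ 0 → t ^ k ∉ N) :
    (N ⊔ Subgroup.zpowers t).FiniteIndex := by
  obtain ⟨w, n, e0, e1, e2, e3, d0, d1, d2, hF⟩ := exists_full hR m hm hcoh htop
  have htf := tf_int hR m hm
  exact ⟨index_ne_zero_t hF (fg_of_low hF.low) (allDer_RR (hcoh 1 (by norm_num))) htf hfg
    (inf_of_ne_bot htf hN) (allDer_RR hone) hn ht⟩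

end

end Pool.Agent.J4H59.PE
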