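import Pool.Agent.J4H59.PE.Coh

/-!
# The module generated by the coordinate functions of the relation module
-/

set_option autoImplicit false
set_option linter.unusedSectionVars false

open scoped Classical

namespace Pool.Agent.J4H59.PE

open Pool.Agent.Helper386.PD3 Pool.Agent.J4H59.PD

noncomputable section

variable {G : Type} [Group G]

section jj

variable (N : Subgroup G)

/-- the inclusion of the group ring of a subgroup -/
def jj : RR N →+* RR G := liftR (A := RR G) ((MonoidAlgebra.of ℤ G).comp N.subtype)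

variable {N}

theorem jj_of (n : N) : jj N (gof n) = gof (n : G) := liftR_of _ _

theorem coeff_gof_self (g : G) : (gof g : RR G).coeff g = 1 := by
  change (Finsupp.single g (1 : ℤ)) g = _
  rw [Finsupp.single_eq_same]

theorem coeff_gof_ne {g h : G} (hgh : g ≠ h) : (gof g : RR G).coeff h = 0 := by
  change (Finsupp.single g (1 : ℤ)) h = _
  rw [Finsupp.single_apply, if_neg hgh]

theorem coeff_jj (a : RR N) (g : G) :
    (jj N a).coeff g = if h : g ∈ N then a.coeff ⟨g, h⟩ else 0 := by
  induction a using rr_ind with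
  | h1 n =>
    rw [jj_of]
    by_cases h : g ∈ N
    · rw [dif_pos h]
      by_cases hn : n = ⟨g, h⟩
      · subst hn
        rw [coeff_gof_self, coeff_gof_self]
      · rw [coeff_gof_ne hn, coeff_gof_ne]
        intro h'
        exact hn (Subtype.ext h')
    · rw [dif_neg h, coeff_gof_ne]
      rintro rfl
      exact h n.2
  | h2 a b ha hb =>
    rw [map_add, rr_add_coeff, ha, hb]
    split_ifs
    · rfl
    · rw [add_zero]
  | h3 a ha =>
    rw [map_neg]
    have h1 : ∀ (r : RR G), (-r).coeff g = -(r.coeff g) := fun _ => rfl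
    have h2 : ∀ (r : RR N) (n : N), (-r).coeff n = -(r.coeff n) := fun _ _ => rfl
    rw [h1, ha]
    split_ifs
    · rw [h2]
    · rw [neg_zero]

theorem jj_inj : Function.Injective (jj N) := by
  intro a b h
  refine rr_ext fun n => ?_
  have h1 := congrArg (fun r : RR G => r.coeff (n : G)) h
  simp only [coeff_jj, dif_pos n.2] at h1
  exact h1

theorem dg_jj (w : G →* ℤˣ) (a : RR N) : dg w (jj N a) = jj N (dg (w.comp N.subtype) a) := by
  induction a using rr_ind with
  | h1 n =>
    rw [jj_of, dg_of, dg_of, map_zsmul, jj_of]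
    rfl
  | h2 a b ha hb => rw [map_add, dg_add, dg_add, map_add, ha, hb]
  | h3 a ha => rw [map_neg, dg_neg, dg_neg, map_neg, ha]

theorem exists_jj (r : RR G) (h : ∀ g, g ∉ N → r.coeff g = 0) : ∃ a : RR N, jj N a = r := by
  refine ⟨toRR (fun n : N => r.coeff (n : G)) ?_, rr_ext fun g => ?_⟩
  · refine Set.Finite.of_finite_image (f := fun n : N => (n : G))
      ((rr_supp_finite r).subset ?_) Subtype.val_injective.injOn
    rintro _ ⟨n, hn, rfl⟩
    exact hn
  · rw [coeff_jj]
    split_ifs with hg
    · rfl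
    · exact (h g hg).symm

/-- the restriction of the coefficients to a coset -/
def rest (y : G ⧸ N) : RR G →+ RR G := AddMonoidHom.mk'
  (fun r => toRR (fun g => if (g : G ⧸ N) = y then r.coeff g else 0) (by
    refine (rr_supp_finite r).subset ?_
    intro g hg h0
    apply hg
    change (if (g : G ⧸ N) = y then r.coeff g else 0) = 0
    rw [h0, ite_self])) (by
    intro r r'
    refine rr_ext fun g => ?_
    rw [rr_add_coeff, toRR_coeff, toRR_coeff, toRR_coeff, rr_add_coeff]
    split_ifs
    · rfl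
    · rw [add_zero])

theorem rest_coeff (y : G ⧸ N) (r : RR G) (g : G) :
    (rest y r).coeff g = if (g : G ⧸ N) = y then r.coeff g else 0 := rfl

theorem rest_mul_jj (y : G ⧸ N) (r : RR G) (a : RR N) :
    rest y (r * jj N a) = rest y r * jj N a := by
  induction a using rr_ind with
  | h1 n =>
    refine rr_ext fun g => ?_
    rw [jj_of, rest_coeff, coeff_mul_gof, coeff_mul_gof, rest_coeff, mk_mulK g (N.inv_mem n.2)]
  | h2 a b ha hb => rw [map_add, mul_add, mul_add, map_add, ha, hb]
  | h3 a ha => rw [map_neg, mul_neg, mul_neg, map_neg, ha]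

theorem rest_mul_dg (w : G →* ℤˣ) (y : G ⧸ N) (r : RR G) (a : RR N) :
    rest y (r * dg w (jj N a)) = rest y r * dg w (jj N a) := by
  rw [dg_jj, rest_mul_jj]

end jj

section em

variable {I : Type}

/-- functions from families of elements of the group ring -/
def em (X : I → RR G) : FO (OmI I G) := fun p => (X p.1).coeff p.2

theorem em_add (X Y : I → RR G) : em (fun i => X i + Y i) = em X + em Y := rfl

theorem em_neg (X : I → RR G) : em (fun i => -X i) = -em X := rfl

theorem em_zero : em (fun _ : I => (0 : RR G)) = 0 := rfl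

theorem em_smul (r : RR G) (X : I → RR G) : r • em X = em (fun i => r * X i) := by
  induction r using rr_ind with
  | h1 g =>
    refine fo_ext fun p => ?_
    rw [gofo_apply]
    exact (coeff_gof_mul g (X p.1) p.2).symm
  | h2 a b ha hb =>
    rw [add_smul, ha, hb, ← em_add]
    congr 1
    funext i
    rw [add_mul]
  | h3 a ha =>
    rw [neg_smul, ha, ← em_neg]
    congr 1
    funext i
    rw [neg_mul]

theorem em_inj {X Y : I → RR G} (h : em X = em Y) : X = Y := by
  funext i
  refine rr_ext fun g => ?_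
  exact congrFun h (omk i g)

theorem em_sum {ι : Type} (T : Finset ι) (X : ι → I → RR G) :
    em (fun i => ∑ a ∈ T, X a i) = ∑ a ∈ T, em (X a) := by
  induction T using Finset.induction_on with
  | empty =>
    simp only [Finset.sum_empty]
    exact em_zero
  | insert a T ha ih =>
    rw [Finset.sum_insert ha, ← ih, ← em_add]
    congr 1
    funext i
    rw [Finset.sum_insert ha]

end em

section K1

variable {N : Subgroup G} {d : ℕ} (x : Fin d → N) (w : G →* ℤˣ)

/-- the relation module -/
def K1 : Type := {u : Fin d → RR N // ∑ b, u b * (gof (x b) - 1) = 0}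

/-- the coordinate functions -/
def vo (b : Fin d) : FO (OmI (K1 x) G) := em fun u => dg w (jj N (u.1 b))

/-- the submodule generated by the coordinate functions -/
def LL : (Fin d → RR G) →ₗ[RR G] FO (OmI (K1 x) G) where
  toFun r := ∑ b, r b • vo x w b
  map_add' r r' := by
    rw [← Finset.sum_add_distrib]
    exact Finset.sum_congr rfl fun b _ => add_smul _ _ _
  map_smul' c r := by
    rw [RingHom.id_apply, Finset.smul_sum]
    exact Finset.sum_congr rfl fun b _ => by rw [Pi.smul_apply, smul_eq_mul, mul_smul]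

theorem LL_apply (r : Fin d → RR G) : LL x w r = ∑ b, r b • vo x w b := rfl

theorem LL_em (r : Fin d → RR G) :
    LL x w r = em fun u => ∑ b, r b * dg w (jj N (u.1 b)) := by
  rw [LL_apply, em_sum]
  exact Finset.sum_congr rfl fun b _ => em_smul _ _

theorem cut_LL (y : G ⧸ N) (r : Fin d → RR G) :
    cuto {p : OmI (K1 x) G | (p.2 : G ⧸ N) = y} (LL x w r) = LL x w (fun b => rest y (r b)) := by
  rw [LL_em, LL_em]
  have h1 : ∀ u : K1 x, ∑ b, rest y (r b) * dg w (jj N (u.1 b)) =
      rest y (∑ b, r b * dg w (jj N (u.1 b))) := by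
    intro u
    rw [map_sum]
    exact Finset.sum_congr rfl fun b _ => (rest_mul_dg w y _ _).symm
  refine fo_ext fun p => ?_
  by_cases hp : (p.2 : G ⧸ N) = y
  · rw [cuto_of_mem (s := {p : OmI (K1 x) G | (p.2 : G ⧸ N) = y}) _ hp]
    change (∑ b, r b * dg w (jj N (p.1.1 b))).coeff p.2 =
      (∑ b, rest y (r b) * dg w (jj N (p.1.1 b))).coeff p.2
    rw [h1, rest_coeff, if_pos hp]
  · rw [cuto_of_notMem (s := {p : OmI (K1 x) G | (p.2 : G ⧸ N) = y}) _ hp]
    change 0 = (∑ b, rest y (r b) * dg w (jj N (p.1.1 b))).coeff p.2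
    rw [h1, rest_coeff, if_neg hp]

/-- the submodule with its cells -/
def VV1 : Vs N (OmI (K1 x) G) where
  p := fun p => (p.2 : G ⧸ N)
  V := LinearMap.range (LL x w)
  hp g p := rfl
  hcut := by
    rintro _ ⟨r, rfl⟩ y
    exact ⟨_, (cut_LL x w y r).symm⟩
  hfin := by
    rintro _ ⟨r, rfl⟩
    have hfin : (⋃ b : Fin d, (fun g : G => (g : G ⧸ N)) '' {g | (r b).coeff g ≠ 0}).Finite :=
      Set.finite_iUnion fun b => (rr_supp_finite (r b)).image _
    refine hfin.subset ?_
    rintro _ ⟨p, hp, rfl⟩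
    by_contra hcon
    rw [Set.mem_iUnion] at hcon
    push Not at hcon
    apply hp
    have h1 : (fun b => rest ((p.2 : G ⧸ N)) (r b)) = 0 := by
      funext b
      refine rr_ext fun g => ?_
      rw [rest_coeff]
      split_ifs with hg
      · by_contra h2
        exact hcon b ⟨g, h2, hg⟩
      · rfl
    have h2 := cut_LL x w ((p.2 : G ⧸ N)) r
    rw [h1, map_zero] at h2
    have h3 := congrFun h2 p
    rw [cuto_of_mem (s := {q : OmI (K1 x) G | (q.2 : G ⧸ N) = (p.2 : G ⧸ N)}) _ rfl] at h3
    exact h3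

theorem VV1_fin (f : FO (OmI (K1 x) G)) (hf : f ∈ (VV1 x w).V) (i : K1 x) :
    {g : G | f (omk i g) ≠ 0}.Finite := by
  obtain ⟨r, rfl⟩ := hf
  rw [LL_em]
  exact rr_supp_finite (∑ b, r b * dg w (jj N (i.1 b)))

/-- the coordinate functions, in the submodule -/
def vv (b : Fin d) : (VV1 x w).V := ⟨vo x w b, by
  refine ⟨Pi.single b 1, ?_⟩
  rw [LL_apply, Finset.sum_eq_single b]
  · rw [Pi.single_eq_same, one_smul]
  · intro c _ hc
    rw [Pi.single_eq_of_ne hc, zero_smul]
  · intro h
    exact absurd (Finset.mem_univ b) h⟩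

theorem vv_coe (b : Fin d) : ((vv x w b : (VV1 x w).V) : FO (OmI (K1 x) G)) = vo x w b := rfl

/-- supported over the base cell -/
def Bs (f : FO (OmI (K1 x) G)) : Prop := ∀ p, f p ≠ 0 → (p.2 : G ⧸ N) = ((1 : G) : G ⧸ N)

theorem bs_vv (b : Fin d) : Bs x (vv x w b : FO (OmI (K1 x) G)) := by
  intro p hp
  have hp : (dg w (jj N (p.1.1 b))).coeff p.2 ≠ 0 := hp
  rw [dg_jj, coeff_jj] at hp
  by_cases h : p.2 ∈ N
  · rw [eq_comm, QuotientGroup.eq, inv_one, one_mul]
    exact h
  · rw [dif_neg h] at hp
    exact absurd rfl hp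

theorem bs_span (f : (VV1 x w).V) (hf : Bs x (f : FO (OmI (K1 x) G))) :
    ∃ q : Fin d → RR N, f = ∑ c, jj N (q c) • vv x w c := by
  obtain ⟨r, hr⟩ := f.2
  have h1 : ∀ b, ∃ a : RR N, jj N a = rest ((1 : G) : G ⧸ N) (r b) := by
    intro b
    refine exists_jj _ fun g hg => ?_
    rw [rest_coeff, if_neg]
    intro h
    rw [eq_comm, QuotientGroup.eq, inv_one, one_mul] at h
    exact hg h
  choose q hq using h1
  refine ⟨q, Subtype.ext ?_⟩
  have h2 : (f : FO (OmI (K1 x) G)) = cuto {p | (p.2 : G ⧸ N) = ((1 : G) : G ⧸ N)} f := by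
    refine fo_ext fun p => ?_
    by_cases hp : (f : FO (OmI (K1 x) G)) p = 0
    · rw [cuto_apply, hp, ite_self]
    · exact (cuto_of_mem (s := {p : OmI (K1 x) G | (p.2 : G ⧸ N) = ((1 : G) : G ⧸ N)})
        _ (hf p hp)).symm
  rw [h2, ← hr, cut_LL, LL_apply, Submodule.coe_sum]
  exact Finset.sum_congr rfl fun b _ => by rw [← hq]; rfl

/-- the relation satisfied by the coordinate functions -/
theorem vv_rel : ∑ b, dg w (gof ((x b : N) : G) - 1) • vv x w b = 0 := by
  apply Subtype.ext
  rw [Submodule.coe_sum]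
  have h1 : ∀ b, ((dg w (gof ((x b : N) : G) - 1) • vv x w b : (VV1 x w).V) :
      FO (OmI (K1 x) G)) = em fun u => dg w (jj N (u.1 b * (gof (x b) - 1))) := by
    intro b
    rw [Submodule.coe_smul, vv_coe]
    unfold vo
    rw [em_smul]
    congr 1
    funext u
    rw [← dg_mul, map_mul, map_sub, jj_of, map_one]
  rw [Finset.sum_congr rfl fun b _ => h1 b, ← em_sum]
  have h2 : (fun u : K1 x => ∑ b, dg w (jj N (u.1 b * (gof (x b) - 1)))) = fun _ => 0 := by
    funext u
    rw [← dg_sum, ← map_sum, u.2, map_zero, dg_zero]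
  rw [h2]
  exact em_zero

end K1

end

end Pool.Agent.J4H59.PE
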