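import Pool.Agent.J4H59.PE.LL

/-!
# Derivations with values in the characters of the functions supported near a ray
-/

set_option autoImplicit false
set_option linter.unusedSectionVars false

open scoped Classical

namespace Pool.Agent.J4H59.PE

open Pool.Agent.Helper386.PD3 Pool.Agent.J4H59.PD

noncomputable section

variable {G : Type} [Group G] {U : Subgroup G} {Ω : Type} [MulAction G Ω]

theorem coe_sumo {ι : Type} {M : Submodule (RR G) (FO Ω)} (T : Finset ι) (u : ι → M)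
    (y : Ω) : ((∑ k ∈ T, u k : M) : FO Ω) y = ∑ k ∈ T, (u k : FO Ω) y := by
  induction T using Finset.induction_on with
  | empty => rfl
  | insert a T ha ih =>
    rw [Finset.sum_insert ha, Finset.sum_insert ha, Submodule.coe_add, foadd_apply, ih]

namespace Vs

variable (𝒱 : Vs U Ω) {R : Set (G ⧸ U)}

theorem cutL_eq {S : Set (G ⧸ U)} {m : 𝒱.LL R}
    (h : ∀ y, (m : FO Ω) y ≠ 0 → 𝒱.p y ∈ S) : 𝒱.cutL R S m = m := by
  apply Subtype.ext
  refine fo_ext fun y => ?_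
  rw [cutL_coe]
  by_cases hy : (m : FO Ω) y = 0
  · rw [cuto_apply, hy, ite_self]
  · exact cuto_of_mem (s := {x | 𝒱.p x ∈ S}) _ (h y hy)

theorem cutL_zero {S : Set (G ⧸ U)} {m : 𝒱.LL R}
    (h : ∀ y, (m : FO Ω) y ≠ 0 → 𝒱.p y ∉ S) : 𝒱.cutL R S m = 0 := by
  apply Subtype.ext
  refine fo_ext fun y => ?_
  rw [cutL_coe]
  by_cases hy : (m : FO Ω) y = 0
  · rw [cuto_apply, hy, ite_self]
    rfl
  · exact cuto_of_notMem (s := {x | 𝒱.p x ∈ S}) _ (h y hy)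

theorem cutL_ne {S : Set (G ⧸ U)} {m : 𝒱.LL R} {y : Ω}
    (h : ((𝒱.cutL R S m : 𝒱.LL R) : FO Ω) y ≠ 0) : (m : FO Ω) y ≠ 0 ∧ 𝒱.p y ∈ S := by
  rw [cutL_coe] at h
  constructor
  · exact spo_cuto _ (m : FO Ω) h
  · by_contra hcon
    exact h (cuto_of_notMem (s := {x | 𝒱.p x ∈ S}) _ hcon)

theorem sum_cutL {ι : Type} (I : Finset ι) (κ : G ⧸ U → ι) (m : 𝒱.LL R)
    (h : ∀ y, (m : FO Ω) y ≠ 0 → κ (𝒱.p y) ∈ I) : ∑ i ∈ I, 𝒱.cutL R {c | κ c = i} m = m := by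
  apply Subtype.ext
  refine fo_ext fun y => ?_
  rw [coe_sumo]
  have h1 : ∀ i ∈ I, ((𝒱.cutL R {c | κ c = i} m : 𝒱.LL R) : FO Ω) y =
      if κ (𝒱.p y) = i then (m : FO Ω) y else 0 := fun i _ => rfl
  rw [Finset.sum_congr rfl h1, Finset.sum_ite_eq]
  split_ifs with h2
  · rfl
  · by_contra hcon
    exact h2 (h y (Ne.symm hcon))

end Vs

end

end Pool.Agent.J4H59.PE

namespace Pool.Agent.J4H59.PD.Ray

open Pool.Agent.Helper386.PD3 Pool.Agent.J4H59.PD Pool.Agent.J4H59.PE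

noncomputable section

variable {G : Type} [Group G] {U : Subgroup G} {Ω : Type} [MulAction G Ω]

variable (r : Ray U)

/-- the piece on which the step is `s` -/
def Ko (s : G) : Set (G ⧸ U) := {c | r.st (r.lev c) = s}

variable (𝒱 : Vs U Ω)

/-- functions supported over the points of the ray with index at least `k` -/
def FFo (k : ℕ) : AddSubgroup (𝒱.LL r.R) where
  carrier := {f | ∀ y, (f : FO Ω) y ≠ 0 → ∃ l, k ≤ l ∧ 𝒱.p y = (r.h l : G ⧸ U)}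
  zero_mem' := fun y hy => absurd rfl hy
  add_mem' {f f'} hf hf' y hy := by
    by_cases h : (f : FO Ω) y = 0
    · exact hf' y (fun h' => hy (by rw [Submodule.coe_add, foadd_apply, h, h', add_zero]))
    · exact hf y h
  neg_mem' {f} hf y hy := hf y (fun h => hy (by
    rw [Submodule.coe_neg, foneg_apply, h, neg_zero]))

theorem FFo_mono (k : ℕ) : r.FFo 𝒱 (k + 1) ≤ r.FFo 𝒱 k := by
  intro f hf y hy
  obtain ⟨l, hl, h⟩ := hf y hy
  exact ⟨l, by omega, h⟩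

theorem FFo_sep (f : (𝒱.LL r.R)) (h : ∀ l : ℕ, f ∈ r.FFo 𝒱 l) : f = 0 := by
  apply Subtype.ext
  refine fo_ext fun y => ?_
  by_contra hcon
  obtain ⟨k, -, hk⟩ := h 0 y hcon
  obtain ⟨l, hl, hl'⟩ := h (k + 1) y hcon
  have := r.hinj _ _ (hk.symm.trans hl')
  omega

theorem FFo_comp (u : ℕ → (𝒱.LL r.R)) (hu : ∀ k : ℕ, u k ∈ r.FFo 𝒱 k) :
    ∃ s, ∀ l : ℕ, s - ∑ k ∈ Finset.range l, u k ∈ r.FFo 𝒱 l := by
  let s : FO Ω := fun y => ∑ k ∈ Finset.range (r.lev (𝒱.p y) + 1), (u k : FO Ω) y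
  have hs : s ∈ 𝒱.LL r.R := by
    refine ⟨fun c => ?_, {1}, fun y hy => ?_⟩
    · have h1 : cuto {x | 𝒱.p x = c} s =
          ∑ k ∈ Finset.range (r.lev c + 1), cuto {x | 𝒱.p x = c} (u k : FO Ω) := by
        refine fo_ext fun y => ?_
        rw [fosum_apply]
        by_cases hy : 𝒱.p y = c
        · rw [cuto_of_mem (s := {x | 𝒱.p x = c}) s hy]
          change ∑ k ∈ Finset.range (r.lev (𝒱.p y) + 1), (u k : FO Ω) y = _
          rw [hy]
          exact Finset.sum_congr rfl fun k _ =>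
            (cuto_of_mem (s := {x | 𝒱.p x = c}) (u k : FO Ω) hy).symm
        · rw [cuto_of_notMem (s := {x | 𝒱.p x = c}) s hy, Finset.sum_eq_zero]
          exact fun k _ => cuto_of_notMem (s := {x | 𝒱.p x = c}) (u k : FO Ω) hy
      rw [h1]
      exact Submodule.sum_mem _ fun k _ => (u k).2.1 c
    · have hy : s y ≠ 0 := hy
      obtain ⟨i, hi, hi'⟩ := Finset.exists_ne_zero_of_sum_ne_zero hy
      obtain ⟨l, -, hl⟩ := hu i y hi'
      refine ⟨1, Finset.mem_singleton_self 1, ?_⟩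
      rw [inv_one, one_smul]
      exact ⟨l, hl.symm⟩
  refine ⟨⟨s, hs⟩, fun l y hy => ?_⟩
  have hy1 : s y - ∑ k ∈ Finset.range l, (u k : FO Ω) y ≠ 0 := by
    rw [← coe_sumo]
    exact hy
  have h2 : ∃ j, 𝒱.p y = (r.h j : G ⧸ U) := by
    by_contra hcon
    apply hy1
    have h3 : ∀ k, (u k : FO Ω) y = 0 := by
      intro k
      by_contra h4
      obtain ⟨j, -, hj⟩ := hu k y h4
      exact hcon ⟨j, hj⟩
    change ∑ k ∈ Finset.range (r.lev (𝒱.p y) + 1), (u k : FO Ω) y - _ = 0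
    rw [Finset.sum_eq_zero fun k _ => h3 k, Finset.sum_eq_zero fun k _ => h3 k, sub_zero]
  obtain ⟨j, hj⟩ := h2
  refine ⟨j, ?_, hj⟩
  by_contra hcon
  apply hy1
  change ∑ k ∈ Finset.range (r.lev (𝒱.p y) + 1), (u k : FO Ω) y - _ = 0
  rw [hj, r.lev_h, sub_eq_zero]
  apply Finset.sum_subset
  · intro k hk
    rw [Finset.mem_range] at hk ⊢
    omega
  · intro k hk hk'
    rw [Finset.mem_range, not_lt] at hk'
    by_contra h0
    obtain ⟨j', hj1, hj2⟩ := hu k y h0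
    have := r.hinj _ _ (hj.symm.trans hj2)
    omega

theorem FFo_gof {n : G} (hn : n ∈ U) {k : ℕ} {f : (𝒱.LL r.R)} (hf : f ∈ r.FFo 𝒱 k) :
    gof n • f ∈ r.FFo 𝒱 k := by
  intro y hy
  rw [Submodule.coe_smul, gofo_apply] at hy
  obtain ⟨l, h1, h2⟩ := hf _ hy
  rw [𝒱.hp, inv_smul_eq_iff, r.fix hn] at h2
  exact ⟨l, h1, h2⟩

theorem FFo_cut (s : Set (G ⧸ U)) {k : ℕ} {f : (𝒱.LL r.R)} (hf : f ∈ r.FFo 𝒱 k) :
    𝒱.cutL r.R s f ∈ r.FFo 𝒱 k := fun y hy => hf y (𝒱.cutL_ne hy).1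


theorem FFo_step {k : ℕ} {s : G} {f : (𝒱.LL r.R)} (hf : f ∈ r.FFo 𝒱 k)
    (hs : ∀ y, (f : FO Ω) y ≠ 0 → 𝒱.p y ∈ r.Ko s) : gof s • f ∈ r.FFo 𝒱 (k + 1) := by
  intro y hy
  rw [Submodule.coe_smul, gofo_apply] at hy
  obtain ⟨l, h1, h2⟩ := hf _ hy
  have h3 : r.st (r.lev (𝒱.p (s⁻¹ • y))) = s := hs _ hy
  rw [h2, r.lev_h] at h3
  refine ⟨l + 1, by omega, ?_⟩
  rw [← r.step, h3, ← h2, 𝒱.hp, smul_inv_smul]

variable {w : G →* ℤˣ}

/-- The Fox calculus. -/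
theorem foxo {d : ℕ} (x : Fin d → G) (hx : Subgroup.closure (Set.range x) = U)
    (δ : G → Du w (𝒱.LL r.R)) (hδ : ∀ g h, δ (g * h) = δ g + gof g • δ h) (n : G)
    (hn : n ∈ U) :
    ∃ β : Fin d → RR G,
      (∀ j, ∀ (k : ℕ) (m : (𝒱.LL r.R)), m ∈ r.FFo 𝒱 k → β j • m ∈ r.FFo 𝒱 k) ∧
      ∀ m, (δ n).ev m = ∑ j, (δ (x j)).ev (β j • m) := by
  rw [← hx] at hn
  induction hn using Subgroup.closure_induction with
  | mem n hn =>
    obtain ⟨i, rfl⟩ := hn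
    refine ⟨Pi.single i 1, fun j k m hm => ?_, fun m => ?_⟩
    · by_cases hj : j = i
      · rw [hj, Pi.single_eq_same, one_smul]
        exact hm
      · rw [Pi.single_eq_of_ne hj, zero_smul]
        exact zero_mem _
    · rw [Finset.sum_eq_single i]
      · rw [Pi.single_eq_same, one_smul]
      · intro j _ hj
        rw [Pi.single_eq_of_ne hj, zero_smul, map_zero]
      · intro h
        exact absurd (Finset.mem_univ i) h
  | one =>
    refine ⟨0, fun j k m hm => ?_, fun m => ?_⟩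
    · rw [Pi.zero_apply, zero_smul]
      exact zero_mem _
    · rw [der_one hδ, Du.ev_zero, Finset.sum_eq_zero]
      intro j _
      rw [Pi.zero_apply, zero_smul, map_zero]
  | mul n n' hn hn' h h' =>
    rw [hx] at hn hn'
    obtain ⟨β, hβ, hβ'⟩ := h
    obtain ⟨β', hb, hb'⟩ := h'
    refine ⟨fun j => β j + β' j * (((w n : ℤˣ) : ℤ) • gof n⁻¹), fun j k m hm => ?_,
      fun m => ?_⟩
    · rw [add_smul, mul_smul, smul_assoc]
      exact add_mem (hβ j k m hm) (hb j k _ (zsmul_mem (r.FFo_gof 𝒱 (U.inv_mem hn) hm) _))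
    · rw [hδ, Du.ev_add, Du.ev_gof, hβ', hb', Finset.smul_sum, ← Finset.sum_add_distrib]
      refine Finset.sum_congr rfl fun j _ => ?_
      rw [add_smul, map_add, mul_smul, smul_assoc, ← ev_zsmul']
      congr 2
      exact (smul_comm _ _ _)
  | inv n hn h =>
    rw [hx] at hn
    obtain ⟨β, hβ, hβ'⟩ := h
    refine ⟨fun j => (β j * (((-(w n : ℤˣ) : ℤˣ) : ℤ) • gof n)), fun j k m hm => ?_,
      fun m => ?_⟩
    · rw [mul_smul, smul_assoc]
      exact hβ j k _ (zsmul_mem (r.FFo_gof 𝒱 hn hm) _)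
    · rw [der_inv hδ, Du.ev_neg, Du.ev_gof, hβ', Finset.smul_sum, ← Finset.sum_neg_distrib]
      refine Finset.sum_congr rfl fun j _ => ?_
      rw [mul_smul, smul_assoc, ← ev_zsmul', inv_inv, map_inv, Int.units_inv_eq_self,
        ← map_neg, Units.val_neg]
      congr 1
      have e1 : (-((w n : ℤˣ) : ℤ)) • (gof n • m) = -(((w n : ℤˣ) : ℤ) • (gof n • m)) :=
        neg_smul _ _
      rw [e1, smul_neg, smul_comm]

/-- First step: correcting a derivation along the ray. -/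
theorem step1o (δ : G → Du w (𝒱.LL r.R)) :
    ∃ μ : Du w (𝒱.LL r.R), ∀ s ∈ r.S, ∀ m ∈ r.FFo 𝒱 0,
      (∀ y, ((m : (𝒱.LL r.R)) : FO Ω) y ≠ 0 → 𝒱.p y ∈ r.Ko s) →
      (δ s⁻¹ - (gof s⁻¹ • μ - μ)).ev m = 0 := by
  let P : (𝒱.LL r.R) →+ (𝒱.LL r.R) := 𝒱.cutL r.R r.R
  let C : G → (𝒱.LL r.R) →+ (𝒱.LL r.R) := fun s => 𝒱.cutL r.R (r.Ko s)
  have hPF : ∀ m : (𝒱.LL r.R), P m ∈ r.FFo 𝒱 0 := by
    intro m y hy
    obtain ⟨k, hk⟩ := (𝒱.cutL_ne hy).2
    exact ⟨k, Nat.zero_le _, hk.symm⟩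
  have hPm : ∀ m ∈ r.FFo 𝒱 0, P m = m := by
    intro m hm
    refine 𝒱.cutL_eq fun y hy => ?_
    obtain ⟨l, -, hl⟩ := hm y hy
    exact ⟨l, hl.symm⟩
  let B : (𝒱.LL r.R) →+ (𝒱.LL r.R) := AddMonoidHom.mk'
    (fun m => ∑ s ∈ r.S, ((w s : ℤˣ) : ℤ) • gof s • C s m) (by
      intro m m'
      rw [← Finset.sum_add_distrib]
      refine Finset.sum_congr rfl fun s _ => ?_
      rw [map_add, smul_add, smul_add])
  have hB : ∀ m, B m = ∑ s ∈ r.S, ((w s : ℤˣ) : ℤ) • gof s • C s m := fun m => rfl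
  have hBF : ∀ k, ∀ m ∈ r.FFo 𝒱 k, B m ∈ r.FFo 𝒱 (k + 1) := by
    intro k m hm
    rw [hB]
    refine sum_mem fun s _ => zsmul_mem (r.FFo_step 𝒱 (r.FFo_cut 𝒱 _ hm) fun y hy => ?_) _
    exact (𝒱.cutL_ne hy).2
  let J : (𝒱.LL r.R) →+ (𝒱.LL r.R) := AddMonoidHom.mk' (fun m => B (P m) - P m) (by
    intro m m'
    rw [map_add, map_add]
    abel)
  have hJ : ∀ m, J m = B (P m) - P m := fun m => rfl
  let D : (𝒱.LL r.R) →+ EE := AddMonoidHom.mk' (fun m => ∑ s ∈ r.S, (δ s⁻¹).ev (C s (P m))) (by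
      intro m m'
      rw [← Finset.sum_add_distrib]
      refine Finset.sum_congr rfl fun s _ => ?_
      rw [map_add, map_add, map_add])
  have hD : ∀ m, D m = ∑ s ∈ r.S, (δ s⁻¹).ev (C s (P m)) := fun m => rfl
  obtain ⟨μ', hμ'⟩ := exists_extension J D (by
    intro m hm
    have h1 : P m = 0 := by
      rw [hJ, sub_eq_zero] at hm
      refine r.FFo_sep 𝒱 _ fun l => ?_
      induction l with
      | zero => exact hPF m
      | succ l ih =>
        rw [← hm]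
        exact hBF l _ ih
    rw [hD]
    refine Finset.sum_eq_zero fun s _ => ?_
    rw [h1, map_zero, map_zero])
  refine ⟨μ', fun s hs m hm hmK => ?_⟩
  have h1 : μ' (J m) = D m := hμ' m
  have hC1 : C s m = m := 𝒱.cutL_eq hmK
  have hC2 : ∀ s' ∈ r.S, s' ≠ s → C s' m = 0 := by
    intro s' _ hs'
    refine 𝒱.cutL_zero fun y hy hy' => hs' ?_
    have h2 : r.st (r.lev (𝒱.p y)) = s := hmK y hy
    have h3 : r.st (r.lev (𝒱.p y)) = s' := hy'
    rw [← h3, h2]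
  rw [hJ, hD, hPm m hm, hB, Finset.sum_eq_single_of_mem s hs, Finset.sum_eq_single_of_mem s hs,
    hC1] at h1
  · have e1 : ((δ s⁻¹) - (gof s⁻¹ • (show Du w (𝒱.LL r.R) from μ') - (show Du w (𝒱.LL r.R) from μ'))).ev m =
        (δ s⁻¹).ev m - ((gof s⁻¹ • (show Du w (𝒱.LL r.R) from μ')).ev m - μ' m) := rfl
    have e2 : (gof s⁻¹ • (show Du w (𝒱.LL r.R) from μ')).ev m =
        ((w s : ℤˣ) : ℤ) • μ' (gof s • m) := by
      rw [Du.ev_gof, inv_inv, map_inv, Int.units_inv_eq_self]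
      rfl
    have e3 : μ' (((w s : ℤˣ) : ℤ) • gof s • m - m) =
        ((w s : ℤˣ) : ℤ) • μ' (gof s • m) - μ' m := by
      rw [map_sub, map_zsmul]
    rw [e1, e2, ← e3, h1, sub_self]
  · intro s' hs' hne
    rw [hC2 s' hs' hne, map_zero]
  · intro s' hs' hne
    rw [hC2 s' hs' hne, smul_zero, smul_zero]

/-- Second step: the derivation vanishes on `U`. -/
theorem step2o {d : ℕ} (x : Fin d → G) (hx : Subgroup.closure (Set.range x) = U)
    (δ : G → Du w (𝒱.LL r.R)) (hδ : ∀ g h, δ (g * h) = δ g + gof g • δ h)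
    (h1 : ∀ s ∈ r.S, ∀ m ∈ r.FFo 𝒱 0,
      (∀ y, ((m : (𝒱.LL r.R)) : FO Ω) y ≠ 0 → 𝒱.p y ∈ r.Ko s) → (δ s⁻¹).ev m = 0) :
    ∀ n ∈ U, ∀ m ∈ r.FFo 𝒱 0, (δ n).ev m = 0 := by
  have hxU : ∀ i, x i ∈ U := fun i => by
    rw [← hx]
    exact Subgroup.subset_closure ⟨i, rfl⟩
  let C : G → (𝒱.LL r.R) →+ (𝒱.LL r.R) := fun s => 𝒱.cutL r.R (r.Ko s)
  have hsN : ∀ s ∈ r.S, ∀ n ∈ U, s * n * s⁻¹ ∈ U := fun s hs n hn =>
    (Subgroup.mem_normalizer_iff.1 (r.hS s hs) n).1 hn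
  have hKU : ∀ n ∈ U, ∀ (m : (𝒱.LL r.R)) (s : G), m ∈ r.FFo 𝒱 0 →
      (∀ y, (m : FO Ω) y ≠ 0 → 𝒱.p y ∈ r.Ko s) →
      ∀ y, ((gof n • m : (𝒱.LL r.R)) : FO Ω) y ≠ 0 → 𝒱.p y ∈ r.Ko s := by
    intro n hn m s hm hmK y hy
    rw [Submodule.coe_smul, gofo_apply] at hy
    obtain ⟨l, -, hl⟩ := hm _ hy
    have h2 : r.st (r.lev (𝒱.p (n⁻¹ • y))) = s := hmK _ hy
    rw [hl] at h2
    rw [𝒱.hp, inv_smul_eq_iff, r.fix hn] at hl
    change r.st (r.lev (𝒱.p y)) = s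
    rw [hl, h2]
  have hrel : ∀ s ∈ r.S, ∀ i, ∀ m ∈ r.FFo 𝒱 0,
      (∀ y, ((m : (𝒱.LL r.R)) : FO Ω) y ≠ 0 → 𝒱.p y ∈ r.Ko s) →
      (δ (x i)).ev m = (δ (s * x i * s⁻¹)).ev (((w s : ℤˣ) : ℤ) • gof s • m) := by
    intro s hs i m hm hmK
    rw [hδ, hδ, Du.ev_add, Du.ev_add, Du.ev_gof, Du.ev_gof]
    have e0 : gof s⁻¹ • (((w s : ℤˣ) : ℤ) • gof s • m) = ((w s : ℤˣ) : ℤ) • m := by
      rw [smul_comm, smul_smul (gof s⁻¹), ← gof_mul, inv_mul_cancel, gof_one, one_smul]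
    have e1 : gof (s * x i)⁻¹ • (((w s : ℤˣ) : ℤ) • gof s • m) =
        ((w s : ℤˣ) : ℤ) • gof (x i)⁻¹ • m := by
      rw [smul_comm, smul_smul (gof (s * x i)⁻¹), ← gof_mul]
      congr 3
      group
    have e2 : (δ s).ev (((w s : ℤˣ) : ℤ) • gof s • m) = 0 := by
      have e3 : δ s = -(gof s • δ s⁻¹) := by
        have := der_inv hδ s⁻¹
        rwa [inv_inv] at this
      rw [e3, Du.ev_neg, Du.ev_gof, e0, ev_zsmul', h1 s hs m hm hmK, smul_zero, smul_zero, neg_zero]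
    rw [e2, e0, e1, ev_zsmul', ev_zsmul', unit_smul_unit_smul, zero_add]
    have e4 : (δ s⁻¹).ev (gof (x i)⁻¹ • m) = 0 :=
      h1 s hs _ (r.FFo_gof 𝒱 (U.inv_mem (hxU i)) hm) (hKU _ (U.inv_mem (hxU i)) m s hm hmK)
    rw [e4, smul_zero, smul_zero, add_zero]
  have hfox : ∀ s : G, ∃ β : Fin d → Fin d → RR G, s ∈ r.S →
      (∀ i j, ∀ (k : ℕ) (m : (𝒱.LL r.R)), m ∈ r.FFo 𝒱 k → β i j • m ∈ r.FFo 𝒱 k) ∧
      ∀ i m, (δ (s * x i * s⁻¹)).ev m = ∑ j, (δ (x j)).ev (β i j • m) := by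
    intro s
    by_cases hs : s ∈ r.S
    · choose β hβ hβ' using fun i => r.foxo 𝒱 x hx δ hδ (s * x i * s⁻¹) (hsN s hs _ (hxU i))
      exact ⟨β, fun _ => ⟨hβ, hβ'⟩⟩
    · exact ⟨0, fun h => absurd h hs⟩
  choose β hβ using hfox
  let F : ℕ → AddSubgroup (Fin d → (𝒱.LL r.R)) := fun k =>
    { carrier := {u | ∀ j, u j ∈ r.FFo 𝒱 k}
      zero_mem' := fun j => zero_mem _
      add_mem' := fun ha hb j => add_mem (ha j) (hb j)
      neg_mem' := fun ha j => neg_mem (ha j) }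
  let Z : (Fin d → (𝒱.LL r.R)) →+ (Fin d → (𝒱.LL r.R)) := AddMonoidHom.mk'
    (fun u j => ∑ s ∈ r.S, ∑ i, β s i j • ((w s : ℤˣ) : ℤ) • gof s • C s (u i)) (by
      intro u u'
      funext j
      rw [Pi.add_apply, ← Finset.sum_add_distrib]
      refine Finset.sum_congr rfl fun s _ => ?_
      rw [← Finset.sum_add_distrib]
      refine Finset.sum_congr rfl fun i _ => ?_
      rw [Pi.add_apply, map_add, smul_add, smul_add, smul_add])
  have hZ : ∀ u j, Z u j = ∑ s ∈ r.S, ∑ i, β s i j • ((w s : ℤˣ) : ℤ) • gof s • C s (u i) :=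
    fun u j => rfl
  have hvanx : ∀ j, ∀ m ∈ r.FFo 𝒱 0, (δ (x j)).ev m = 0 := by
    intro j₀ m₀ hm₀
    let c : Fin d → (𝒱.LL r.R) := Pi.single j₀ m₀
    have hc : ∀ j, c j ∈ r.FFo 𝒱 0 := by
      intro j
      by_cases hj : j = j₀
      · rw [hj]
        change (Pi.single j₀ m₀ : Fin d → (𝒱.LL r.R)) j₀ ∈ r.FFo 𝒱 0
        rw [Pi.single_eq_same]
        exact hm₀
      · change (Pi.single j₀ m₀ : Fin d → (𝒱.LL r.R)) j ∈ r.FFo 𝒱 0
        rw [Pi.single_eq_of_ne hj]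
        exact zero_mem _
    obtain ⟨s, hs, hs'⟩ := exists_fix' F (fun k u hu j => r.FFo_mono 𝒱 k (hu j))
      (fun u hu => funext fun j => r.FFo_sep 𝒱 (u j) fun l => hu l j)
      (by
        intro u hu
        choose s hs using fun j => r.FFo_comp 𝒱 (fun k => u k j) (fun k => hu k j)
        refine ⟨s, fun l j => ?_⟩
        have h2 := hs j l
        rw [Pi.sub_apply, Finset.sum_apply]
        exact h2) Z
      (by
        intro k u hu j
        rw [hZ]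
        refine sum_mem fun s hs => sum_mem fun i _ => (hβ s hs).1 i j _ _ ?_
        refine zsmul_mem (r.FFo_step 𝒱 (r.FFo_cut 𝒱 _ (hu i)) fun y hy => ?_) _
        exact (𝒱.cutL_ne hy).2) c hc
    have h4 : ∑ j, (δ (x j)).ev (c j) = (δ (x j₀)).ev m₀ := by
      rw [Finset.sum_eq_single j₀]
      · change (δ (x j₀)).ev ((Pi.single j₀ m₀ : Fin d → (𝒱.LL r.R)) j₀) = _
        rw [Pi.single_eq_same]
      · intro j _ hj
        change (δ (x j)).ev ((Pi.single j₀ m₀ : Fin d → (𝒱.LL r.R)) j) = _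
        rw [Pi.single_eq_of_ne hj, map_zero]
      · intro h
        exact absurd (Finset.mem_univ _) h
    rw [← h4]
    have h5 : ∀ i, (δ (x i)).ev (s i) =
        ∑ t ∈ r.S, ∑ j, (δ (x j)).ev (β t i j • ((w t : ℤˣ) : ℤ) • gof t • C t (s i)) := by
      intro i
      have h6 : ∑ t ∈ r.S, C t (s i) = s i := by
        refine 𝒱.sum_cutL r.S (fun c => r.st (r.lev c)) (s i) fun y _ => r.hst _
      conv_lhs => rw [← h6, map_sum]
      refine Finset.sum_congr rfl fun t ht => ?_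
      rw [hrel t ht i _ (r.FFo_cut 𝒱 _ (hs i)) fun y hy => (𝒱.cutL_ne hy).2]
      exact (hβ t ht).2 i _
    have h7 : ∀ j, (δ (x j)).ev (c j) = (δ (x j)).ev (s j) -
        ∑ t ∈ r.S, ∑ i, (δ (x j)).ev (β t i j • ((w t : ℤˣ) : ℤ) • gof t • C t (s i)) := by
      intro j
      have h8 : c j = s j - Z s j := (congrFun hs' j).symm
      rw [h8, map_sub, hZ, map_sum]
      congr 1
      exact Finset.sum_congr rfl fun t _ => map_sum _ _ _
    simp only [h7]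
    rw [Finset.sum_sub_distrib, sub_eq_zero]
    simp only [h5]
    rw [Finset.sum_comm]
    conv_rhs => rw [Finset.sum_comm]
    refine Finset.sum_congr rfl fun t _ => ?_
    rw [Finset.sum_comm]
  intro n hn m hm
  obtain ⟨β, hβ, hβ'⟩ := r.foxo 𝒱 x hx δ hδ n hn
  rw [hβ']
  exact Finset.sum_eq_zero fun j _ => hvanx j _ (hβ j 0 m hm)

end

end Pool.Agent.J4H59.PD.Ray
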