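import Pool.Agent.J4H59.PE.Mod

/-!
# Shapiro's lemma for derivations with values in characters
-/

set_option autoImplicit false
set_option linter.unusedSectionVars false

open scoped Classical

namespace Pool.Agent.J4H59.PE

open Pool.Agent.Helper386.PD3 Pool.Agent.J4H59.PD

noncomputable section

variable {G : Type} [Group G] {N : Subgroup G} {d : ℕ} (x : Fin d → N) (w : G →* ℤˣ)

/-- the module -/
abbrev Vm : Type := ↥(VV1 x w).V

/-- the restriction to a cell -/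
def cutV (y : G ⧸ N) : Vm x w →+ Vm x w where
  toFun f := ⟨cuto {p | (VV1 x w).p p = y} f.1, (VV1 x w).hcut f.1 f.2 y⟩
  map_zero' := Subtype.ext (map_zero _)
  map_add' _ _ := Subtype.ext (map_add _ _ _)

variable {x w}

theorem cutV_gof (g : G) (y : G ⧸ N) (f : Vm x w) :
    cutV x w y (gof g • f) = gof g • cutV x w (g⁻¹ • y) f :=
  Subtype.ext ((VV1 x w).cut_gof g y f.1)

theorem cutV_fin (f : Vm x w) (F : G ⧸ N → Vm x w →+ EE) :
    (Function.support fun y => F y (cutV x w y f)).Finite := by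
  refine ((VV1 x w).hfin f.1 f.2).subset ?_
  intro y hy
  by_contra hcon
  apply hy
  have h1 : cutV x w y f = 0 := by
    apply Subtype.ext
    refine fo_ext fun p => ?_
    by_cases hp : (f : FO (OmI (K1 x) G)) p = 0
    · change cuto {p | (VV1 x w).p p = y} f.1 p = 0
      rw [cuto_apply, hp, ite_self]
    · exact cuto_of_notMem (s := {p | (VV1 x w).p p = y}) f.1 fun h => hcon ⟨p, hp, h⟩
  change F y (cutV x w y f) = 0
  rw [h1, map_zero]

/-- support in a cell -/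
def Cs (y : G ⧸ N) (f : Vm x w) : Prop := ∀ p, (f : FO (OmI (K1 x) G)) p ≠ 0 → (p.2 : G ⧸ N) = y

theorem cs_cut (y : G ⧸ N) (f : Vm x w) : Cs y (cutV x w y f) := by
  intro p hp
  by_contra hcon
  exact hp (cuto_of_notMem (s := {p | (VV1 x w).p p = y}) f.1 hcon)

theorem Cs.cut_eq {y : G ⧸ N} {f : Vm x w} (h : Cs y f) : cutV x w y f = f := by
  apply Subtype.ext
  refine fo_ext fun p => ?_
  by_cases hp : (f : FO (OmI (K1 x) G)) p = 0
  · change cuto {p | (VV1 x w).p p = y} f.1 p = _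
    rw [cuto_apply, hp, ite_self]
  · exact cuto_of_mem (s := {p | (VV1 x w).p p = y}) f.1 (h p hp)

theorem Cs.cut_ne {y y' : G ⧸ N} {f : Vm x w} (h : Cs y f) (hy : y' ≠ y) :
    cutV x w y' f = 0 := by
  apply Subtype.ext
  refine fo_ext fun p => ?_
  by_cases hp : (f : FO (OmI (K1 x) G)) p = 0
  · change cuto {p | (VV1 x w).p p = y'} f.1 p = 0
    rw [cuto_apply, hp, ite_self]
  · refine cuto_of_notMem (s := {p | (VV1 x w).p p = y'}) f.1 fun h' => hy ?_
    have h' : (p.2 : G ⧸ N) = y' := h'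
    rw [← h', h p hp]

/-- representatives of the cosets, with the identity for the base coset -/
def rp' (y : G ⧸ N) : G := if y = ((1 : G) : G ⧸ N) then 1 else rp y

theorem mk_rp' (y : G ⧸ N) : ((rp' y : G) : G ⧸ N) = y := by
  unfold rp'
  split_ifs with h
  · exact h.symm
  · exact mk_rp y

theorem rp'_one : rp' ((1 : G) : G ⧸ N) = 1 := if_pos rfl

theorem al'_mem (g : G) (y : G ⧸ N) : (rp' y)⁻¹ * (g * rp' (g⁻¹ • y)) ∈ N := by
  rw [← QuotientGroup.eq, mk_rp']
  change y = g • ((rp' (g⁻¹ • y) : G) : G ⧸ N)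
  rw [mk_rp', smul_inv_smul]

/-- the cocycle of the permutation action -/
def al' (g : G) (y : G ⧸ N) : N := ⟨_, al'_mem g y⟩

theorem al'_coe (g : G) (y : G ⧸ N) : (al' g y : G) = (rp' y)⁻¹ * (g * rp' (g⁻¹ • y)) := rfl

theorem al'_mul (g h : G) (y : G ⧸ N) : al' (g * h) y = al' g y * al' h (g⁻¹ • y) := by
  apply Subtype.ext
  rw [Subgroup.coe_mul, al'_coe, al'_coe, al'_coe, mul_inv_rev, mul_smul]
  group

theorem Cs.base {y : G ⧸ N} {f : Vm x w} (h : Cs y f) :
    Bs x ((gof (rp' y)⁻¹ • f : Vm x w) : FO (OmI (K1 x) G)) := by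
  intro p hp
  rw [Submodule.coe_smul, gofo_apply, inv_inv] at hp
  have h1 := h _ hp
  have h2 : rp' y • (p.2 : G ⧸ N) = y := h1
  have h3 : (rp' y)⁻¹ • y = ((1 : G) : G ⧸ N) := by
    rw [inv_smul_eq_iff]
    change y = ((rp' y * 1 : G) : G ⧸ N)
    rw [mul_one, mk_rp']
  rw [← h3]
  exact (inv_smul_eq_iff.2 h2.symm).symm

/-- the summands of the extension of a derivation -/
def TT (D : N → Du w (Vm x w)) (g : G) (y : G ⧸ N) : Vm x w →+ EE :=
  AddMonoidHom.mk' (fun f => ((w (rp' y) : ℤˣ) : ℤ) • (D (al' g y)).ev (gof (rp' y)⁻¹ • f)) (by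
    intro f f'
    rw [smul_add, map_add, smul_add])

theorem TT_apply (D : N → Du w (Vm x w)) (g : G) (y : G ⧸ N) (f : Vm x w) :
    TT D g y f = ((w (rp' y) : ℤˣ) : ℤ) • (D (al' g y)).ev (gof (rp' y)⁻¹ • f) := rfl

/-- the extension of a derivation -/
def kap (D : N → Du w (Vm x w)) (g : G) : Du w (Vm x w) :=
  (AddMonoidHom.mk' (fun f => ∑ᶠ y, TT D g y (cutV x w y f)) (by
    intro f f'
    rw [← finsum_add_distrib (cutV_fin f _) (cutV_fin f' _)]
    exact finsum_congr fun y => by rw [map_add, map_add]) : Vm x w →+ EE)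

theorem kap_ev (D : N → Du w (Vm x w)) (g : G) (f : Vm x w) :
    (kap D g).ev f = ∑ᶠ y, TT D g y (cutV x w y f) := rfl

/-- derivations on the functions supported over the base cell -/
def BD (D : N → Du w (Vm x w)) : Prop :=
  ∀ (n m : N) (f : Vm x w), Bs x (f : FO (OmI (K1 x) G)) →
    (D (n * m)).ev f = (D n).ev f + (gof (n : G) • D m).ev f

theorem TT_mul {D : N → Du w (Vm x w)} (hD : BD D) (g h : G) {y : G ⧸ N} {f : Vm x w}
    (hf : Cs y f) : TT D (g * h) y f =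
      TT D g y f + ((w g : ℤˣ) : ℤ) • TT D h (g⁻¹ • y) (gof g⁻¹ • f) := by
  rw [TT_apply, TT_apply, TT_apply, al'_mul, hD _ _ _ hf.base, smul_add, Du.ev_gof]
  congr 1
  rw [smul_smul, smul_smul, smul_smul, smul_smul, ← gof_mul, ← gof_mul]
  have h1 : (al' g y : G)⁻¹ * (rp' y)⁻¹ = (rp' (g⁻¹ • y))⁻¹ * g⁻¹ := by
    rw [al'_coe]
    group
  have h2 : ((w (rp' y) : ℤˣ) : ℤ) * ((w (al' g y : G) : ℤˣ) : ℤ) =
      ((w g : ℤˣ) : ℤ) * ((w (rp' (g⁻¹ • y)) : ℤˣ) : ℤ) := by
    rw [← Units.val_mul, ← Units.val_mul, ← map_mul, ← map_mul, al'_coe, mul_inv_cancel_left]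
  rw [h1, h2]

theorem kap_der {D : N → Du w (Vm x w)} (hD : BD D) (g h : G) :
    kap D (g * h) = kap D g + gof g • kap D h := by
  refine Du.ext fun f => ?_
  rw [Du.ev_add, Du.ev_gof, kap_ev, kap_ev, kap_ev]
  have h1 : (∑ᶠ y, TT D h y (cutV x w y (gof g⁻¹ • f))) =
      ∑ᶠ y, TT D h (g⁻¹ • y) (gof g⁻¹ • cutV x w y f) := by
    rw [← finsum_comp_equiv (MulAction.toPerm g⁻¹)]
    refine finsum_congr fun y => ?_
    rw [MulAction.toPerm_apply, cutV_gof, inv_inv, smul_inv_smul]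
  let F : G ⧸ N → Vm x w →+ EE := fun y => AddMonoidHom.mk'
    (fun f => TT D h (g⁻¹ • y) (gof g⁻¹ • f)) (by
      intro f f'
      rw [smul_add, map_add])
  have h2 : (Function.support fun y => TT D h (g⁻¹ • y) (gof g⁻¹ • cutV x w y f)).Finite :=
    cutV_fin f F
  rw [h1, smul_finsum' _ h2, ← finsum_add_distrib (cutV_fin f _)]
  · exact finsum_congr fun y => TT_mul hD g h (cs_cut y f)
  · refine h2.subset ?_
    intro y hy hy0
    apply hy
    have hy0 : TT D h (g⁻¹ • y) (gof g⁻¹ • cutV x w y f) = 0 := hy0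
    change ((w g : ℤˣ) : ℤ) • TT D h (g⁻¹ • y) (gof g⁻¹ • cutV x w y f) = 0
    rw [hy0, smul_zero]

theorem kap_base {D : N → Du w (Vm x w)} (n : N) {f : Vm x w}
    (hf : Bs x (f : FO (OmI (K1 x) G))) : (kap D (n : G)).ev f = (D n).ev f := by
  have hf' : Cs ((1 : G) : G ⧸ N) f := hf
  rw [kap_ev, finsum_eq_single _ ((1 : G) : G ⧸ N)]
  · rw [hf'.cut_eq, TT_apply, rp'_one, map_one, Units.val_one, one_smul, inv_one, gof_one, one_smul]
    have h1 : al' (n : G) ((1 : G) : G ⧸ N) = n := by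
      apply Subtype.ext
      have h2 : (n : G)⁻¹ • ((1 : G) : G ⧸ N) = ((1 : G) : G ⧸ N) := by
        change (((n : G)⁻¹ * 1 : G) : G ⧸ N) = _
        rw [QuotientGroup.eq]
        simp
      rw [al'_coe, h2, rp'_one, inv_one, one_mul, mul_one]
    rw [h1]
  · intro y hy
    rw [hf'.cut_ne hy, map_zero]

theorem inner_base (hall : AllDer (G := G) (Du w (Vm x w))) {D : N → Du w (Vm x w)} (hD : BD D) :
    ∃ μ : Du w (Vm x w), ∀ (n : N) (f : Vm x w), Bs x (f : FO (OmI (K1 x) G)) →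
      (D n).ev f = (gof (n : G) • μ - μ).ev f := by
  obtain ⟨μ, hμ⟩ := hall (kap D) (kap_der hD)
  exact ⟨μ, fun n f hf => by rw [← hμ, kap_base n hf]⟩

end

end Pool.Agent.J4H59.PE
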